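import Pool.Agent.H91.RP.Main
import Pool.Agent.H6.LvdP3.Union

/-!
Team RP (MP_a57ff3_nt), helper91. The window `3 ≤ |k|/4^t ≤ 4 - 8/4^e`.
-/

set_option autoImplicit false

namespace H91RP

open Finset H54RP Pool.Agent.H6.LvdP2 Pool.Agent.H6.LvdP3 Pool.Agent.H98.LvdP

theorem pc_of {N Q a0 b0 : ℤ} {n : ℕ} (hN : 1 ≤ N) (h34 : 3 * N ≤ 4 * Q)
    (hn : 15 * (n : ℤ) + 10 ≤ N - Q) (ha : 1 ≤ 3 * a0 + Q) (ha' : 3 * a0 + Q ≤ 3)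
    (hb : N - 1 ≤ 3 * b0 + 2 * Q) (hb' : 3 * b0 + 2 * Q ≤ N + 1) (g : Fin (n + 1)) :
    PC N Q (a0 + (g : ℕ)) (b0 - (g : ℕ)) := by
  have h0 : (0 : ℤ) ≤ (g : ℕ) := by positivity
  have h1 : ((g : ℕ) : ℤ) ≤ n := by exact_mod_cast Nat.lt_succ_iff.1 g.2
  constructor
  · exact h34
  · omega
  · exact hN
  · omega
  · omega
  · omega
  · omega

theorem exists_fam {q N Q a0 b0 : ℤ} {n : ℕ} (hq : q = Q ∨ q = -Q) (hN : 1 ≤ N)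
    (h34 : 3 * N ≤ 4 * Q)
    (hn : 15 * (n : ℤ) + 10 ≤ N - Q) (ha : 1 ≤ 3 * a0 + Q) (ha' : 3 * a0 + Q ≤ 3)
    (hb : N - 1 ≤ 3 * b0 + 2 * Q) (hb' : 3 * b0 + 2 * Q ≤ N + 1) :
    ∃ Kf : Fin (n + 1) → Ker q N,
      ∀ g : Fin (n + 1), Nice (Kf g) Q (a0 + (g : ℕ)) (b0 - (g : ℕ)) := by
  rcases hq with rfl | rfl
  · exact ⟨fun g => pair (pc_of hN h34 hn ha ha' hb hb' g), fun g => nice_pair _⟩
  · exact ⟨fun g => (pair (pc_of hN h34 hn ha ha' hb hb' g)).rev, fun g => (nice_pair _).rev⟩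

/-- the constant -/
theorem const_le (L t ell : ℕ) (hLt : L ≤ t) :
    (1 + 2 * (2 * (1 * (16 * 4 ^ (ell + 1) * (4 ^ (2 * 2) * ((L : ℝ) + 1) ^ 18 *
      (((1 + 5 * ((t + 1 : ℕ) : ℝ)) * 288) + 1)) + 1)))) * (2 * 2) ≤
      3 / 16 * ((10 ^ 9 * 4 ^ (ell + 1) * (t + 1) ^ 19 : ℕ) : ℝ) := by
  obtain ⟨T, hT⟩ : ∃ T : ℝ, T = (t : ℝ) + 1 := ⟨_, rfl⟩
  obtain ⟨P, hP⟩ : ∃ P : ℝ, P = 4 ^ (ell + 1) := ⟨_, rfl⟩
  have hT1 : 1 ≤ T := by rw [hT]; have : (0 : ℝ) ≤ t := Nat.cast_nonneg t; linarith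
  have hP1 : 1 ≤ P := by rw [hP]; exact one_le_pow₀ (by norm_num)
  have hL : (L : ℝ) + 1 ≤ T := by
    rw [hT]
    have : (L : ℝ) ≤ t := by exact_mod_cast hLt
    linarith
  push_cast
  rw [← hT, ← hP]
  have hL0 : (0 : ℝ) ≤ (L : ℝ) + 1 := by positivity
  have h18 : ((L : ℝ) + 1) ^ 18 ≤ T ^ 18 := pow_le_pow_left₀ hL0 hL 18
  have hT18 : 0 ≤ T ^ 18 := by positivity
  have hin : ((1 + 5 * T) * 288) + 1 ≤ 1729 * T := by linarith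
  have hmul : ((L : ℝ) + 1) ^ 18 * (((1 + 5 * T) * 288) + 1) ≤ T ^ 18 * (1729 * T) :=
    mul_le_mul h18 hin (by positivity) hT18
  have hT19 : T ^ 18 * (1729 * T) = 1729 * T ^ 19 := by ring
  rw [hT19] at hmul
  have h1 : P * (((L : ℝ) + 1) ^ 18 * (((1 + 5 * T) * 288) + 1)) ≤ P * (1729 * T ^ 19) :=
    mul_le_mul_of_nonneg_left hmul (by linarith)
  have hPT : 1 ≤ P * T ^ 19 := one_le_mul_of_one_le_of_one_le hP1 (one_le_pow₀ hT1)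
  nlinarith

/-- the case `k = 4 q + 1` -/
theorem window_one {k q Q : ℤ} (hk : k = 4 * q + 1) (hq : q = Q ∨ q = -Q) (t e C1 : ℕ) (he : 1 ≤ e)
    (hte : e + 9 ≤ t) (h34 : 3 * 4 ^ t ≤ 4 * Q) (hη : (4 : ℤ) ^ (t - e) ≤ 4 ^ t - Q)
    (hC1 : C1 = 10 ^ 9 * 4 ^ (e + 9)) :
    ∃ m, Reach k (t + 1) m 0 ∧ m + 1 ≤ 9 * C1 * (t + 1) ^ 20 := by
  obtain ⟨L, hL⟩ : ∃ L : ℕ, t = L + 8 + e := ⟨t - 8 - e, by omega⟩
  have hL1 : 1 ≤ L := by omega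
  have p4 : (4 : ℤ) ≤ 4 ^ L := by
    calc (4 : ℤ) = 4 ^ 1 := by norm_num
      _ ≤ 4 ^ L := pow_le_pow_right₀ (by norm_num) hL1
  have e1 : (4 : ℤ) ^ (t - e) = 65536 * 4 ^ L := by
    have : t - e = L + 8 := by omega
    rw [this, pow_add]; norm_num; ring
  have e2 : 4 * (4 : ℤ) ^ (t - e) ≤ 4 ^ t := by
    have h1 : (4 : ℤ) ^ (t - e + 1) ≤ 4 ^ t := pow_le_pow_right₀ (by norm_num) (by omega)
    rw [pow_succ] at h1
    linarith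
  obtain ⟨n, hn⟩ : ∃ n : ℕ, n = 4 ^ (L + 6) := ⟨_, rfl⟩
  have hnZ : (n : ℤ) = 4096 * 4 ^ L := by
    rw [hn]; push_cast; rw [pow_add]; norm_num; ring
  obtain ⟨a0, ha0⟩ : ∃ a0 : ℤ, a0 = (3 - Q) / 3 := ⟨_, rfl⟩
  obtain ⟨b0, hb0⟩ : ∃ b0 : ℤ, b0 = (4 ^ t + 1 - 2 * Q) / 3 := ⟨_, rfl⟩
  have ha : 1 ≤ 3 * a0 + Q := by omega
  have ha' : 3 * a0 + Q ≤ 3 := by omega
  have hb : 4 ^ t - 1 ≤ 3 * b0 + 2 * Q := by omega
  have hb' : 3 * b0 + 2 * Q ≤ 4 ^ t + 1 := by omega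
  obtain ⟨Kf, hKf⟩ := exists_fam (n := n) hq (by omega) h34 (by omega) ha ha' hb hb'
  have hQ0 : 0 ≤ Q := by omega
  obtain ⟨K, hK⟩ : ∃ K : ℕ, K = 10 ^ 9 * 4 ^ (8 + e + 1) * (t + 1) ^ 19 := ⟨_, rfl⟩
  have hmain := reach_supp (t := t) (L := L) hk Kf hKf (by
      have : (3 : ℤ) ≤ n := by omega
      exact_mod_cast this) h34 (by omega) ha ha' hb hb' (by omega)
    (by omega)
    (by
      have h1 : (n : ℝ) = 4096 * 4 ^ L := by exact_mod_cast hnZ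
      have h2 : (0 : ℝ) ≤ 4 ^ L := by positivity
      rw [h1]; linarith)
    (by rcases hq with h | h <;> omega) (by rcases hq with h | h <;> omega) (8 + e)
    (by
      rw [← pow_add]
      exact pow_le_pow_right₀ (by norm_num) (by omega))
    K (by rw [hK]; exact const_le L t (8 + e) (by omega)) 0 (by omega) (by omega)
  obtain ⟨m, hm, hR⟩ := hmain
  have hlog : Nat.log 2 (4 * (b0 + Q) - 1 - (4 * a0 - 1)).toNat ≤ 2 * t + 3 := by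
    have h1 : (4 * (b0 + Q) - 1 - (4 * a0 - 1)).toNat ≤ 2 ^ (2 * t + 3) := by
      have h2 : (4 * (b0 + Q) - 1 - (4 * a0 - 1)) ≤ ((2 ^ (2 * t + 3) : ℕ) : ℤ) := by
        push_cast
        rw [pow_add, pow_mul]
        norm_num
        omega
      omega
    calc Nat.log 2 (4 * (b0 + Q) - 1 - (4 * a0 - 1)).toNat ≤ Nat.log 2 (2 ^ (2 * t + 3)) :=
          Nat.log_mono_right h1
      _ = 2 * t + 3 := Nat.log_pow (by norm_num) _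
  have hK2 : K = C1 * (t + 1) ^ 19 := by
    rw [hK, hC1, show 8 + e + 1 = e + 9 by ring]
  have hC1p : 1 ≤ C1 := by
    rw [hC1]
    exact Nat.mul_pos (by norm_num) (pow_pos (by norm_num) _)
  clear hK hC1
  have h1 : Nat.log 2 (4 * (b0 + Q) - 1 - (4 * a0 - 1)).toNat + 1 ≤ 4 * (t + 1) := by omega
  have h2 : 2 * K * (Nat.log 2 (4 * (b0 + Q) - 1 - (4 * a0 - 1)).toNat + 1) ≤
      2 * K * (4 * (t + 1)) := Nat.mul_le_mul_left _ h1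
  have h3 : 2 * K * (4 * (t + 1)) = 8 * (C1 * (t + 1) ^ 20) := by
    rw [hK2]
    ring
  have h4 : 1 ≤ C1 * (t + 1) ^ 20 := Nat.mul_pos hC1p (pow_pos (by omega) _)
  have h5 : 9 * C1 * (t + 1) ^ 20 = 8 * (C1 * (t + 1) ^ 20) + C1 * (t + 1) ^ 20 := by ring
  refine ⟨m, hR, ?_⟩
  rw [h5, ← h3]
  exact Nat.add_le_add (hm.trans h2) h4

/-- WINDOW. Every odd `k` with `3 * 4^t ≤ |k| ≤ (4 - 8/4^e) * 4^t`, `t ≥ e + 9`, has a multiplier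
`m ≤ 4^(C t^20)`. -/
theorem win (e C1 : ℕ) (he : 1 ≤ e) (hC1 : C1 = 10 ^ 9 * 4 ^ (e + 9)) :
    Win (9 * C1 * 2 ^ 20) 20 (e + 9) 3 1 (4 ^ (e + 1) - 8) (4 ^ e) := by
  intro k hk t ht h3 h4
  rw [one_mul] at h3
  -- reduction to `k = 1 mod 4`
  have key : ∀ k : ℤ, k % 4 = 1 → 3 * 4 ^ t ≤ |k| → 4 ^ e * |k| ≤ (4 ^ (e + 1) - 8) * 4 ^ t →
      ∃ m : ℤ, IsMultiplier k m ∧ m ≤ 4 ^ (9 * C1 * 2 ^ 20 * t ^ 20) := by
    clear h3 h4 hk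
    intro k hk1 h3 h4
    obtain ⟨q, hq⟩ : ∃ q : ℤ, k = 4 * q + 1 := ⟨k / 4, by omega⟩
    obtain ⟨Q, hQ⟩ : ∃ Q : ℤ, Q = |q| := ⟨_, rfl⟩
    have hqQ : q = Q ∨ q = -Q := by
      rcases abs_choice q with h | h
      · left; rw [hQ, h]
      · right; rw [hQ, h]; ring
    have hkQ : |k| = 4 * Q + 1 ∨ |k| = 4 * Q - 1 := by
      have hQ0 : 0 ≤ Q := by rw [hQ]; exact abs_nonneg q
      have hk0 := abs_nonneg k
      clear h3 h4 hQ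
      rcases abs_choice k with h | h <;> rcases hqQ with h' | h' <;> rw [h] at hk0 ⊢ <;> omega
    have hpt : (4 : ℤ) ^ t = 4 * 4 ^ (t - 1) := by
      rw [← pow_succ']; congr 1; omega
    have h34 : 3 * 4 ^ t ≤ 4 * Q := by
      clear h4 hQ
      omega
    have hpe : (4 : ℤ) ^ t = 4 ^ e * 4 ^ (t - e) := by
      rw [← pow_add]; congr 1; omega
    have hpe0 : (0 : ℤ) < 4 ^ e := by positivity
    have hk4 : |k| ≤ 4 * 4 ^ t - 8 * 4 ^ (t - e) := by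
      have h5 : 4 ^ e * |k| ≤ 4 ^ e * (4 * 4 ^ t - 8 * 4 ^ (t - e)) := by
        refine h4.trans (le_of_eq ?_)
        rw [hpe, pow_succ]
        ring
      exact le_of_mul_le_mul_left h5 hpe0
    have hte : (1 : ℤ) ≤ 4 ^ (t - e) := one_le_pow₀ (by norm_num)
    obtain ⟨m, hR, hm⟩ := window_one hq hqQ t e C1 he ht h34 (by
      clear h4 hQ hpe hpt
      omega) hC1
    obtain ⟨m', hm', hb⟩ := hR.multiplier
    refine ⟨m', hm', ?_⟩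
    have h6 : m' ≤ 4 ^ (m + 1) := by
      have := hm'.1
      linarith
    refine h6.trans (pow_le_pow_right₀ (by norm_num) (hm.trans ?_))
    have h7 : (t + 1) ^ 20 ≤ (2 * t) ^ 20 := Nat.pow_le_pow_left (by omega) 20
    calc 9 * C1 * (t + 1) ^ 20 ≤ 9 * C1 * (2 * t) ^ 20 := Nat.mul_le_mul_left _ h7
      _ = 9 * C1 * 2 ^ 20 * t ^ 20 := by rw [mul_pow, ← mul_assoc]
  have hodd : k % 4 = 1 ∨ (-k) % 4 = 1 := by
    obtain ⟨j, hj⟩ := hk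
    omega
  rcases hodd with h | h
  · exact key k h h3 h4
  · obtain ⟨m, ⟨hm1, hm2, hm3⟩, hb⟩ := key (-k) h (by rw [abs_neg]; exact h3)
      (by rw [abs_neg]; exact h4)
    refine ⟨m, ⟨hm1, hm2, ?_⟩, hb⟩
    have := L_neg hm3
    simpa using this

end H91RP
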