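import Pool.Agent.H91.RP.Main2
import Pool.Agent.H91.RP.Window

/-!
Team RP (MP_a57ff3_nt), helper91. The closed window `3 ≤ |k|/4^t ≤ 4`.
-/

set_option autoImplicit false

namespace H91RP

open Finset H54RP Pool.Agent.H6.LvdP2 Pool.Agent.H6.LvdP3 Pool.Agent.H98.LvdP

theorem exists_fam2 {q N Q a0 b0 : ℤ} {n : ℕ} (hq : q = Q ∨ q = -Q) (hN : 1 ≤ N)
    (h34 : 3 * N ≤ 4 * Q)
    (hn : 15 * (n : ℤ) + 10 ≤ N - Q) (ha : 1 ≤ 3 * a0 + Q) (ha' : 3 * a0 + Q ≤ 3)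
    (hb : N - 1 ≤ 3 * b0 + 2 * Q) (hb' : 3 * b0 + 2 * Q ≤ N + 1) :
    ∃ Kf : Fin (n + 1) → Ker q N, ∃ mo : Lt → ℝ,
      (∀ g : Fin (n + 1), Nice (Kf g) Q (a0 + (g : ℕ)) (b0 - (g : ℕ))) ∧
      ∀ g : Fin (n + 1), Mid (Kf g) mo (b0 + N - Q) (a0 + 2 * Q - N) := by
  have h0 : ∀ g : Fin (n + 1), (0 : ℤ) ≤ (g : ℕ) := fun g => by positivity
  rcases hq with rfl | rfl
  · refine ⟨fun g => pair (pc_of hN h34 hn ha ha' hb hb' g), moP, fun g => nice_pair _,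
      fun g => (mid_pair _).mono ?_ ?_⟩
    · have := h0 g; omega
    · have := h0 g; omega
  · refine ⟨fun g => (pair (pc_of hN h34 hn ha ha' hb hb' g)).rev, fun v => moP (2 - v.1, v.2),
      fun g => (nice_pair _).rev, fun g => ((mid_pair _).mono ?_ ?_).rev⟩
    · have := h0 g; omega
    · have := h0 g; omega

/-- the case `k = 4 q + 1`, `N - Q ≥ 1000` -/
theorem window_two {k q Q : ℤ} (hk : k = 4 * q + 1) (hq : q = Q ∨ q = -Q) (t C1 : ℕ)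
    (ht : 20 ≤ t) (h34 : 3 * 4 ^ t ≤ 4 * Q) (hD : 1000 ≤ 4 ^ t - Q)
    (hC1 : C1 = 10 ^ 9 * 4 ^ 12) :
    ∃ m, Reach k (t + 1) m 0 ∧ m + 1 ≤ 9 * C1 * (t + 1) ^ 20 := by
  obtain ⟨L, hL⟩ : ∃ L : ℕ, t = L + 11 := ⟨t - 11, by omega⟩
  have p4 : (1 : ℤ) ≤ 4 ^ L := one_le_pow₀ (by norm_num)
  have e1 : (4 : ℤ) ^ t = 4194304 * 4 ^ L := by
    rw [hL, pow_add]; norm_num; ring
  obtain ⟨n, hn⟩ : ∃ n : ℕ, (n : ℤ) = (4 ^ t - Q - 10) / 15 :=
    ⟨((4 ^ t - Q - 10) / 15).toNat, by omega⟩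
  obtain ⟨a0, ha0⟩ : ∃ a0 : ℤ, a0 = (3 - Q) / 3 := ⟨_, rfl⟩
  obtain ⟨b0, hb0⟩ : ∃ b0 : ℤ, b0 = (4 ^ t + 1 - 2 * Q) / 3 := ⟨_, rfl⟩
  have ha : 1 ≤ 3 * a0 + Q := by omega
  have ha' : 3 * a0 + Q ≤ 3 := by omega
  have hb : 4 ^ t - 1 ≤ 3 * b0 + 2 * Q := by omega
  have hb' : 3 * b0 + 2 * Q ≤ 4 ^ t + 1 := by omega
  obtain ⟨Kf, mo, hKf, hM⟩ := exists_fam2 (n := n) hq (by omega) h34 (by omega) ha ha' hb hb'
  have hQ0 : 0 ≤ Q := by omega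
  obtain ⟨K, hK⟩ : ∃ K : ℕ, K = 10 ^ 9 * 4 ^ (11 + 1) * (t + 1) ^ 19 := ⟨_, rfl⟩
  have hmain := reach_supp2 (t := t) (L := L) hk Kf hKf mo hM (by
      have : (3 : ℤ) ≤ n := by omega
      exact_mod_cast this) h34 (by omega) ha ha' hb hb' (by omega)
    (by omega) (by omega) (by omega)
    (by rcases hq with h | h <;> omega) (by rcases hq with h | h <;> omega) 11
    (by
      rw [← pow_add]
      exact pow_le_pow_right₀ (by norm_num) (by omega))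
    K (by rw [hK]; exact const_le L t 11 (by omega)) 0 (by omega) (by omega)
  obtain ⟨m, hm, hR⟩ := hmain
  have hlog : Nat.log 2 (4 * (b0 + Q) - 1 - (4 * a0 - 1)).toNat ≤ 2 * t + 3 := by
    have h1 : (4 * (b0 + Q) - 1 - (4 * a0 - 1)).toNat ≤ 2 ^ (2 * t + 3) := by
      have h2 : (4 * (b0 + Q) - 1 - (4 * a0 - 1)) ≤ ((2 ^ (2 * t + 3) : ℕ) : ℤ) := by
        push_cast
        rw [pow_add, pow_mul]
        norm_num
        omega
      omega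
    calc Nat.log 2 (4 * (b0 + Q) - 1 - (4 * a0 - 1)).toNat ≤ Nat.log 2 (2 ^ (2 * t + 3)) :=
          Nat.log_mono_right h1
      _ = 2 * t + 3 := Nat.log_pow (by norm_num) _
  have hK2 : K = C1 * (t + 1) ^ 19 := by
    rw [hK, hC1]
  have hC1p : 1 ≤ C1 := by
    rw [hC1]
    exact Nat.mul_pos (by norm_num) (pow_pos (by norm_num) _)
  clear hK hC1
  have h1 : Nat.log 2 (4 * (b0 + Q) - 1 - (4 * a0 - 1)).toNat + 1 ≤ 4 * (t + 1) := by omega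
  have h2 : 2 * K * (Nat.log 2 (4 * (b0 + Q) - 1 - (4 * a0 - 1)).toNat + 1) ≤
      2 * K * (4 * (t + 1)) := Nat.mul_le_mul_left _ h1
  have h3 : 2 * K * (4 * (t + 1)) = 8 * (C1 * (t + 1) ^ 20) := by
    rw [hK2]
    ring
  have h4 : 1 ≤ C1 * (t + 1) ^ 20 := Nat.mul_pos hC1p (pow_pos (by omega) _)
  have h5 : 9 * C1 * (t + 1) ^ 20 = 8 * (C1 * (t + 1) ^ 20) + C1 * (t + 1) ^ 20 := by ring
  refine ⟨m, hR, ?_⟩
  rw [h5, ← h3]
  exact Nat.add_le_add (hm.trans h2) h4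

/-- `|k| = 4^(t+1) - r` with a bounded odd `r` -/
theorem near_power {k r : ℤ} {t : ℕ} (hr : Odd r) (hr0 : 0 ≤ r) (hr1 : r ≤ 8192) (ht : 140 ≤ t)
    (hk : k = 4 ^ (t + 1) - r) : ∃ m : ℤ, IsMultiplier k m ∧ m ≤ 4 ^ 127 := by
  obtain ⟨m, ⟨hm0, hmL, hrm⟩, hb⟩ := exists_multiplier hr (r := 6)
    (by rw [abs_of_nonneg hr0]; linarith)
  norm_num at hb
  refine ⟨m, ⟨hm0, hmL, ?_⟩, by norm_num; omega⟩
  obtain ⟨a, b, ha, hbL, he⟩ := L_split (t + 1) hrm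
  have hp : (4 : ℤ) ^ 141 ≤ 4 ^ (t + 1) := pow_le_pow_right₀ (by norm_num) (by omega)
  have hbd := Dig_bound ha
  have hb0 : b = 0 := by
    have h1 : r * m ≤ 8192 * m := mul_le_mul_of_nonneg_right hr1 hm0.le
    have h2 : 0 ≤ r * m := mul_nonneg hr0 hm0.le
    norm_num at hp
    by_contra hne
    rcases lt_or_gt_of_ne hne with hlt | hgt
    · have : (4 : ℤ) ^ (t + 1) * b ≤ 4 ^ (t + 1) * (-1) :=
        mul_le_mul_of_nonneg_left (by omega) (by positivity)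
      omega
    · have : (4 : ℤ) ^ (t + 1) * 1 ≤ 4 ^ (t + 1) * b :=
        mul_le_mul_of_nonneg_left (by omega) (by positivity)
      omega
  have he' : r * m = a := by rw [he, hb0]; ring
  have : k * m = -(a) + 4 ^ (t + 1) * m := by rw [hk, ← he']; ring
  rw [this]
  exact L_append (Dig_neg ha) hmL

/-- WINDOW. Every odd `k` with `3 * 4^t ≤ |k| ≤ 4 * 4^t`, `t ≥ 140`, has a multiplier
`m ≤ 4^(C t^20)`. -/
theorem win34 (C1 : ℕ) (hC1 : C1 = 10 ^ 9 * 4 ^ 12) : Win (9 * C1 * 2 ^ 20) 20 140 3 1 4 1 := by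
  intro k hk t ht h3 h4
  rw [one_mul] at h3 h4
  have hpt : (4 : ℤ) ^ t = 4 * 4 ^ (t - 1) := by
    rw [← pow_succ']; congr 1; omega
  have hC1p : 1 ≤ C1 := by
    rw [hC1]
    exact Nat.mul_pos (by norm_num) (pow_pos (by norm_num) _)
  -- reduction to `k = 1 mod 4`
  have key : ∀ k : ℤ, k % 4 = 1 → 3 * 4 ^ t ≤ |k| → |k| ≤ 4 * 4 ^ t →
      ∃ m : ℤ, IsMultiplier k m ∧ m ≤ 4 ^ (9 * C1 * 2 ^ 20 * t ^ 20) := by
    clear h3 h4 hk
    intro k hk1 h3 h4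
    obtain ⟨q, hq⟩ : ∃ q : ℤ, k = 4 * q + 1 := ⟨k / 4, by omega⟩
    obtain ⟨Q, hQ⟩ : ∃ Q : ℤ, Q = |q| := ⟨_, rfl⟩
    have hqQ : q = Q ∨ q = -Q := by
      rcases abs_choice q with h | h
      · left; rw [hQ, h]
      · right; rw [hQ, h]; ring
    have hkQ : |k| = 4 * Q + 1 ∨ |k| = 4 * Q - 1 := by
      have hQ0 : 0 ≤ Q := by rw [hQ]; exact abs_nonneg q
      have hk0 := abs_nonneg k
      clear h3 h4 hQ
      rcases abs_choice k with h | h <;> rcases hqQ with h' | h' <;> rw [h] at hk0 ⊢ <;> omega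
    by_cases hD : 1000 ≤ 4 ^ t - Q
    · have h34 : 3 * 4 ^ t ≤ 4 * Q := by
        clear h4 hQ
        omega
      obtain ⟨m, hR, hm⟩ := window_two hq hqQ t C1 (by omega) h34 hD hC1
      obtain ⟨m', hm', hb⟩ := hR.multiplier
      refine ⟨m', hm', ?_⟩
      have h6 : m' ≤ 4 ^ (m + 1) := by
        have := hm'.1
        linarith
      refine h6.trans (pow_le_pow_right₀ (by norm_num) (hm.trans ?_))
      have h7 : (t + 1) ^ 20 ≤ (2 * t) ^ 20 := Nat.pow_le_pow_left (by omega) 20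
      calc 9 * C1 * (t + 1) ^ 20 ≤ 9 * C1 * (2 * t) ^ 20 := Nat.mul_le_mul_left _ h7
        _ = 9 * C1 * 2 ^ 20 * t ^ 20 := by rw [mul_pow, ← mul_assoc]
    · push Not at hD
      have hpt1 : (4 : ℤ) ^ (t + 1) = 4 * 4 ^ t := by rw [pow_succ']
      obtain ⟨r, hr⟩ : ∃ r : ℤ, r = 4 ^ (t + 1) - |k| := ⟨_, rfl⟩
      have hr0 : 0 ≤ r := by rw [hr, hpt1]; linarith
      have hr1 : r ≤ 8192 := by
        clear hQ
        rw [hr, hpt1]
        omega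
      have hrodd : Odd r := by
        rw [Int.odd_iff]
        clear hQ
        rw [hr, hpt1]
        omega
      obtain ⟨m, hm, hb⟩ := near_power (t := t) hrodd hr0 hr1 ht
        (show |k| = 4 ^ (t + 1) - r by rw [hr]; ring)
      have hm' : IsMultiplier k m := by
        rcases abs_choice k with h | h
        · rwa [h] at hm
        · rw [h] at hm
          exact isMultiplier_neg hm
      refine ⟨m, hm', hb.trans (pow_le_pow_right₀ (by norm_num) ?_)⟩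
      have h8 : 1 ≤ 9 * C1 * 2 ^ 20 := Nat.mul_pos (Nat.mul_pos (by norm_num) hC1p) (by norm_num)
      have h9 : t ≤ t ^ 20 := Nat.le_self_pow (by norm_num) t
      calc 127 ≤ 1 * t := by omega
        _ ≤ 9 * C1 * 2 ^ 20 * t ^ 20 := Nat.mul_le_mul h8 h9
  have hodd : k % 4 = 1 ∨ (-k) % 4 = 1 := by
    obtain ⟨j, hj⟩ := hk
    omega
  rcases hodd with h | h
  · exact key k h h3 h4
  · obtain ⟨m, hm, hb⟩ := key (-k) h (by rw [abs_neg]; exact h3) (by rw [abs_neg]; exact h4)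
    exact ⟨m, isMultiplier_neg hm, hb⟩

end H91RP
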