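import Pool.Agent.H91.RP.Iter2
import Pool.Agent.H54.RP.Assemble

/-!
Team RP (MP_a57ff3_nt). The assembly of helper54 (`Pool.Agent.H54.RP.Assemble`) with the safe landing
estimate as a hypothesis and with a general margin.
-/

set_option autoImplicit false

namespace H91RP

open Finset H54RP

variable {ι : Type*} [Fintype ι] {c : ι → ℤ} {γ : Type*}

open Classical in
/-- the growth inequality -/
theorem growth_step2 (D : LFam c γ) (Gall : Finset γ) (hGG : D.G ⊆ Gall) (hG : 0 < D.G.card)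
    (g0 : γ) (hg0 : g0 ∈ Gall) (A B cm : ℤ) (hcm : 1 ≤ cm) (p wM : ℝ) (hp : 0 < p) (hp1 : 2 * p ≤ 1)
    (hwM : 1 ≤ wM) (r : ℕ) (hr : 2 ≤ r)
    (hw1 : ∀ g ∈ D.G, ∀ X ∈ Icc A B, 1 ≤ (D.F g).w X)
    (hw2 : ∀ g ∈ Gall, ∀ X, (D.F g).w X ≤ wM)
    (κ : ℕ) (hκ : 8 * wM ≤ p * (4 / 3 : ℝ) ^ κ)
    (L : ℕ)
    (hsafe : ∀ L1 M : ℕ, r ≤ L1 → L1 + M ≤ L → ∀ X, A + cm * 4 ^ (L1 + M) ≤ X →
      X ≤ B - cm * 4 ^ (L1 + M) → p * D.G.card * 4 ^ L1 ≤ ∑ g ∈ D.G, ∑ i ∈ range (4 ^ L1),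
        Fl (D.F g) (chi (D.F g) (4 ^ M))
          (ind (A + cm * 4 ^ (L1 + M)) (B - cm * 4 ^ (L1 + M))) L1 (X + (i : ℕ)))
    (hAB : A + (2 * cm + 1) * 4 ^ L ≤ B) (R : ℝ) (hR : 1 ≤ R) (hlen : ((B : ℝ) - A) ≤ R * 4 ^ L)
    -- base case
    (Cb : ℝ) (hCb : 0 ≤ Cb)
    (base : ∀ f : ℤ → ℝ, (∀ X, f X = 0 ∨ f X = 1) → ∀ E : ℝ, (∀ g ∈ Gall, (D.F g).E1 f ≤ E) →
      vr f A B 1 ≤ Cb * E)
    -- link
    (CC : Finset ℤ) (Cl : ℝ) (hCl : 0 ≤ Cl)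
    (link : ∀ f : ℤ → ℝ, (∀ X, f X = 0 ∨ f X = 1) → ∀ e : ℝ, (e = 0 ∨ e = 1) → ∀ E : ℝ,
      (∀ g ∈ Gall, (D.F g).E1 f ≤ E) →
      ∑ X ∈ CC, |f X - e| ≤
        Cl * (∑ X ∈ Icc (A + cm * 4 ^ L) (B - (cm + 1) * 4 ^ L), |f X - e| + E))
    -- hitting
    (S0 : Finset ℤ) (hS0 : S0 ⊆ (D.F g0).supp) (hS0w : ∀ X ∈ S0, 1 ≤ (D.F g0).w X)
    (m : ℕ) (q : ℝ) (hq0 : 0 < q) (hq : ∀ X ∈ S0, q ≤ eta (D.F g0) (fun Y => Y ∈ CC) m X)
    -- one growth step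
    (U U' : Set ℤ) (hUU : U ⊆ U')
    (hstep : ∀ X ∈ U, ∀ g ∈ Gall, ∀ v, (D.F g).W X v ≠ 0 → T c v X ∈ U')
    (hcl : ∀ g ∈ Gall, ∀ X ∈ (D.F g).supp, X ∈ U' → X ∈ S0)
    (K : ℝ) (hK : (m + (m + 1) * (wM * (Cl * (16 * R * (4 ^ (2 * r) * (L + 1) ^ κ * (Cb + 1)) + 1)))) *
      (2 * wM) ≤ q * K) :
    min ((S0.filter (fun X => X ∈ U)).card : ℝ) ((S0.filter (fun X => X ∉ U)).card : ℝ) ≤
      K * ((S0.filter (fun Y => Y ∈ U' ∧ Y ∉ U)).card : ℝ) := by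
  set f : ℤ → ℝ := fun X => if X ∈ U then 1 else 0 with hf
  have hf01 : ∀ X, f X = 0 ∨ f X = 1 := fun X => by
    simp only [hf]; split_ifs <;> simp
  set Δ : ℝ := ((S0.filter (fun Y => Y ∈ U' ∧ Y ∉ U)).card : ℝ) with hΔ
  have hΔ0 : 0 ≤ Δ := Nat.cast_nonneg _
  have hwM0 : 0 ≤ wM := by linarith
  set E : ℝ := 2 * wM * Δ with hE
  have hE0 : 0 ≤ E := by positivity
  have hEg : ∀ g ∈ Gall, (D.F g).E1 f ≤ E := fun g hg =>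
    E1_ind_le_card (D.F g) U U' hUU (fun X hX v hv => hstep X hX g hg v hv) wM (hw2 g hg) hwM0 S0
      (hcl g hg)
  have hvr := base f hf01 E hEg
  have hD := iter2 D hG f r hr A B cm hcm p wM E hp hp1 hwM hE0 (fun g hg => hEg g (hGG hg)) hw1
    (fun g hg => hw2 g (hGG hg)) κ hκ L hsafe L le_rfl
  have h4L : (0 : ℤ) < 4 ^ L := by positivity
  have h4LR : (0 : ℝ) < 4 ^ L := by positivity
  have hcm4 : (0 : ℝ) ≤ (cm : ℝ) * 4 ^ L := by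
    have : (1 : ℝ) ≤ (cm : ℝ) := by exact_mod_cast hcm
    positivity
  obtain ⟨e, he, hmaj⟩ := major f hf01 (A + cm * 4 ^ L) (B - cm * 4 ^ L) (4 ^ L)
    (Nat.one_le_pow _ _ (by norm_num)) (by push_cast; linarith) R hR (by push_cast; linarith)
  have hb : B - cm * 4 ^ L - ((4 ^ L : ℕ) : ℤ) = B - (cm + 1) * 4 ^ L := by push_cast; ring
  rw [hb] at hmaj
  set Z : ℝ := 4 ^ (2 * r) * (L + 1) ^ κ * (Cb + 1) with hZ
  have hZ0 : 0 ≤ Z := by positivity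
  have hD' : Ds f (A + cm * 4 ^ L) (B - cm * 4 ^ L) (4 ^ L) ≤ 4 ^ L * (Z * E) := by
    refine hD.trans (mul_le_mul_of_nonneg_left ?_ h4LR.le)
    calc (4 : ℝ) ^ (2 * r) * (L + 1) ^ κ * (vr f A B 1 + E) ≤
          4 ^ (2 * r) * (L + 1) ^ κ * ((Cb + 1) * E) :=
          mul_le_mul_of_nonneg_left (by linarith) (by positivity)
      _ = Z * E := by rw [hZ]; ring
  have hminor : ∑ X ∈ Icc (A + cm * 4 ^ L) (B - (cm + 1) * 4 ^ L), |f X - e| ≤ 16 * R * Z * E := by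
    have e1 : ∑ X ∈ Icc (A + cm * 4 ^ L) (B - (cm + 1) * 4 ^ L), |f X - e| =
        (((Icc (A + cm * 4 ^ L) (B - (cm + 1) * 4 ^ L)).filter fun X => f X ≠ e).card : ℝ) := by
      rw [card_filter, Nat.cast_sum]
      refine sum_congr rfl fun X _ => ?_
      rcases hf01 X with h | h <;> rcases he with h' | h' <;> rw [h, h'] <;> simp
    rw [e1]
    have h1 : (4 : ℝ) ^ L * (((Icc (A + cm * 4 ^ L) (B - (cm + 1) * 4 ^ L)).filter fun X => f X ≠ e).card : ℝ)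
        ≤ 4 ^ L * (16 * R * Z * E) := by
      have hmaj' := hmaj
      push_cast at hmaj'
      refine hmaj'.trans ?_
      calc 16 * R * Ds f (A + cm * 4 ^ L) (B - cm * 4 ^ L) (4 ^ L) ≤ 16 * R * (4 ^ L * (Z * E)) :=
            mul_le_mul_of_nonneg_left hD' (by linarith)
        _ = _ := by ring
    exact le_of_mul_le_mul_left h1 h4LR
  have hlink := link f hf01 e he E hEg
  have hlink' : ∑ X ∈ (D.F g0).supp.filter (fun Y => Y ∈ CC), |f X - e| ≤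
      Cl * ((16 * R * Z + 1) * E) := by
    refine le_trans ?_ (hlink.trans (mul_le_mul_of_nonneg_left ?_ hCl))
    · exact sum_le_sum_of_subset_of_nonneg (fun Y hY => (mem_filter.1 hY).2)
        fun _ _ _ => abs_nonneg _
    · linarith
  have hhit0 := hit_set (D.F g0) (fun Y => Y ∈ CC) f e m S0 hS0 1 wM q zero_le_one (hw2 g0 hg0)
    hS0w hq0.le hq
  rw [one_mul] at hhit0
  have hhit : q * ∑ X ∈ S0, |f X - e| ≤ m * (D.F g0).E1 f +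
      (m + 1) * (wM * ∑ X ∈ (D.F g0).supp.filter (fun Y => Y ∈ CC), |f X - e|) := by
    convert hhit0
  have hm0 : (0 : ℝ) ≤ m := Nat.cast_nonneg m
  have htot : q * ∑ X ∈ S0, |f X - e| ≤ q * (K * Δ) := by
    refine hhit.trans ?_
    have h1 : (m : ℝ) * (D.F g0).E1 f ≤ m * E := mul_le_mul_of_nonneg_left (hEg g0 hg0) hm0
    have h2 : ((m : ℝ) + 1) * (wM * ∑ X ∈ (D.F g0).supp.filter (fun Y => Y ∈ CC), |f X - e|) ≤
        (m + 1) * (wM * (Cl * ((16 * R * Z + 1) * E))) :=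
      mul_le_mul_of_nonneg_left (mul_le_mul_of_nonneg_left hlink' hwM0) (by linarith)
    have h3 : (m : ℝ) * E + (m + 1) * (wM * (Cl * ((16 * R * Z + 1) * E))) =
        (m + (m + 1) * (wM * (Cl * (16 * R * Z + 1)))) * (2 * wM) * Δ := by rw [hE]; ring
    have h4 : (m + (m + 1) * (wM * (Cl * (16 * R * Z + 1)))) * (2 * wM) * Δ ≤ q * K * Δ :=
      mul_le_mul_of_nonneg_right hK hΔ0
    calc _ ≤ (m : ℝ) * E + (m + 1) * (wM * (Cl * ((16 * R * Z + 1) * E))) := add_le_add h1 h2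
      _ ≤ q * K * Δ := by rw [h3]; exact h4
      _ = q * (K * Δ) := by ring
  have htot' : ∑ X ∈ S0, |f X - e| ≤ K * Δ := le_of_mul_le_mul_left htot hq0
  rcases he with he | he
  · refine (min_le_left _ _).trans (le_trans (le_of_eq ?_) htot')
    rw [card_filter, Nat.cast_sum]
    refine sum_congr rfl fun X _ => ?_
    by_cases hX : X ∈ U <;> simp [hf, he, hX]
  · refine (min_le_right _ _).trans (le_trans (le_of_eq ?_) htot')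
    rw [card_filter, Nat.cast_sum]
    refine sum_congr rfl fun X _ => ?_
    by_cases hX : X ∈ U <;> simp [hf, he, hX]

/-- everything is reached -/
theorem reach_core2 (D : LFam c γ) (Gall : Finset γ) (hGG : D.G ⊆ Gall) (hG : 0 < D.G.card)
    (g0 : γ) (hg0 : g0 ∈ Gall) (A B cm : ℤ) (hcm : 1 ≤ cm) (p wM : ℝ) (hp : 0 < p) (hp1 : 2 * p ≤ 1)
    (hwM : 1 ≤ wM) (r : ℕ) (hr : 2 ≤ r)
    (hw1 : ∀ g ∈ D.G, ∀ X ∈ Icc A B, 1 ≤ (D.F g).w X)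
    (hw2 : ∀ g ∈ Gall, ∀ X, (D.F g).w X ≤ wM)
    (κ : ℕ) (hκ : 8 * wM ≤ p * (4 / 3 : ℝ) ^ κ)
    (L : ℕ)
    (hsafe : ∀ L1 M : ℕ, r ≤ L1 → L1 + M ≤ L → ∀ X, A + cm * 4 ^ (L1 + M) ≤ X →
      X ≤ B - cm * 4 ^ (L1 + M) → p * D.G.card * 4 ^ L1 ≤ ∑ g ∈ D.G, ∑ i ∈ range (4 ^ L1),
        Fl (D.F g) (chi (D.F g) (4 ^ M))
          (ind (A + cm * 4 ^ (L1 + M)) (B - cm * 4 ^ (L1 + M))) L1 (X + (i : ℕ)))
    (hAB : A + (2 * cm + 1) * 4 ^ L ≤ B) (R : ℝ) (hR : 1 ≤ R) (hlen : ((B : ℝ) - A) ≤ R * 4 ^ L)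
    (Cb : ℝ) (hCb : 0 ≤ Cb)
    (base : ∀ f : ℤ → ℝ, (∀ X, f X = 0 ∨ f X = 1) → ∀ E : ℝ, (∀ g ∈ Gall, (D.F g).E1 f ≤ E) →
      vr f A B 1 ≤ Cb * E)
    (CC : Finset ℤ) (Cl : ℝ) (hCl : 0 ≤ Cl)
    (link : ∀ f : ℤ → ℝ, (∀ X, f X = 0 ∨ f X = 1) → ∀ e : ℝ, (e = 0 ∨ e = 1) → ∀ E : ℝ,
      (∀ g ∈ Gall, (D.F g).E1 f ≤ E) →
      ∑ X ∈ CC, |f X - e| ≤
        Cl * (∑ X ∈ Icc (A + cm * 4 ^ L) (B - (cm + 1) * 4 ^ L), |f X - e| + E))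
    (S0 : Finset ℤ) (hS0 : S0 ⊆ (D.F g0).supp) (hS0w : ∀ X ∈ S0, 1 ≤ (D.F g0).w X)
    (m : ℕ) (q : ℝ) (hq0 : 0 < q) (hq : ∀ X ∈ S0, q ≤ eta (D.F g0) (fun Y => Y ∈ CC) m X)
    (U : ℕ → Set ℤ) (hUU : Monotone U)
    (hstep : ∀ n, ∀ X ∈ U n, ∀ g ∈ Gall, ∀ v, (D.F g).W X v ≠ 0 → T c v X ∈ U (n + 1))
    (hcl : ∀ n, ∀ g ∈ Gall, ∀ X ∈ (D.F g).supp, X ∈ U n → X ∈ S0)
    (h0 : ∃ X ∈ S0, X ∈ U 0)
    (K : ℕ) (hK : (m + (m + 1) * (wM * (Cl * (16 * R * (4 ^ (2 * r) * (L + 1) ^ κ * (Cb + 1)) + 1)))) *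
      (2 * wM) ≤ q * K) :
    ∀ X ∈ S0, X ∈ U (2 * K * (Nat.log 2 S0.card + 1)) := by
  classical
  have hmain := reach_all S0 (fun n => S0.filter fun X => X ∈ U n) K
    (by obtain ⟨X, hX, hU⟩ := h0; exact ⟨X, mem_filter.2 ⟨hX, hU⟩⟩)
    (fun n => filter_subset _ _)
    (fun i j hij X hX => by
      rw [mem_filter] at hX ⊢
      exact ⟨hX.1, hUU hij hX.2⟩)
    (fun n => by
      have h1 := growth_step2 D Gall hGG hG g0 hg0 A B cm hcm p wM hp hp1 hwM r hr hw1 hw2 κ hκ L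
        hsafe hAB R hR hlen Cb hCb base CC Cl hCl link S0 hS0 hS0w m q hq0 hq (U n) (U (n + 1))
        (hUU (Nat.le_succ n)) (hstep n) (hcl (n + 1)) K hK
      have e1 : S0 \ S0.filter (fun X => X ∈ U n) = S0.filter (fun X => X ∉ U n) := by
        ext X; simp only [mem_sdiff, mem_filter]; tauto
      have e2 : S0.filter (fun X => X ∈ U (n + 1)) \ S0.filter (fun X => X ∈ U n) =
          S0.filter (fun Y => Y ∈ U (n + 1) ∧ Y ∉ U n) := by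
        ext X; simp only [mem_sdiff, mem_filter]; tauto
      rw [e1, e2]
      have h2 : ((min (S0.filter (fun X => X ∈ U n)).card (S0.filter (fun X => X ∉ U n)).card : ℕ)
          : ℝ) ≤ ((K * (S0.filter (fun Y => Y ∈ U (n + 1) ∧ Y ∉ U n)).card : ℕ) : ℝ) := by
        push_cast
        convert h1
      exact_mod_cast h2)
  intro X hX
  have : X ∈ S0.filter (fun X => X ∈ U (2 * K * (Nat.log 2 S0.card + 1))) := by
    have h3 : S0.filter (fun X => X ∈ U (2 * K * (Nat.log 2 S0.card + 1))) = S0 := hmain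
    rw [h3]; exact hX
  exact (mem_filter.1 this).2

end H91RP
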