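import Pool.Agent.H91.RP.Vari

/-!
Team RP (MP_a57ff3_nt), helper91, window `3 ≤ |k|/4^t < 4`. The base case: the variation at distance
`1` is bounded by the energies of two labels.
-/

set_option autoImplicit false

namespace H91RP

open Finset H54RP

variable {q N Q a b : ℤ} {K : Ker q N}

theorem W_res (K : Ker q N) (j : ℤ) (r : ℕ) (hr : r < 4) (v : Lt) {g0 m0 : ℝ} (hm0 : 0 ≤ m0)
    (hw : K.w j ≤ 2) (hg : g0 ≤ K.gate v.1 (r : ℕ) j) (hm : m0 ≤ K.m v j) :
    g0 * m0 / 4 ≤ K.flow.W (4 * j - 1 + (r : ℕ)) v := by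
  have e1 : blk (4 * j - 1 + (r : ℕ)) = j := blk_eq j r hr
  have e2 : (4 * j - 1 + (r : ℕ) + 1) % 4 = (r : ℕ) := by omega
  have := K.W_ge (4 * j - 1 + (r : ℕ)) v (g0 := g0) (m0 := m0) hm0 (by rw [e1]; exact hw)
    (by rw [e1, e2]; exact hg) (by rw [e1]; exact hm)
  exact this

/-- sums of the arcs of sign `1` and `-1` -/
theorem arcs_pm (hK : Nice K Q a b) (f : ℤ → ℝ) {E : ℝ} (hE : K.flow.E1 f ≤ E) :
    (∃ c : ℤ, ∑ j ∈ Ico b (a + Q), |f (j + c) - f (4 * j - 1)| ≤ 8 * E ∧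
      ∑ j ∈ Ico b (a + Q), |f (j + c) - f (4 * j)| ≤ 8 * E) ∧
    (∃ c : ℤ, ∑ j ∈ Ico b (a + Q), |f (j + c) - f (4 * j + 1)| ≤ 8 * E ∧
      ∑ j ∈ Ico b (a + Q), |f (j + c) - f (4 * j + 2)| ≤ 8 * E) := by
  constructor
  · obtain ⟨d, hd⟩ := hK.base1 2 (by decide)
    refine ⟨cc q N (2, d), ?_, ?_⟩
    · have h := arc_sum K.flow f hE (Ico b (a + Q)) 0 (by norm_num) (2, d) (ω := 1 / 8) (by norm_num)
        (fun j hj => by
          rw [mem_Ico] at hj
          obtain ⟨h1, h2⟩ := hd j hj.1 hj.2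
          have hw := hK.wi j hj.1 hj.2
          have := W_res K j 0 (by norm_num) (2, d) (g0 := 1 / 2) (m0 := 1) (by norm_num)
            (hK.w2 j) (by rw [Ker.gate_two]; norm_num; rw [hw]; norm_num) h1
          linarith)
      push_cast at h
      have e : ∀ j : ℤ, 4 * j - 1 + 0 = 4 * j - 1 := fun j => by ring
      simp only [e] at h
      linarith
    · have h := arc_sum K.flow f hE (Ico b (a + Q)) 1 (by norm_num) (2, d) (ω := 1 / 8) (by norm_num)
        (fun j hj => by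
          rw [mem_Ico] at hj
          obtain ⟨h1, h2⟩ := hd j hj.1 hj.2
          have hw := hK.wi j hj.1 hj.2
          have := W_res K j 1 (by norm_num) (2, d) (g0 := 1 / 2) (m0 := 1) (by norm_num)
            (hK.w2 j) (by rw [Ker.gate_two]; norm_num; rw [hw]; linarith) h1
          linarith)
      push_cast at h
      have e : ∀ j : ℤ, 4 * j - 1 + 1 = 4 * j := fun j => by ring
      simp only [e] at h
      linarith
  · obtain ⟨d, hd⟩ := hK.base1 0 (by decide)
    refine ⟨cc q N (0, d), ?_, ?_⟩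
    · have h := arc_sum K.flow f hE (Ico b (a + Q)) 2 (by norm_num) (0, d) (ω := 1 / 8) (by norm_num)
        (fun j hj => by
          rw [mem_Ico] at hj
          obtain ⟨h1, h2⟩ := hd j hj.1 hj.2
          have hw := hK.wi j hj.1 hj.2
          have := W_res K j 2 (by norm_num) (0, d) (g0 := 1 / 2) (m0 := 1) (by norm_num)
            (hK.w2 j) (by rw [Ker.gate_zero']; norm_num; rw [hw]; linarith) h1
          linarith)
      push_cast at h
      have e : ∀ j : ℤ, 4 * j - 1 + 2 = 4 * j + 1 := fun j => by ring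
      simp only [e] at h
      linarith
    · have h := arc_sum K.flow f hE (Ico b (a + Q)) 3 (by norm_num) (0, d) (ω := 1 / 8) (by norm_num)
        (fun j hj => by
          rw [mem_Ico] at hj
          obtain ⟨h1, h2⟩ := hd j hj.1 hj.2
          have hw := hK.wi j hj.1 hj.2
          have := W_res K j 3 (by norm_num) (0, d) (g0 := 1 / 2) (m0 := 1) (by norm_num)
            (hK.w2 j) (by rw [Ker.gate_zero']; norm_num; rw [hw]; norm_num) h1
          linarith)
      push_cast at h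
      have e : ∀ j : ℤ, 4 * j - 1 + 3 = 4 * j + 2 := fun j => by ring
      simp only [e] at h
      linarith

/-- sums of the arcs `(0, 0)` over a set of blocks without spots -/
theorem arcs_zero (hK : Nice K Q a b) (f : ℤ → ℝ) {E : ℝ} (hE : K.flow.E1 f ≤ E) (I : Finset ℤ)
    (hI : ∀ j ∈ I, b ≤ j ∧ j < a + Q ∧ ¬ (a + N - Q ≤ j ∧ j < 4 * a + N - 1) ∧
      ¬ (4 * b + 4 * Q - 2 * N - 1 ≤ j ∧ j < b + 2 * Q - N)) :
    ∑ j ∈ I, |f j - f (4 * j)| ≤ 64 * E ∧ ∑ j ∈ I, |f j - f (4 * j + 1)| ≤ 64 * E := by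
  have hc : cc q N (1, 0) = 0 := by simp [cc]
  constructor
  · have h := arc_sum K.flow f hE I 1 (by norm_num) (1, 0) (ω := 1 / 64) (by norm_num)
      (fun j hj => by
        obtain ⟨h1, h2, h3, h4⟩ := hI j hj
        have hw := hK.wi j h1 h2
        have hM := hK.base3 j h1 h2 h3 h4 2 (by decide)
        have := W_res K j 1 (by norm_num) (1, 0) (g0 := 1 / 4) (m0 := 1 / 4) (by norm_num)
          (hK.w2 j) (by rw [Ker.gate_one]; norm_num; rw [hw]; linarith) (hK.base2 j h1 h2)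
        linarith)
    push_cast at h
    have e : ∀ j : ℤ, 4 * j - 1 + 1 = 4 * j := fun j => by ring
    simp only [e, hc, add_zero] at h
    linarith
  · have h := arc_sum K.flow f hE I 2 (by norm_num) (1, 0) (ω := 1 / 64) (by norm_num)
      (fun j hj => by
        obtain ⟨h1, h2, h3, h4⟩ := hI j hj
        have hw := hK.wi j h1 h2
        have hM := hK.base3 j h1 h2 h3 h4 0 (by decide)
        have := W_res K j 2 (by norm_num) (1, 0) (g0 := 1 / 4) (m0 := 1 / 4) (by norm_num)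
          (hK.w2 j) (by rw [Ker.gate_one]; norm_num; rw [hw]; linarith) (hK.base2 j h1 h2)
        linarith)
    push_cast at h
    have e : ∀ j : ℤ, 4 * j - 1 + 2 = 4 * j + 1 := fun j => by ring
    simp only [e, hc, add_zero] at h
    linarith

/-- the base case -/
theorem base {K3 : Ker q N} (hK : Nice K Q a b) (hK3 : Nice K3 Q (a + 3) (b - 3))
    (h34 : 3 * N ≤ 4 * Q) (hab : b - a ≥ 20) (ha : 1 ≤ 3 * a + Q) (ha' : 3 * a + Q ≤ 3)
    (hb : N - 1 ≤ 3 * b + 2 * Q) (hb' : 3 * b + 2 * Q ≤ N + 1)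
    (f : ℤ → ℝ) {E : ℝ} (hE : K.flow.E1 f ≤ E) (hE3 : K3.flow.E1 f ≤ E) (n : ℕ)
    (hn : 4 * N ≤ 4 ^ n) :
    vr f (4 * b - 1) (4 * (a + Q) - 2) 1 ≤ (1 + 5 * n) * (288 * E) := by
  have hQN : Q + 59 ≤ N := by omega
  obtain ⟨⟨c, p1, p2⟩, c', p3, p4⟩ := arcs_pm hK f hE
  have hE0 : 0 ≤ E := (K.flow.E1_nonneg f).trans hE
  -- the arcs `(0, 0)`
  have hz : ∑ j ∈ Ico b (a + Q), |f j - f (4 * j)| ≤ 128 * E ∧
      ∑ j ∈ Ico b (a + Q), |f j - f (4 * j + 1)| ≤ 128 * E := by
    set P : ℤ → Prop := fun j => (a + N - Q ≤ j ∧ j < 4 * a + N - 1) ∨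
      (4 * b + 4 * Q - 2 * N - 1 ≤ j ∧ j < b + 2 * Q - N) with hP
    classical
    have g1 := arcs_zero hK f hE ((Ico b (a + Q)).filter fun j => ¬ P j) (fun j hj => by
      rw [mem_filter, mem_Ico, hP] at hj
      simp only at hj
      exact ⟨hj.1.1, hj.1.2, fun h => hj.2 (Or.inl h), fun h => hj.2 (Or.inr h)⟩)
    have g2 := arcs_zero hK3 f hE3 ((Ico b (a + Q)).filter fun j => P j) (fun j hj => by
      rw [mem_filter, mem_Ico, hP] at hj
      simp only at hj
      obtain ⟨⟨j1, j2⟩, j3⟩ := hj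
      refine ⟨by omega, by omega, ?_, ?_⟩
      · rintro ⟨k1, k2⟩
        rcases j3 with ⟨k3, k4⟩ | ⟨k3, k4⟩ <;> omega
      · rintro ⟨k1, k2⟩
        rcases j3 with ⟨k3, k4⟩ | ⟨k3, k4⟩ <;> omega)
    constructor
    · rw [← sum_filter_add_sum_filter_not _ P]
      linarith [g1.1, g2.1]
    · rw [← sum_filter_add_sum_filter_not _ P]
      linarith [g1.2, g2.2]
  obtain ⟨z1, z2⟩ := hz
  -- inside of the blocks
  have hbv : ∑ j ∈ Ico b (a + Q), bv f j ≤ 288 * E := by
    have : ∑ j ∈ Ico b (a + Q), bv f j ≤ ∑ j ∈ Ico b (a + Q),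
        ((|f (j + c) - f (4 * j - 1)| + |f (j + c) - f (4 * j)|) +
         (|f j - f (4 * j)| + |f j - f (4 * j + 1)|) +
         (|f (j + c') - f (4 * j + 1)| + |f (j + c') - f (4 * j + 2)|)) := by
      refine sum_le_sum fun j _ => ?_
      unfold bv
      have t1 := abs_sub_le (f (4 * j)) (f (j + c)) (f (4 * j - 1))
      have t2 := abs_sub_le (f (4 * j + 1)) (f j) (f (4 * j))
      have t3 := abs_sub_le (f (4 * j + 2)) (f (j + c')) (f (4 * j + 1))
      rw [abs_sub_comm (f (4 * j)) (f (j + c))] at t1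
      rw [abs_sub_comm (f (4 * j + 1)) (f j)] at t2
      rw [abs_sub_comm (f (4 * j + 2)) (f (j + c'))] at t3
      linarith
    simp only [sum_add_distrib] at this
    linarith
  have := vr_le f b (a + Q) (by omega) (by omega) (288 * E) hbv (by linarith) n (by omega) (by omega)
  linarith

end H91RP
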