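import Pool.Agent.H91.RP.Kern

/-!
Team RP (MP_a57ff3_nt), helper91, window `3 ≤ |k|/4^t < 4`. One component: the uniform law on the
blocks `[c, c + Q)`. With `δ = 3 c + Q - 1` the thresholds are `t1 = c + δ`, `t2 = c + N - Q`,
`t3 = t2 + δ`, `t4 = c + 2 Q - N`, `t5 = t4 + δ`; `u` is a free function.
-/

set_option autoImplicit false

namespace H91RP

open Finset H54RP

/-- Heaviside function -/
noncomputable def Hv (x : ℤ) : ℝ := if 0 ≤ x then 1 else 0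

theorem Hv_pos {x : ℤ} (h : 0 ≤ x) : Hv x = 1 := if_pos h

theorem Hv_neg {x : ℤ} (h : x < 0) : Hv x = 0 := if_neg (by omega)

/-- block masses of one component, signs `-1, 0, 1` and noise digits `0, 1` -/
noncomputable def cm (N Q c : ℤ) (u : ℤ → ℝ) : Lt → ℤ → ℝ
  | (0, 0), j => Hv (j - (4 * c + Q - 1)) - Hv (j - (c + Q))
  | (0, 1), j => u (j + N - Q) * (Hv (j - c) - Hv (j - (c + 2 * Q - N))) +
      (Hv (j - (4 * c + 3 * Q - N - 1)) - Hv (j - (c + Q)))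
  | (1, 0), j => (Hv (j - c) - Hv (j - (c + N - Q))) +
      (1 - u j) * (Hv (j - (c + N - Q)) - Hv (j - (c + Q)))
  | (1, 1), j => (1 - u (j + N - Q)) * (Hv (j - c) - Hv (j - (c + 2 * Q - N))) +
      (Hv (j - (c + 2 * Q - N)) - Hv (j - (c + Q)))
  | (2, 0), j => (Hv (j - c) - Hv (j - (4 * c + Q - 1))) +
      u j * (Hv (j - (c + N - Q)) - Hv (j - (c + Q)))
  | (2, 1), j => Hv (j - c) - Hv (j - (4 * c + 3 * Q - N - 1))

/-- exactness -/
theorem cm_stat (N Q c : ℤ) (u : ℤ → ℝ) (X : ℤ) :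
    ∑ v, cm N Q c u v (X - cc Q N v) = Hv (X - (4 * c - 1)) - Hv (X - (4 * c + 4 * Q - 1)) := by
  rw [Ker.sum_v]
  have c00 : X - cc Q N (0, 0) = X + Q := by simp [cc]; try ring
  have c01 : X - cc Q N (0, 1) = X + Q - N := by simp [cc]; try ring
  have c10 : X - cc Q N (1, 0) = X := by simp [cc]; try ring
  have c11 : X - cc Q N (1, 1) = X - N := by simp [cc]; try ring
  have c20 : X - cc Q N (2, 0) = X - Q := by simp [cc]; try ring
  have c21 : X - cc Q N (2, 1) = X - Q - N := by simp [cc]; try ring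
  rw [c00, c01, c10, c11, c20, c21]
  simp only [cm]
  have e1 : X + Q - N + N - Q = X := by ring
  have e2 : X - N + N - Q = X - Q := by ring
  rw [e1, e2]
  ring_nf

/-- total mass -/
theorem cm_tot (N Q c : ℤ) (u : ℤ → ℝ) (j : ℤ) :
    (cm N Q c u (0, 0) j + cm N Q c u (0, 1) j) + (cm N Q c u (1, 0) j + cm N Q c u (1, 1) j) +
      (cm N Q c u (2, 0) j + cm N Q c u (2, 1) j) = 4 * (Hv (j - c) - Hv (j - (c + Q))) := by
  simp only [cm]
  ring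

/-- standing assumptions on a component -/
structure Cond (N Q c : ℤ) (u : ℤ → ℝ) : Prop where
  h34 : 3 * N ≤ 4 * Q
  hQN : Q ≤ N
  hN : 1 ≤ N
  d0 : 0 ≤ 3 * c + Q - 1
  d1 : 3 * c + Q - 1 ≤ N - Q
  u0 : ∀ T, 3 / 4 ≤ u T
  u1 : ∀ T, u T ≤ 1

variable {N Q c : ℤ} {u : ℤ → ℝ}

/-- values outside of the support -/
theorem cm_out (h : Cond N Q c u) {j : ℤ} (hj : ¬ (c ≤ j ∧ j < c + Q)) (v : Lt) :
    cm N Q c u v j = 0 := by
  obtain ⟨h1, h2, h3, h4, h5, -, -⟩ := h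
  obtain ⟨a, d⟩ := v
  by_cases hlt : j < c
  · have e1 : Hv (j - c) = 0 := Hv_neg (by omega)
    have e2 : Hv (j - (4 * c + Q - 1)) = 0 := Hv_neg (by omega)
    have e3 : Hv (j - (c + Q)) = 0 := Hv_neg (by omega)
    have e4 : Hv (j - (c + 2 * Q - N)) = 0 := Hv_neg (by omega)
    have e5 : Hv (j - (4 * c + 3 * Q - N - 1)) = 0 := Hv_neg (by omega)
    have e6 : Hv (j - (c + N - Q)) = 0 := Hv_neg (by omega)
    fin_cases a <;> fin_cases d <;> simp only [cm, e1, e2, e3, e4, e5, e6] <;> ring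
  · have e1 : Hv (j - c) = 1 := Hv_pos (by omega)
    have e2 : Hv (j - (4 * c + Q - 1)) = 1 := Hv_pos (by omega)
    have e3 : Hv (j - (c + Q)) = 1 := Hv_pos (by omega)
    have e4 : Hv (j - (c + 2 * Q - N)) = 1 := Hv_pos (by omega)
    have e5 : Hv (j - (4 * c + 3 * Q - N - 1)) = 1 := Hv_pos (by omega)
    have e6 : Hv (j - (c + N - Q)) = 1 := Hv_pos (by omega)
    fin_cases a <;> fin_cases d <;> simp only [cm, e1, e2, e3, e4, e5, e6] <;> ring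

/-- the six values -/
structure Vals (N Q c : ℤ) (u : ℤ → ℝ) (j : ℤ) (x00 x01 x10 x11 x20 x21 : ℝ) : Prop where
  e00 : cm N Q c u (0, 0) j = x00
  e01 : cm N Q c u (0, 1) j = x01
  e10 : cm N Q c u (1, 0) j = x10
  e11 : cm N Q c u (1, 1) j = x11
  e20 : cm N Q c u (2, 0) j = x20
  e21 : cm N Q c u (2, 1) j = x21

/-- values inside the support -/
theorem cm_in (h : Cond N Q c u) {j : ℤ} (hj : c ≤ j ∧ j < c + Q) :
    (j < 4 * c + Q - 1 ∧
      Vals N Q c u j 0 (u (j + N - Q)) 1 (1 - u (j + N - Q)) 1 1) ∨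
    (4 * c + Q - 1 ≤ j ∧ j < c + N - Q ∧
      Vals N Q c u j 1 (u (j + N - Q)) 1 (1 - u (j + N - Q)) 0 1) ∨
    (c + N - Q ≤ j ∧ j < c + 2 * Q - N ∧
      Vals N Q c u j 1 (u (j + N - Q)) (1 - u j) (1 - u (j + N - Q)) (u j) 1) ∨
    (c + 2 * Q - N ≤ j ∧ j < 4 * c + 3 * Q - N - 1 ∧
      Vals N Q c u j 1 0 (1 - u j) 1 (u j) 1) ∨
    (4 * c + 3 * Q - N - 1 ≤ j ∧
      Vals N Q c u j 1 1 (1 - u j) 1 (u j) 0) := by
  obtain ⟨h1, h2, h3, h4, h5, -, -⟩ := h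
  obtain ⟨hj1, hj2⟩ := hj
  have e1 : Hv (j - c) = 1 := Hv_pos (by omega)
  have e3 : Hv (j - (c + Q)) = 0 := Hv_neg (by omega)
  by_cases r0 : j < 4 * c + Q - 1
  · left
    have e2 : Hv (j - (4 * c + Q - 1)) = 0 := Hv_neg (by omega)
    have e4 : Hv (j - (c + 2 * Q - N)) = 0 := Hv_neg (by omega)
    have e5 : Hv (j - (4 * c + 3 * Q - N - 1)) = 0 := Hv_neg (by omega)
    have e6 : Hv (j - (c + N - Q)) = 0 := Hv_neg (by omega)
    refine ⟨r0, ?_, ?_, ?_, ?_, ?_, ?_⟩ <;> simp only [cm, e1, e2, e3, e4, e5, e6] <;> ring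
  right
  have e2 : Hv (j - (4 * c + Q - 1)) = 1 := Hv_pos (by omega)
  by_cases r1 : j < c + N - Q
  · left
    have e4 : Hv (j - (c + 2 * Q - N)) = 0 := Hv_neg (by omega)
    have e5 : Hv (j - (4 * c + 3 * Q - N - 1)) = 0 := Hv_neg (by omega)
    have e6 : Hv (j - (c + N - Q)) = 0 := Hv_neg (by omega)
    refine ⟨by omega, r1, ?_, ?_, ?_, ?_, ?_, ?_⟩ <;> simp only [cm, e1, e2, e3, e4, e5, e6] <;>
      ring
  right
  have e6 : Hv (j - (c + N - Q)) = 1 := Hv_pos (by omega)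
  by_cases r2 : j < c + 2 * Q - N
  · left
    have e4 : Hv (j - (c + 2 * Q - N)) = 0 := Hv_neg (by omega)
    have e5 : Hv (j - (4 * c + 3 * Q - N - 1)) = 0 := Hv_neg (by omega)
    refine ⟨by omega, r2, ?_, ?_, ?_, ?_, ?_, ?_⟩ <;> simp only [cm, e1, e2, e3, e4, e5, e6] <;>
      ring
  right
  have e4 : Hv (j - (c + 2 * Q - N)) = 1 := Hv_pos (by omega)
  by_cases r3 : j < 4 * c + 3 * Q - N - 1
  · left
    have e5 : Hv (j - (4 * c + 3 * Q - N - 1)) = 0 := Hv_neg (by omega)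
    refine ⟨by omega, r3, ?_, ?_, ?_, ?_, ?_, ?_⟩ <;> simp only [cm, e1, e2, e3, e4, e5, e6] <;>
      ring
  right
  have e5 : Hv (j - (4 * c + 3 * Q - N - 1)) = 1 := Hv_pos (by omega)
  refine ⟨by omega, ?_, ?_, ?_, ?_, ?_, ?_⟩ <;> simp only [cm, e1, e2, e3, e4, e5, e6] <;> ring

theorem cm_nonneg (h : Cond N Q c u) (v : Lt) (j : ℤ) : 0 ≤ cm N Q c u v j := by
  by_cases hj : c ≤ j ∧ j < c + Q
  · have u1 := h.u0 j
    have u2 := h.u1 j
    have u3 := h.u0 (j + N - Q)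
    have u4 := h.u1 (j + N - Q)
    have key : 0 ≤ cm N Q c u (0, 0) j ∧ 0 ≤ cm N Q c u (0, 1) j ∧ 0 ≤ cm N Q c u (1, 0) j ∧
        0 ≤ cm N Q c u (1, 1) j ∧ 0 ≤ cm N Q c u (2, 0) j ∧ 0 ≤ cm N Q c u (2, 1) j := by
      rcases cm_in h hj with ⟨-, V⟩ | ⟨-, -, V⟩ | ⟨-, -, V⟩ | ⟨-, -, V⟩ | ⟨-, V⟩ <;>
        rw [V.e00, V.e01, V.e10, V.e11, V.e20, V.e21] <;>
        refine ⟨?_, ?_, ?_, ?_, ?_, ?_⟩ <;> linarith
    obtain ⟨k1, k2, k3, k4, k5, k6⟩ := key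
    obtain ⟨a, d⟩ := v
    fin_cases a <;> fin_cases d
    · exact k1
    · exact k2
    · exact k3
    · exact k4
    · exact k5
    · exact k6
  · rw [cm_out h hj]

end H91RP
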