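import Pool.Agent.H91.RP.Safe
import Pool.Agent.H54.RP.Major

/-!
Team RP (MP_a57ff3_nt). The doubling inequality of helper54 (`Pool.Agent.H54.RP.Double`) with the
safe landing estimate as a hypothesis.
-/

set_option autoImplicit false

namespace H91RP

open Finset H54RP

variable {ι : Type*} [Fintype ι] {c : ι → ℤ} {γ : Type*}

/-- **doubling inequality** (helper54), with the safe landing as a hypothesis -/
theorem doubling2 (D : LFam c γ) (hG : 0 < D.G.card) (f : ℤ → ℝ) (L M : ℕ)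
    (a' b' a1 b1 a2 b2 : ℤ) (ha1 : a1 ≤ a') (hb1 : b' + 4 ^ L ≤ b1) (ha2 : a2 ≤ a')
    (hb2 : b' + 4 ^ M ≤ b2) (p wM E : ℝ)
    (hE : ∀ g ∈ D.G, (D.F g).E1 f ≤ E) (hw1 : ∀ g ∈ D.G, ∀ X ∈ Icc a1 b1, 1 ≤ (D.F g).w X)
    (hw2 : ∀ g ∈ D.G, ∀ X, (D.F g).w X ≤ wM)
    (hsafe : ∀ X, a' ≤ X → X ≤ b' → p * D.G.card * 4 ^ L ≤ ∑ g ∈ D.G, ∑ i ∈ range (4 ^ L),
      Fl (D.F g) (chi (D.F g) (4 ^ M)) (ind a' b') L (X + (i : ℕ))) :
    p * Ds f a' b' (4 ^ (L + M)) ≤ 3 * wM * 4 ^ M * Ds f a1 b1 (4 ^ L) +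
      2 * 4 ^ (L + M) * L * E + wM * 4 ^ L * Ds f a2 b2 (4 ^ M) := by
  classical
  -- nonneg facts
  obtain ⟨g0, hg0⟩ := Finset.card_pos.1 hG
  have hwM0 : 0 ≤ wM := le_trans ((D.F g0).w_nonneg 0) (hw2 g0 hg0 0)
  have hGpos : (0 : ℝ) < D.G.card := by exact_mod_cast hG
  set n : ℕ := 4 ^ L with hn
  have hn0 : 0 < n := by positivity
  set S : ℤ := 4 ^ M with hS
  have hS1 : 1 ≤ S := one_le_pow₀ (by norm_num)
  set Om := ind a' b' with hOm
  have hO := ind_nonneg a' b'
  have hO1 := ind_le_one a' b'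
  set FL : γ → ℤ → ℝ := fun g => Fl (D.F g) (chi (D.F g) S) Om L with hFL
  have hFL0 : ∀ g X, 0 ≤ FL g X := fun g X => Fl_nonneg (D.F g) (chi_nonneg (D.F g) S) hO L X
  have hFL1 : ∀ g X, FL g X ≤ 1 := fun g X =>
    Fl_le_one (D.F g) (chi_nonneg (D.F g) S) (chi_le_one (D.F g) S) hO hO1 L X
  set th : ℤ → ℝ := fun X => ∑ g ∈ D.G, (D.F g).w X * FL g X with hth
  have hth0 : ∀ X, 0 ≤ th X := fun X => sum_nonneg fun g _ =>
    mul_nonneg ((D.F g).w_nonneg X) (hFL0 g X)
  have hth1 : ∀ X, th X ≤ wM * D.G.card := by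
    intro X
    have : th X ≤ ∑ g ∈ D.G, wM := by
      refine sum_le_sum fun g hg => ?_
      have h1 := hw2 g hg X
      have h2 := (D.F g).w_nonneg X
      have h3 := hFL0 g X
      have h4 := hFL1 g X
      nlinarith
    rw [sum_const, nsmul_eq_mul] at this
    linarith
  -- landing
  have hland : ∀ X, a' ≤ X → X ≤ b' → p * D.G.card * n ≤ ∑ i ∈ range n, th (X + (i : ℕ)) := by
    intro X hXa hXb
    have hin : ∀ i : ℕ, i < n → X + (i : ℕ) ∈ Icc a1 b1 := by
      intro i hi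
      have : (i : ℤ) < 4 ^ L := by rw [hn] at hi; exact_mod_cast hi
      rw [mem_Icc]
      omega
    have h1 := hsafe X hXa hXb
    have h2 : ∑ g ∈ D.G, ∑ i ∈ range (4 ^ L), Fl (D.F g) (chi (D.F g) S) Om L (X + (i : ℕ)) ≤
        ∑ i ∈ range n, th (X + (i : ℕ)) := by
      rw [sum_comm]
      refine sum_le_sum fun i hi => ?_
      rw [mem_range] at hi
      refine sum_le_sum fun g hg => ?_
      have h3 := hw1 g hg _ (hin i hi)
      have h4 := hFL0 g (X + (i : ℕ))
      have h5 : FL g (X + (i : ℕ)) = Fl (D.F g) (chi (D.F g) S) Om L (X + (i : ℕ)) := rfl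
      rw [← h5]
      nlinarith
    have h6 : ((n : ℕ) : ℝ) = 4 ^ L := by rw [hn]; push_cast; rfl
    rw [h6]
    linarith
  -- the star inequality
  have hstar : ∀ s : ℤ, 0 ≤ s → s ≤ S → ∀ (A : Finset ℤ) (t : ℤ),
      ∑ X ∈ A, th (X + t) * |f (X + t + 4 ^ L * s) - f (X + t)| ≤
      D.G.card * (2 * L * E) + D.G.card * (wM * ∑ Z ∈ Icc a' b', |f (Z + s) - f Z|) := by
    intro s hs0 hs A t
    have h1 : ∀ g ∈ D.G, ∑ X ∈ A, ((D.F g).w (X + t) * FL g (X + t)) *
        |f (X + t + 4 ^ L * s) - f (X + t)| ≤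
        2 * L * E + wM * ∑ Z ∈ Icc a' b', |f (Z + s) - f Z| := by
      intro g hg
      have h2 := sum_Icc_shift_le (D.F g).supp
        (fun X => ((D.F g).w X * FL g X) * |f (X + 4 ^ L * s) - f X|)
        (fun X => mul_nonneg (mul_nonneg ((D.F g).w_nonneg X) (hFL0 g X)) (abs_nonneg _))
        (fun X hX => by rw [(D.F g).w_off hX]; ring) A t
      have h3 := star (D.F g) (chi_nonneg (D.F g) S) (chi_le_one (D.F g) S) hO hO1 s L
        (fun m _ X hX v => chi_safe (D.F g) S m X s hs0 hs hX v) f L le_rfl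
      have h4 : ∑ X ∈ (D.F g).supp, (D.F g).w X * Om X * |f (X + s) - f X| ≤
          wM * ∑ Z ∈ Icc a' b', |f (Z + s) - f Z| := by
        calc ∑ X ∈ (D.F g).supp, (D.F g).w X * Om X * |f (X + s) - f X|
            ≤ ∑ X ∈ (D.F g).supp, wM * (Om X * |f (X + s) - f X|) := by
              refine sum_le_sum fun X _ => ?_
              rw [mul_assoc]
              exact mul_le_mul_of_nonneg_right (hw2 g hg X) (mul_nonneg (hO X) (abs_nonneg _))
          _ = wM * ∑ X ∈ (D.F g).supp, Om X * |f (X + s) - f X| := (mul_sum _ _ _).symm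
          _ ≤ wM * ∑ Z ∈ Icc a' b', |f (Z + s) - f Z| := by
              refine mul_le_mul_of_nonneg_left ?_ hwM0
              have e : ∀ X, Om X * |f (X + s) - f X| =
                  if X ∈ Icc a' b' then |f (X + s) - f X| else 0 := by
                intro X
                rw [hOm]
                unfold ind
                split_ifs <;> simp
              rw [sum_congr rfl fun X _ => e X, ← sum_filter]
              exact sum_le_sum_of_subset_of_nonneg
                (fun X hX => (mem_filter.1 hX).2) fun _ _ _ => abs_nonneg _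
      have h5 := hE g hg
      have h6 : 2 * (L : ℝ) * (D.F g).E1 f ≤ 2 * L * E :=
        mul_le_mul_of_nonneg_left h5 (by positivity)
      linarith
    calc ∑ X ∈ A, th (X + t) * |f (X + t + 4 ^ L * s) - f (X + t)|
        = ∑ g ∈ D.G, ∑ X ∈ A, ((D.F g).w (X + t) * FL g (X + t)) *
            |f (X + t + 4 ^ L * s) - f (X + t)| := by
          rw [sum_comm]
          refine sum_congr rfl fun X _ => ?_
          rw [hth, sum_mul]
      _ ≤ ∑ g ∈ D.G, (2 * L * E + wM * ∑ Z ∈ Icc a' b', |f (Z + s) - f Z|) := sum_le_sum h1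
      _ = _ := by rw [sum_const, nsmul_eq_mul]; ring
  -- main estimate for fixed h
  have hmain : ∀ h ∈ Icc 1 (n * 4 ^ M),
      p * D.G.card * n * vr f a' b' h ≤
        wM * D.G.card * Ds f a1 b1 n + n * (D.G.card * (2 * L * E) + D.G.card *
          (wM * ∑ Z ∈ Icc a' b', |f (Z + ((h / n : ℕ) : ℤ)) - f Z|)) +
        wM * D.G.card * (2 * Ds f a1 b1 n) := by
    intro h hh
    rw [mem_Icc] at hh
    set s := h / n with hs
    set u := h % n with hu
    have hun : u < n := Nat.mod_lt _ hn0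
    have hsu : n * s + u = h := Nat.div_add_mod h n
    have hsS : s ≤ 4 ^ M := by
      rw [hs]
      calc h / n ≤ (n * 4 ^ M) / n := Nat.div_le_div_right hh.2
        _ = 4 ^ M := Nat.mul_div_cancel_left _ hn0
    have hsS' : (s : ℤ) ≤ S := by rw [hS]; exact_mod_cast hsS
    have hnz : ((n : ℕ) : ℤ) = 4 ^ L := by rw [hn]; push_cast; rfl
    have hsuz : (4 : ℤ) ^ L * s + u = h := by rw [← hnz]; exact_mod_cast hsu
    have h1 : p * D.G.card * n * vr f a' b' h ≤
        ∑ X ∈ Icc a' (b' - h), ∑ i ∈ range n, th (X + (i : ℕ)) * |f (X + h) - f X| := by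
      unfold vr
      rw [mul_sum]
      refine sum_le_sum fun X hX => ?_
      rw [mem_Icc] at hX
      rw [← sum_mul]
      exact mul_le_mul_of_nonneg_right (hland X hX.1 (by omega)) (abs_nonneg _)
    have h2 : ∀ X ∈ Icc a' (b' - h), ∑ i ∈ range n, th (X + (i : ℕ)) * |f (X + h) - f X| ≤
        ∑ i ∈ range n, (wM * D.G.card * |f (X + (i : ℕ)) - f X| +
          th (X + (i : ℕ)) * |f (X + (i : ℕ) + 4 ^ L * s) - f (X + (i : ℕ))| +
          wM * D.G.card * |f (X + 4 ^ L * s + u) - f (X + 4 ^ L * s + (i : ℕ))|) := by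
      intro X _
      refine sum_le_sum fun i _ => ?_
      have t0 := hth0 (X + (i : ℕ))
      have t1 := hth1 (X + (i : ℕ))
      have e1 : X + (h : ℤ) = X + 4 ^ L * s + u := by rw [← hsuz]; ring
      have e2 : X + (i : ℤ) + 4 ^ L * s = X + 4 ^ L * s + i := by ring
      rw [e1, e2]
      have htri : |f (X + 4 ^ L * s + u) - f X| ≤ |f (X + (i : ℕ)) - f X| +
          |f (X + 4 ^ L * s + i) - f (X + (i : ℕ))| +
          |f (X + 4 ^ L * s + u) - f (X + 4 ^ L * s + i)| := by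
        have q1 := abs_sub_le (f (X + 4 ^ L * s + u)) (f (X + 4 ^ L * s + i)) (f X)
        have q2 := abs_sub_le (f (X + 4 ^ L * s + i)) (f (X + (i : ℕ))) (f X)
        linarith
      have a1' := abs_nonneg (f (X + (i : ℕ)) - f X)
      have a2' := abs_nonneg (f (X + 4 ^ L * s + i) - f (X + (i : ℕ)))
      have a3' := abs_nonneg (f (X + 4 ^ L * s + u) - f (X + 4 ^ L * s + i))
      nlinarith
    have h3 := h1.trans (sum_le_sum h2)
    rw [sum_comm] at h3
    have h4 : ∀ i ∈ range n, ∑ X ∈ Icc a' (b' - h), (wM * D.G.card * |f (X + (i : ℕ)) - f X| +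
          th (X + (i : ℕ)) * |f (X + (i : ℕ) + 4 ^ L * s) - f (X + (i : ℕ))| +
          wM * D.G.card * |f (X + 4 ^ L * s + u) - f (X + 4 ^ L * s + (i : ℕ))|) ≤
        wM * D.G.card * vr f a1 b1 i + (D.G.card * (2 * L * E) + D.G.card *
          (wM * ∑ Z ∈ Icc a' b', |f (Z + s) - f Z|)) +
        wM * D.G.card * vr f a1 b1 ((u : ℤ) - i).natAbs := by
      intro i hi
      rw [mem_range] at hi
      have hi' : (i : ℤ) < 4 ^ L := by rw [← hnz]; exact_mod_cast hi
      have hu' : (u : ℤ) < 4 ^ L := by rw [← hnz]; exact_mod_cast hun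
      have hh0 : (0 : ℤ) ≤ 4 ^ L * s := by positivity
      rw [sum_add_distrib, sum_add_distrib, ← mul_sum, ← mul_sum]
      have p1 : ∑ X ∈ Icc a' (b' - h), |f (X + (i : ℕ)) - f X| ≤ vr f a1 b1 i := by
        unfold vr
        refine sum_le_sum_of_subset_of_nonneg (Icc_subset_Icc ha1 ?_) fun _ _ _ => abs_nonneg _
        omega
      have p2 := hstar s (by positivity) hsS' (Icc a' (b' - h)) (i : ℕ)
      have p3 : ∑ X ∈ Icc a' (b' - h), |f (X + 4 ^ L * s + u) - f (X + 4 ^ L * s + (i : ℕ))| ≤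
          vr f a1 b1 ((u : ℤ) - i).natAbs := by
        refine sum_two_shifts_le f (4 ^ L * (s : ℤ)) u i ?_ ?_ ?_ <;> omega
      have hc : 0 ≤ wM * D.G.card := by positivity
      have p1' := mul_le_mul_of_nonneg_left p1 hc
      have p3' := mul_le_mul_of_nonneg_left p3 hc
      linarith
    have h5 := h3.trans (sum_le_sum h4)
    rw [sum_add_distrib, sum_add_distrib, ← mul_sum, ← mul_sum, sum_const, card_range,
      nsmul_eq_mul] at h5
    have hc : 0 ≤ wM * D.G.card := by positivity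
    have h6 := mul_le_mul_of_nonneg_left (sum_vr_range_le f a1 b1 n) hc
    have h7 := mul_le_mul_of_nonneg_left (sum_vr_dist_le f a1 b1 n u hun) hc
    linarith
  -- sum over h
  have hsum := sum_le_sum hmain
  have hcardI : ((Icc 1 (n * 4 ^ M)).card : ℝ) = n * 4 ^ M := by
    rw [Nat.card_Icc]; push_cast; ring
  rw [← mul_sum, sum_add_distrib, sum_add_distrib, sum_const, sum_const, nsmul_eq_mul,
    nsmul_eq_mul, hcardI, ← mul_sum, sum_add_distrib, sum_const, nsmul_eq_mul, hcardI, ← mul_sum,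
    ← mul_sum] at hsum
  have hlast : ∑ h ∈ Icc 1 (n * 4 ^ M), ∑ Z ∈ Icc a' b', |f (Z + ((h / n : ℕ) : ℤ)) - f Z| ≤
      n * Ds f a2 b2 (4 ^ M) := by
    refine (sum_div_le n (4 ^ M) hn0 (fun s => ∑ Z ∈ Icc a' b', |f (Z + (s : ℕ)) - f Z|)
      (fun s => sum_nonneg fun _ _ => abs_nonneg _) (by simp)).trans ?_
    refine mul_le_mul_of_nonneg_left ?_ (by positivity)
    unfold Ds
    refine sum_le_sum fun s hs => ?_
    rw [mem_Icc] at hs
    have hs' : (s : ℤ) ≤ 4 ^ M := by exact_mod_cast hs.2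
    unfold vr
    refine sum_le_sum_of_subset_of_nonneg (Icc_subset_Icc ha2 ?_) fun _ _ _ => abs_nonneg _
    omega
  have hDs : ∑ h ∈ Icc 1 (n * 4 ^ M), vr f a' b' h = Ds f a' b' (4 ^ (L + M)) := by
    unfold Ds
    rw [hn, ← pow_add]
  rw [hDs] at hsum
  have hnR : ((n : ℕ) : ℝ) = 4 ^ L := by rw [hn]; push_cast; rfl
  have hlast' := mul_le_mul_of_nonneg_left hlast (show 0 ≤ (D.G.card : ℝ) * wM * n by positivity)
  have hn0R : (0 : ℝ) < n := by exact_mod_cast hn0
  have hfin : (D.G.card * n : ℝ) * (p * Ds f a' b' (4 ^ (L + M))) ≤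
      (D.G.card * n : ℝ) * (3 * wM * 4 ^ M * Ds f a1 b1 (4 ^ L) +
      2 * 4 ^ (L + M) * L * E + wM * 4 ^ L * Ds f a2 b2 (4 ^ M)) := by
    have e1 : (4 : ℝ) ^ (L + M) = n * 4 ^ M := by rw [hnR, pow_add]
    have e2 : (4 : ℝ) ^ L = n := hnR.symm
    rw [e1, e2]
    rw [hn] at hsum hlast' ⊢
    nlinarith [hsum, hlast']
  exact le_of_mul_le_mul_left hfin (by positivity)

end H91RP
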