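import Pool.Agent.H91.RP.Base

/-!
Team RP (MP_a57ff3_nt), helper91, window `3 ≤ |k|/4^t < 4`. The labelled family
`a = a0 + g`, `b = b0 - g`, `0 ≤ g ≤ n`.
-/

set_option autoImplicit false

namespace H91RP

open Finset H54RP

/-- legal letters of a state: they depend on the residue `r = (X + 1) % 4` -/
def legR (r : ℤ) (v : Lt) : Prop :=
  (r = 0 ∧ v.1 = 2) ∨ (r = 1 ∧ (v.1 = 2 ∨ v.1 = 1)) ∨ (r = 2 ∧ (v.1 = 1 ∨ v.1 = 0)) ∨
    (r = 3 ∧ v.1 = 0)

instance (r : ℤ) (v : Lt) : Decidable (legR r v) := by unfold legR; infer_instance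

theorem leg_of_W {q N : ℤ} (K : Ker q N) {X : ℤ} {v : Lt} (h : K.flow.W X v ≠ 0) :
    legR ((X + 1) % 4) v := by
  have hg : K.gate v.1 ((X + 1) % 4) (blk X) ≠ 0 := by
    intro h0
    apply h
    change K.gate v.1 ((X + 1) % 4) (blk X) * _ = 0
    rw [h0, zero_mul]
  obtain ⟨s, d⟩ := v
  simp only at hg
  have hs : s = 0 ∨ s = 1 ∨ s = 2 := by
    fin_cases s <;> simp
  unfold legR
  simp only
  rcases hs with rfl | rfl | rfl
  · rw [Ker.gate_zero'] at hg
    split_ifs at hg with h1 h2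
    · right; right; left; exact ⟨h1, Or.inr rfl⟩
    · right; right; right; exact ⟨h2, rfl⟩
    · exact absurd rfl hg
  · rw [Ker.gate_one] at hg
    split_ifs at hg with h1 h2
    · right; left; exact ⟨h1, Or.inr rfl⟩
    · right; right; left; exact ⟨h2, Or.inl rfl⟩
    · exact absurd rfl hg
  · rw [Ker.gate_two] at hg
    split_ifs at hg with h1 h2
    · left; exact ⟨h1, rfl⟩
    · right; left; exact ⟨h2, Or.inl rfl⟩
    · exact absurd rfl hg

theorem legR_card (X : ℤ) : ∑ r ∈ range 4,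
    ((univ : Finset Lt).filter (fun v => legR ((X + (r : ℕ) + 1) % 4) v)).card ≤ 12 := by
  have c0 : ((univ : Finset Lt).filter (fun v => legR 0 v)).card = 2 := by decide
  have c1 : ((univ : Finset Lt).filter (fun v => legR 1 v)).card = 4 := by decide
  have c2 : ((univ : Finset Lt).filter (fun v => legR 2 v)).card = 4 := by decide
  have c3 : ((univ : Finset Lt).filter (fun v => legR 3 v)).card = 2 := by decide
  simp only [sum_range_succ, sum_range_zero, zero_add]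
  have h : X % 4 = 0 ∨ X % 4 = 1 ∨ X % 4 = 2 ∨ X % 4 = 3 := by omega
  rcases h with h | h | h | h
  · have e0 : (X + ((0 : ℕ) : ℤ) + 1) % 4 = 1 := by push_cast; omega
    have e1 : (X + ((1 : ℕ) : ℤ) + 1) % 4 = 2 := by push_cast; omega
    have e2 : (X + ((2 : ℕ) : ℤ) + 1) % 4 = 3 := by push_cast; omega
    have e3 : (X + ((3 : ℕ) : ℤ) + 1) % 4 = 0 := by push_cast; omega
    rw [e0, e1, e2, e3, c0, c1, c2, c3]
  · have e0 : (X + ((0 : ℕ) : ℤ) + 1) % 4 = 2 := by push_cast; omega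
    have e1 : (X + ((1 : ℕ) : ℤ) + 1) % 4 = 3 := by push_cast; omega
    have e2 : (X + ((2 : ℕ) : ℤ) + 1) % 4 = 0 := by push_cast; omega
    have e3 : (X + ((3 : ℕ) : ℤ) + 1) % 4 = 1 := by push_cast; omega
    rw [e0, e1, e2, e3, c0, c1, c2, c3]
  · have e0 : (X + ((0 : ℕ) : ℤ) + 1) % 4 = 3 := by push_cast; omega
    have e1 : (X + ((1 : ℕ) : ℤ) + 1) % 4 = 0 := by push_cast; omega
    have e2 : (X + ((2 : ℕ) : ℤ) + 1) % 4 = 1 := by push_cast; omega
    have e3 : (X + ((3 : ℕ) : ℤ) + 1) % 4 = 2 := by push_cast; omega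
    rw [e0, e1, e2, e3, c0, c1, c2, c3]
  · have e0 : (X + ((0 : ℕ) : ℤ) + 1) % 4 = 0 := by push_cast; omega
    have e1 : (X + ((1 : ℕ) : ℤ) + 1) % 4 = 1 := by push_cast; omega
    have e2 : (X + ((2 : ℕ) : ℤ) + 1) % 4 = 2 := by push_cast; omega
    have e3 : (X + ((3 : ℕ) : ℤ) + 1) % 4 = 3 := by push_cast; omega
    rw [e0, e1, e2, e3, c0, c1, c2, c3]

/-- each threshold is an injective function of the label -/
theorem th_inj (N Q a0 b0 : ℤ) (i : Fin 14) {g g' : ℤ}
    (h : th N Q (a0 + g) (b0 - g) i = th N Q (a0 + g') (b0 - g') i) : g = g' := by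
  fin_cases i
  · change a0 + g = a0 + g' at h; omega
  · change 4 * (a0 + g) + Q - 1 = 4 * (a0 + g') + Q - 1 at h; omega
  · change a0 + g + N - Q = a0 + g' + N - Q at h; omega
  · change 4 * (a0 + g) + N - 1 = 4 * (a0 + g') + N - 1 at h; omega
  · change a0 + g + 2 * Q - N = a0 + g' + 2 * Q - N at h; omega
  · change 4 * (a0 + g) + 3 * Q - N - 1 = 4 * (a0 + g') + 3 * Q - N - 1 at h; omega
  · change a0 + g + Q = a0 + g' + Q at h; omega
  · change b0 - g = b0 - g' at h; omega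
  · change 4 * (b0 - g) + Q - 1 = 4 * (b0 - g') + Q - 1 at h; omega
  · change b0 - g + N - Q = b0 - g' + N - Q at h; omega
  · change b0 - g + 2 * Q - N = b0 - g' + 2 * Q - N at h; omega
  · change 4 * (b0 - g) + 3 * Q - N - 1 = 4 * (b0 - g') + 3 * Q - N - 1 at h; omega
  · change b0 - g + Q = b0 - g' + Q at h; omega
  · change 4 * (b0 - g) + 4 * Q - 2 * N - 1 = 4 * (b0 - g') + 4 * Q - 2 * N - 1 at h; omega

variable {q N Q : ℤ}

/-- no threshold in the window: the flow is uniform there -/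
theorem unif_of {a b : ℤ} {K : Ker q N} (hK : Nice K Q a b) (x R : ℤ)
    (h : ∀ i, ¬ (blk x < th N Q a b i ∧ th N Q a b i ≤ blk (x + R))) : Unif K.flow x R := by
  intro X Y hX1 hX2 hY1 hY2 hd v
  have m1 : blk x ≤ blk X := by unfold blk; omega
  have m2 : blk X ≤ blk (x + R) := by unfold blk; omega
  have m3 : blk x ≤ blk Y := by unfold blk; omega
  have m4 : blk Y ≤ blk (x + R) := by unfold blk; omega
  obtain ⟨e1, e2⟩ := hK.unif (blk X) (blk Y) (fun i => by
    have := h i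
    constructor
    · intro hh
      by_contra hc
      exact this ⟨by omega, by omega⟩
    · intro hh
      by_contra hc
      exact this ⟨by omega, by omega⟩)
  have er : (X + 1) % 4 = (Y + 1) % 4 := by omega
  have eM : ∀ s, K.M s (blk X) = K.M s (blk Y) := by
    intro s
    unfold Ker.M
    rw [e1, e1]
  change K.gate v.1 ((X + 1) % 4) (blk X) * (K.m v (blk X) / K.M v.1 (blk X)) =
    K.gate v.1 ((Y + 1) % 4) (blk Y) * (K.m v (blk Y) / K.M v.1 (blk Y))
  have eg : K.gate v.1 ((X + 1) % 4) (blk X) = K.gate v.1 ((Y + 1) % 4) (blk Y) := by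
    unfold Ker.gate
    rw [er, e2, eM 2, eM 0]
  rw [eg, e1, eM]

theorem count_inj {γ : Type*} (B : Finset γ) (θ : γ → ℤ) (hθ : Function.Injective θ)
    (l h : ℤ) (R : ℤ) (hR : h - l ≤ R) (hR0 : 0 ≤ R) :
    (((B.filter fun g => l < θ g ∧ θ g ≤ h).card : ℕ) : ℝ) ≤ R := by
  have h3 : (B.filter fun g => l < θ g ∧ θ g ≤ h).card ≤ (Ioc l h).card := by
    refine card_le_card_of_injOn θ ?_ ?_
    · intro g hg
      have := (mem_filter.1 (mem_coe.1 hg)).2
      exact mem_coe.2 (mem_Ioc.2 this)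
    · exact hθ.injOn
  rw [Int.card_Ioc] at h3
  have h4 : (((h - l).toNat : ℕ) : ℤ) ≤ R := by omega
  have h5 : (((B.filter fun g => l < θ g ∧ θ g ≤ h).card : ℕ) : ℤ) ≤ R :=
    le_trans (by exact_mod_cast h3) h4
  exact_mod_cast h5

theorem count_union {γ : Type*} (B : Finset γ) (θ : Fin 14 → γ → ℤ)
    (hθ : ∀ i, Function.Injective (θ i)) (l h : ℤ) (R : ℤ) (hR : h - l ≤ R) (hR0 : 0 ≤ R)
    (hB : ∀ g ∈ B, ∃ i, l < θ i g ∧ θ i g ≤ h) : (B.card : ℝ) ≤ 14 * R := by
  classical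
  have hsub : B ⊆ (univ : Finset (Fin 14)).biUnion fun i =>
      B.filter fun g => l < θ i g ∧ θ i g ≤ h := by
    intro g hg
    rw [mem_biUnion]
    obtain ⟨i, hi⟩ := hB g hg
    exact ⟨i, mem_univ i, mem_filter.2 ⟨hg, hi⟩⟩
  have h1 : B.card ≤ ∑ i : Fin 14, (B.filter fun g => l < θ i g ∧ θ i g ≤ h).card :=
    (card_le_card hsub).trans card_biUnion_le
  calc (B.card : ℝ) ≤ ((∑ i : Fin 14, (B.filter fun g => l < θ i g ∧ θ i g ≤ h).card : ℕ) : ℝ) := by
        exact_mod_cast h1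
    _ = ∑ i : Fin 14, (((B.filter fun g => l < θ i g ∧ θ i g ≤ h).card : ℕ) : ℝ) := by
        rw [Nat.cast_sum]
    _ ≤ ∑ _i : Fin 14, (R : ℝ) := sum_le_sum fun i _ => count_inj B (θ i) (hθ i) l h R hR hR0
    _ = 14 * R := by rw [sum_const, card_univ, Fintype.card_fin, nsmul_eq_mul]; norm_num

/-- the number of labels which are not uniform in a window -/
theorem bad_count {n : ℕ} {a0 b0 : ℤ} (Kf : Fin (n + 1) → Ker q N)
    (hN : ∀ g : Fin (n + 1), Nice (Kf g) Q (a0 + (g : ℕ)) (b0 - (g : ℕ))) (x R : ℤ) (hR : 1 ≤ R)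
    (B : Finset (Fin (n + 1))) (hB : ∀ g ∈ B, ¬ Unif (Kf g).flow x R) :
    (B.card : ℝ) ≤ 14 * R := by
  refine count_union B (fun i g => th N Q (a0 + (g : ℕ)) (b0 - (g : ℕ)) i) (fun i g g' e => ?_)
    (blk x) (blk (x + R)) R (by unfold blk; omega) (by omega) fun g hg => ?_
  · have := th_inj N Q a0 b0 i e
    ext
    exact_mod_cast this
  · by_contra hc
    push Not at hc
    refine hB g hg (unif_of (hN g) x R fun i hi => ?_)
    have := hc i hi.1
    omega

/-- the labelled family -/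
noncomputable def fam {n : ℕ} {a0 b0 : ℤ} (Kf : Fin (n + 1) → Ker q N)
    (hN : ∀ g : Fin (n + 1), Nice (Kf g) Q (a0 + (g : ℕ)) (b0 - (g : ℕ))) :
    LFam (cc q N) (Fin (n + 1)) where
  G := univ
  F g := (Kf g).flow
  leg X v := legR ((X + 1) % 4) v
  leg_add X v := by
    have : (X + 4 + 1) % 4 = (X + 1) % 4 := by omega
    rw [this]
  hW g _ X v h := leg_of_W (Kf g) h
  legs X := univ.filter fun v => legR ((X + 1) % 4) v
  legs_mem X v := by simp
  count X := legR_card X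
  kB := 14
  kB0 := by norm_num
  bad x R hR B _ hB := bad_count Kf hN x R hR B hB

end H91RP
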