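import Pool.Agent.H91.RP.Double2
import Pool.Agent.H54.RP.Iter

/-!
Team RP (MP_a57ff3_nt). The iteration of helper54 (`Pool.Agent.H54.RP.Iter`) with the safe landing
estimate as a hypothesis and with a general margin.
-/

set_option autoImplicit false

namespace H91RP

open Finset H54RP

variable {ι : Type*} [Fintype ι] {c : ι → ℤ} {γ : Type*}

/-- iteration of the doubling inequality (helper54), with the safe landing as a hypothesis -/
theorem iter2 (D : LFam c γ) (hG : 0 < D.G.card) (f : ℤ → ℝ) (r : ℕ) (hr : 2 ≤ r) (A B cm : ℤ)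
    (hcm : 1 ≤ cm)
    (p wM E : ℝ) (hp : 0 < p) (hp1 : 2 * p ≤ 1) (hwM : 1 ≤ wM) (hE0 : 0 ≤ E)
    (hE : ∀ g ∈ D.G, (D.F g).E1 f ≤ E) (hw1 : ∀ g ∈ D.G, ∀ X ∈ Icc A B, 1 ≤ (D.F g).w X)
    (hw2 : ∀ g ∈ D.G, ∀ X, (D.F g).w X ≤ wM)
    (κ : ℕ) (hκ : 8 * wM ≤ p * (4 / 3 : ℝ) ^ κ) (L0 : ℕ)
    (hsafe : ∀ L1 M : ℕ, r ≤ L1 → L1 + M ≤ L0 → ∀ X, A + cm * 4 ^ (L1 + M) ≤ X →
      X ≤ B - cm * 4 ^ (L1 + M) → p * D.G.card * 4 ^ L1 ≤ ∑ g ∈ D.G, ∑ i ∈ range (4 ^ L1),
        Fl (D.F g) (chi (D.F g) (4 ^ M))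
          (ind (A + cm * 4 ^ (L1 + M)) (B - cm * 4 ^ (L1 + M))) L1 (X + (i : ℕ)))
    (L : ℕ) (hL0 : L ≤ L0) :
    Ds f (A + cm * 4 ^ L) (B - cm * 4 ^ L) (4 ^ L) ≤
      4 ^ L * (4 ^ (2 * r) * (L + 1) ^ κ * (vr f A B 1 + E)) := by
  have hv0 := vr_nonneg f A B 1
  have hD0E : 0 ≤ vr f A B 1 + E := by linarith
  induction L using Nat.strong_induction_on with
  | _ L ih =>
    rcases lt_or_ge L (2 * r) with hlt | hge
    · -- small levels
      have hq : (0 : ℤ) ≤ cm * 4 ^ L := by positivity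
      have h1 : Ds f (A + cm * 4 ^ L) (B - cm * 4 ^ L) (4 ^ L) ≤ Ds f A B (4 ^ L) :=
        Ds_mono f (by linarith) (by linarith) _
      have h2 := Ds_le_sq f A B (4 ^ L)
      push_cast at h2
      have h3 : (4 : ℝ) ^ L ≤ 4 ^ (2 * r) := pow_le_pow_right₀ (by norm_num) hlt.le
      have h4 : (1 : ℝ) ≤ ((L : ℝ) + 1) ^ κ := one_le_pow₀ (by
        have : (0 : ℝ) ≤ L := Nat.cast_nonneg L
        linarith)
      calc Ds f (A + cm * 4 ^ L) (B - cm * 4 ^ L) (4 ^ L) ≤ 4 ^ L * 4 ^ L * vr f A B 1 :=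
            h1.trans h2
        _ = 4 ^ L * (4 ^ L * 1 * vr f A B 1) := by ring
        _ ≤ 4 ^ L * (4 ^ (2 * r) * (L + 1) ^ κ * (vr f A B 1 + E)) := by
            refine mul_le_mul_of_nonneg_left ?_ (by positivity)
            refine mul_le_mul ?_ (by linarith) hv0 (by positivity)
            exact mul_le_mul h3 h4 (by norm_num) (by positivity)
    · -- doubling
      set L1 := (L + 1) / 2 with hL1
      set M := L / 2 with hM
      have hLM : L1 + M = L := by omega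
      have hrL1 : r ≤ L1 := by omega
      have hL1lt : L1 < L := by omega
      have hMlt : M < L := by omega
      have hp1' : (4 : ℤ) ^ L1 * 4 ≤ 4 ^ L := by
        rw [← pow_succ]; exact pow_le_pow_right₀ (by norm_num) (by omega)
      have hp2' : (4 : ℤ) ^ M * 4 ≤ 4 ^ L := by
        rw [← pow_succ]; exact pow_le_pow_right₀ (by norm_num) (by omega)
      have hp1R : (4 : ℝ) ^ L1 ≤ 4 ^ L := pow_le_pow_right₀ (by norm_num) hL1lt.le
      have hp2R : (4 : ℝ) ^ M ≤ 4 ^ L := pow_le_pow_right₀ (by norm_num) hMlt.le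
      have q1 : (0 : ℤ) < 4 ^ L1 := by positivity
      have q2 : (0 : ℤ) < 4 ^ M := by positivity
      have q3 : (0 : ℤ) < 4 ^ L := by positivity
      have h1 := ih L1 hL1lt (by omega)
      have h2 := ih M hMlt (by omega)
      have m1 : cm * (4 : ℤ) ^ L1 * 4 ≤ cm * 4 ^ L := by nlinarith
      have m2 : cm * (4 : ℤ) ^ M * 4 ≤ cm * 4 ^ L := by nlinarith
      have m3 : (4 : ℤ) ^ L1 ≤ cm * 4 ^ L1 := by nlinarith
      have m4 : (4 : ℤ) ^ M ≤ cm * 4 ^ M := by nlinarith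
      have hsf := hsafe L1 M hrL1 (by omega)
      rw [hLM] at hsf
      have hdb := doubling2 D hG f L1 M (A + cm * 4 ^ L) (B - cm * 4 ^ L)
        (A + cm * 4 ^ L1) (B - cm * 4 ^ L1) (A + cm * 4 ^ M) (B - cm * 4 ^ M)
        (by linarith) (by linarith) (by linarith) (by linarith) p wM E hE
        (fun g hg X hX => hw1 g hg X (by rw [mem_Icc] at hX ⊢; constructor <;> linarith)) hw2
        hsf
      rw [hLM] at hdb
      -- numerical part
      set y : ℝ := vr f A B 1 + E with hy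
      have hLr : (L : ℝ) = L1 + M := by rw [← hLM]; push_cast; ring
      have hL4 : (4 : ℝ) ≤ L := by exact_mod_cast (by omega : 4 ≤ L)
      have hL1' : (L1 : ℝ) + 1 ≤ 3 / 4 * (L + 1) := by
        have : (2 : ℝ) * L1 ≤ L + 1 := by exact_mod_cast (by omega : 2 * L1 ≤ L + 1)
        linarith
      have hM' : (M : ℝ) + 1 ≤ 3 / 4 * (L + 1) := by
        have : (2 : ℝ) * M ≤ L := by exact_mod_cast (by omega : 2 * M ≤ L)
        linarith
      have hpw1 : ((L1 : ℝ) + 1) ^ κ ≤ (3 / 4) ^ κ * (L + 1) ^ κ := by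
        rw [← mul_pow]; exact pow_le_pow_left₀ (by positivity) hL1' κ
      have hpw2 : ((M : ℝ) + 1) ^ κ ≤ (3 / 4) ^ κ * (L + 1) ^ κ := by
        rw [← mul_pow]; exact pow_le_pow_left₀ (by positivity) hM' κ
      have hκ' : 8 * wM * (3 / 4 : ℝ) ^ κ ≤ p := by
        have e : (4 / 3 : ℝ) ^ κ * (3 / 4) ^ κ = 1 := by rw [← mul_pow]; norm_num
        calc 8 * wM * (3 / 4 : ℝ) ^ κ ≤ p * (4 / 3 : ℝ) ^ κ * (3 / 4) ^ κ :=
              mul_le_mul_of_nonneg_right hκ (by positivity)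
          _ = p := by rw [mul_assoc, e, mul_one]
      have hκ1 : 1 ≤ κ := by
        by_contra h0
        have : κ = 0 := by omega
        rw [this] at hκ'
        norm_num at hκ'
        linarith
      -- `4 * L1 ≤ p * 4 ^ (2 r) (L + 1) ^ κ`
      set Z : ℝ := 4 ^ (2 * r) * (L + 1) ^ κ with hZ
      have hZ0 : 0 ≤ Z := by positivity
      have hbig : 4 * (L1 : ℝ) ≤ p * Z := by
        have e0 : (L1 : ℝ) ≤ L + 1 := by
          have : (L1 : ℝ) ≤ L := by exact_mod_cast hL1lt.le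
          linarith
        have e1 : (3 / 4 : ℝ) ^ κ * (L + 1) ^ κ = (3 / 4 * (L + 1)) ^ κ := (mul_pow _ _ _).symm
        have e2 : (3 / 4 * ((L : ℝ) + 1)) ≤ (3 / 4 * ((L : ℝ) + 1)) ^ κ :=
          le_self_pow₀ (by linarith) (by omega)
        have e3 : 8 * wM * ((3 / 4 : ℝ) ^ κ * (L + 1) ^ κ) ≤ p * (L + 1) ^ κ := by
          rw [← mul_assoc]; exact mul_le_mul_of_nonneg_right hκ' (by positivity)
        have e4 : (1 : ℝ) ≤ 4 ^ (2 * r) := one_le_pow₀ (by norm_num)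
        have e5 : p * ((L : ℝ) + 1) ^ κ ≤ p * Z := by
          rw [hZ]
          refine mul_le_mul_of_nonneg_left ?_ hp.le
          exact le_mul_of_one_le_left (by positivity) e4
        rw [e1] at e3
        nlinarith
      have b1 : Ds f (A + cm * 4 ^ L1) (B - cm * 4 ^ L1) (4 ^ L1) ≤
          4 ^ L1 * ((3 / 4) ^ κ * Z * y) := by
        refine h1.trans (mul_le_mul_of_nonneg_left ?_ (by positivity))
        refine mul_le_mul_of_nonneg_right ?_ hD0E
        rw [hZ]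
        calc (4 : ℝ) ^ (2 * r) * ((L1 : ℝ) + 1) ^ κ ≤ 4 ^ (2 * r) * ((3 / 4) ^ κ * (L + 1) ^ κ) :=
              mul_le_mul_of_nonneg_left hpw1 (by positivity)
          _ = _ := by ring
      have b2 : Ds f (A + cm * 4 ^ M) (B - cm * 4 ^ M) (4 ^ M) ≤
          4 ^ M * ((3 / 4) ^ κ * Z * y) := by
        refine h2.trans (mul_le_mul_of_nonneg_left ?_ (by positivity))
        refine mul_le_mul_of_nonneg_right ?_ hD0E
        rw [hZ]
        calc (4 : ℝ) ^ (2 * r) * ((M : ℝ) + 1) ^ κ ≤ 4 ^ (2 * r) * ((3 / 4) ^ κ * (L + 1) ^ κ) :=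
              mul_le_mul_of_nonneg_left hpw2 (by positivity)
          _ = _ := by ring
      have hpow : (4 : ℝ) ^ L1 * 4 ^ M = 4 ^ L := by rw [← pow_add, hLM]
      have hwM0 : 0 ≤ wM := by linarith
      have c1 : 3 * wM * 4 ^ M * Ds f (A + cm * 4 ^ L1) (B - cm * 4 ^ L1) (4 ^ L1) ≤
          3 * wM * 4 ^ L * ((3 / 4) ^ κ * Z * y) := by
        calc _ ≤ 3 * wM * 4 ^ M * (4 ^ L1 * ((3 / 4) ^ κ * Z * y)) :=
              mul_le_mul_of_nonneg_left b1 (by positivity)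
          _ = 3 * wM * (4 ^ L1 * 4 ^ M) * ((3 / 4) ^ κ * Z * y) := by ring
          _ = _ := by rw [hpow]
      have c2 : wM * 4 ^ L1 * Ds f (A + cm * 4 ^ M) (B - cm * 4 ^ M) (4 ^ M) ≤
          wM * 4 ^ L * ((3 / 4) ^ κ * Z * y) := by
        calc _ ≤ wM * 4 ^ L1 * (4 ^ M * ((3 / 4) ^ κ * Z * y)) :=
              mul_le_mul_of_nonneg_left b2 (by positivity)
          _ = wM * (4 ^ L1 * 4 ^ M) * ((3 / 4) ^ κ * Z * y) := by ring
          _ = _ := by rw [hpow]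
      have hEy : E ≤ y := by rw [hy]; linarith
      have c3 : 2 * 4 ^ L * (L1 : ℝ) * E ≤ 4 ^ L * (p * Z / 2 * y) := by
        have d1 : 2 * (L1 : ℝ) * E ≤ p * Z / 2 * y := by
          have d2 : 2 * (L1 : ℝ) ≤ p * Z / 2 := by linarith
          exact mul_le_mul d2 hEy hE0 (by positivity)
        calc 2 * 4 ^ L * (L1 : ℝ) * E = 4 ^ L * (2 * (L1 : ℝ) * E) := by ring
          _ ≤ _ := mul_le_mul_of_nonneg_left d1 (by positivity)
      have c4 : 4 * wM * ((3 / 4 : ℝ) ^ κ * Z * y) ≤ p * Z / 2 * y := by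
        have d1 : 4 * wM * (3 / 4 : ℝ) ^ κ ≤ p / 2 := by linarith
        calc 4 * wM * ((3 / 4 : ℝ) ^ κ * Z * y) = (4 * wM * (3 / 4 : ℝ) ^ κ) * (Z * y) := by ring
          _ ≤ p / 2 * (Z * y) := mul_le_mul_of_nonneg_right d1 (mul_nonneg hZ0 hD0E)
          _ = _ := by ring
      have hfin : p * Ds f (A + cm * 4 ^ L) (B - cm * 4 ^ L) (4 ^ L) ≤ p * (4 ^ L * (Z * y)) := by
        have d5 := mul_le_mul_of_nonneg_left c4 (show (0 : ℝ) ≤ 4 ^ L by positivity)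
        nlinarith
      exact le_of_mul_le_mul_left hfin hp

end H91RP
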