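import Pool.Agent.H54.RP.Avg

/-!
Team RP (MP_a57ff3_nt), helper91, window `3 ≤ |k|/4^t < 4`. Block kernels and their flows.

Letters `v = (a, d) : Fin 3 × Fin 2`, the sign is `a - 1 ∈ {-1, 0, 1}`, the noise digit is `d`.
A block kernel gives the masses `m v j` of the letters in the four states of the block `j`.
The state of residue `r = (X + 1) % 4` uses the sign `1` if `r = 0`, the signs `1, 0` if `r = 1`,
the signs `-1, 0` if `r = 2` and the sign `-1` if `r = 3`.
-/

set_option autoImplicit false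

namespace H91RP

open Finset H54RP

/-- letters -/
abbrev Lt := Fin 3 × Fin 2

/-- displacement of a letter -/
def cc (q N : ℤ) (v : Lt) : ℤ := q * (((v.1 : ℕ) : ℤ) - 1) + N * ((v.2 : ℕ) : ℤ)

/-- block kernels -/
structure Ker (q N : ℤ) where
  m : Lt → ℤ → ℝ
  w : ℤ → ℝ
  lo : ℤ
  hi : ℤ
  m_nonneg : ∀ v j, 0 ≤ m v j
  off : ∀ j, ¬ (lo ≤ j ∧ j < hi) → ∀ v, m v j = 0
  tot : ∀ j, (m (0, 0) j + m (0, 1) j) + (m (1, 0) j + m (1, 1) j) + (m (2, 0) j + m (2, 1) j)
    = 4 * w j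
  l0 : ∀ j, w j ≤ m (0, 0) j + m (0, 1) j
  u0 : ∀ j, m (0, 0) j + m (0, 1) j ≤ 2 * w j
  l2 : ∀ j, w j ≤ m (2, 0) j + m (2, 1) j
  u2 : ∀ j, m (2, 0) j + m (2, 1) j ≤ 2 * w j
  stat : ∀ X, w (blk X) = ∑ v, m v (X - cc q N v)

namespace Ker

variable {q N : ℤ} (K : Ker q N)

/-- mass of the sign `a` -/
noncomputable def M (a : Fin 3) (j : ℤ) : ℝ := K.m (a, 0) j + K.m (a, 1) j

/-- mass of the sign `a` in the state of residue `r` of the block `j` -/
noncomputable def gate (a : Fin 3) (r j : ℤ) : ℝ :=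
  if a = 2 then (if r = 0 then K.w j else if r = 1 then K.M 2 j - K.w j else 0)
  else if a = 1 then
    (if r = 1 then 2 * K.w j - K.M 2 j else if r = 2 then 2 * K.w j - K.M 0 j else 0)
  else (if r = 2 then K.M 0 j - K.w j else if r = 3 then K.w j else 0)

/-- weight of the arc -/
noncomputable def W (X : ℤ) (v : Lt) : ℝ :=
  K.gate v.1 ((X + 1) % 4) (blk X) * (K.m v (blk X) / K.M v.1 (blk X))

theorem M_nonneg (a : Fin 3) (j : ℤ) : 0 ≤ K.M a j :=
  add_nonneg (K.m_nonneg _ _) (K.m_nonneg _ _)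

theorem w_nonneg (j : ℤ) : 0 ≤ K.w j := by
  have h := K.tot j
  have h0 := K.M_nonneg 0 j
  have h1 := K.M_nonneg 1 j
  have h2 := K.M_nonneg 2 j
  unfold M at h0 h1 h2
  linarith

theorem M_le (a : Fin 3) (j : ℤ) : K.M a j ≤ 2 * K.w j := by
  fin_cases a
  · exact K.u0 j
  · have h := K.tot j
    have h0 := K.l0 j
    have h2 := K.l2 j
    change K.m (1, 0) j + K.m (1, 1) j ≤ _
    linarith
  · exact K.u2 j

theorem M1_eq (j : ℤ) : K.M 1 j = (2 * K.w j - K.M 2 j) + (2 * K.w j - K.M 0 j) := by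
  have h := K.tot j
  unfold M
  linarith

theorem gate_two (r j : ℤ) : K.gate 2 r j =
    if r = 0 then K.w j else if r = 1 then K.M 2 j - K.w j else 0 := by
  unfold gate
  rw [if_pos rfl]

theorem gate_one (r j : ℤ) : K.gate 1 r j =
    if r = 1 then 2 * K.w j - K.M 2 j else if r = 2 then 2 * K.w j - K.M 0 j else 0 := by
  unfold gate
  rw [if_neg (by decide), if_pos rfl]

theorem gate_zero' (r j : ℤ) : K.gate 0 r j =
    if r = 2 then K.M 0 j - K.w j else if r = 3 then K.w j else 0 := by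
  unfold gate
  rw [if_neg (by decide), if_neg (by decide)]

theorem gate_nonneg (a : Fin 3) (r j : ℤ) : 0 ≤ K.gate a r j := by
  have h0 := K.w_nonneg j
  have h1 := K.l0 j
  have h2 := K.u0 j
  have h3 := K.l2 j
  have h4 := K.u2 j
  unfold gate M
  split_ifs <;> linarith

theorem gate_zero {a : Fin 3} {j : ℤ} (h : K.M a j = 0) (r : ℤ) : K.gate a r j = 0 := by
  have h0 := K.w_nonneg j
  have h1 := K.l0 j
  have h2 := K.u0 j
  have h3 := K.l2 j
  have h4 := K.u2 j
  have h5 := K.M1_eq j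
  unfold M at *
  unfold gate M
  have ha : a = 0 ∨ a = 1 ∨ a = 2 := by
    fin_cases a <;> simp
  rcases ha with rfl | rfl | rfl
  · rw [if_neg (by decide), if_neg (by decide)]
    split_ifs <;> linarith
  · rw [if_neg (by decide), if_pos rfl]
    split_ifs <;> linarith
  · rw [if_pos rfl]
    split_ifs <;> linarith

theorem W_nonneg (X : ℤ) (v : Lt) : 0 ≤ K.W X v :=
  mul_nonneg (K.gate_nonneg _ _ _) (div_nonneg (K.m_nonneg _ _) (K.M_nonneg _ _))

theorem m_eq_zero {a : Fin 3} {j : ℤ} (h : K.M a j = 0) (d : Fin 2) : K.m (a, d) j = 0 := by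
  have h0 := K.m_nonneg (a, 0) j
  have h1 := K.m_nonneg (a, 1) j
  unfold M at h
  fin_cases d
  · change K.m (a, 0) j = 0
    linarith
  · change K.m (a, 1) j = 0
    linarith

theorem sum_gate (j : ℤ) (a : Fin 3) : ∑ r ∈ range 4, K.gate a (r : ℕ) j = K.M a j := by
  have h5 := K.M1_eq j
  have ha : a = 0 ∨ a = 1 ∨ a = 2 := by
    fin_cases a <;> simp
  simp only [sum_range_succ, sum_range_zero, zero_add]
  rcases ha with rfl | rfl | rfl
  · simp only [gate_zero']
    norm_num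
  · simp only [gate_one]
    norm_num
    linarith
  · simp only [gate_two]
    norm_num

theorem sum_gate_sign (r j : ℤ) (hr0 : 0 ≤ r) (hr : r < 4) :
    K.gate 0 r j + K.gate 1 r j + K.gate 2 r j = K.w j := by
  have h : r = 0 ∨ r = 1 ∨ r = 2 ∨ r = 3 := by omega
  rw [gate_zero', gate_one, gate_two]
  rcases h with rfl | rfl | rfl | rfl <;> norm_num <;> ring

theorem sum_d (X : ℤ) (a : Fin 3) :
    K.W X (a, 0) + K.W X (a, 1) = K.gate a ((X + 1) % 4) (blk X) := by
  unfold W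
  simp only
  by_cases h : K.M a (blk X) = 0
  · rw [K.gate_zero h]; ring
  · rw [← mul_add, ← add_div]
    have : K.m (a, 0) (blk X) + K.m (a, 1) (blk X) = K.M a (blk X) := rfl
    rw [this, div_self h, mul_one]

theorem sum_v (g : Lt → ℝ) : ∑ v, g v = (g (0, 0) + g (0, 1)) + (g (1, 0) + g (1, 1)) +
    (g (2, 0) + g (2, 1)) := by
  rw [Fintype.sum_prod_type, Fin.sum_univ_three, Fin.sum_univ_two, Fin.sum_univ_two,
    Fin.sum_univ_two]

theorem sum_W (X : ℤ) : ∑ v, K.W X v = K.w (blk X) := by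
  rw [sum_v, K.sum_d, K.sum_d, K.sum_d]
  exact K.sum_gate_sign _ _ (Int.emod_nonneg _ (by norm_num)) (Int.emod_lt_of_pos _ (by norm_num))

theorem sum_r (Y : ℤ) (v : Lt) : ∑ r ∈ range 4, K.W (4 * Y - 1 + (r : ℕ)) v = K.m v Y := by
  have h1 : ∀ r ∈ range 4, K.W (4 * Y - 1 + (r : ℕ)) v =
      K.gate v.1 (r : ℕ) Y * (K.m v Y / K.M v.1 Y) := by
    intro r hr
    rw [mem_range] at hr
    unfold W
    rw [blk_eq Y r hr]
    have : (4 * Y - 1 + (r : ℕ) + 1) % 4 = (r : ℕ) := by omega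
    rw [this]
  rw [sum_congr rfl h1, ← sum_mul, K.sum_gate]
  by_cases h : K.M v.1 Y = 0
  · rw [h, zero_mul]
    have := K.m_eq_zero h v.2
    exact this.symm
  · field_simp

/-- the flow of a kernel -/
noncomputable def flow : Flow (cc q N) where
  W := K.W
  nonneg := K.W_nonneg
  supp := Ico (4 * K.lo - 1) (4 * K.hi - 1)
  off := by
    intro X hX v
    rw [mem_Ico] at hX
    have : ¬ (K.lo ≤ blk X ∧ blk X < K.hi) := by
      unfold blk
      omega
    unfold W
    rw [K.off _ this v, zero_div, mul_zero]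
  stat := by
    intro Y
    rw [K.sum_W, K.stat Y]
    refine sum_congr rfl fun v _ => ?_
    rw [K.sum_r]

theorem flow_w (X : ℤ) : K.flow.w X = K.w (blk X) := K.sum_W X

/-- lower bound for the weights -/
theorem W_ge (X : ℤ) (v : Lt) {g0 m0 : ℝ} (hm0 : 0 ≤ m0)
    (hw : K.w (blk X) ≤ 2) (hg : g0 ≤ K.gate v.1 ((X + 1) % 4) (blk X))
    (hm : m0 ≤ K.m v (blk X)) : g0 * m0 / 4 ≤ K.W X v := by
  unfold W
  have hM := K.M_le v.1 (blk X)
  have hM4 : K.M v.1 (blk X) ≤ 4 := by linarith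
  rw [mul_div_assoc]
  refine mul_le_mul hg ?_ (by positivity) (K.gate_nonneg _ _ _)
  rcases (K.M_nonneg v.1 (blk X)).lt_or_eq with hpos | hzero
  · rw [div_le_div_iff₀ (by norm_num) hpos]
    have h1 : m0 * K.M v.1 (blk X) ≤ m0 * 4 := mul_le_mul_of_nonneg_left hM4 hm0
    have h2 : m0 * 4 ≤ K.m v (blk X) * 4 := mul_le_mul_of_nonneg_right hm (by norm_num)
    linarith
  · have h0 := K.m_eq_zero hzero.symm v.2
    have h1 : m0 ≤ 0 := hm.trans (le_of_eq h0)
    have h2 : m0 = 0 := le_antisymm h1 hm0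
    rw [h2, zero_div]
    exact div_nonneg (K.m_nonneg _ _) (K.M_nonneg _ _)

/-- exchange of the signs -/
def rev : Ker (-q) N where
  m v j := K.m (2 - v.1, v.2) j
  w := K.w
  lo := K.lo
  hi := K.hi
  m_nonneg v j := K.m_nonneg _ _
  off j h v := K.off j h _
  tot j := by
    have h := K.tot j
    have e0 : (2 : Fin 3) - 0 = 2 := by decide
    have e1 : (2 : Fin 3) - 1 = 1 := by decide
    have e2 : (2 : Fin 3) - 2 = 0 := by decide
    simp only [e0, e1, e2]
    linarith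
  l0 j := by
    have e0 : (2 : Fin 3) - 0 = 2 := by decide
    simp only [e0]
    exact K.l2 j
  u0 j := by
    have e0 : (2 : Fin 3) - 0 = 2 := by decide
    simp only [e0]
    exact K.u2 j
  l2 j := by
    have e2 : (2 : Fin 3) - 2 = 0 := by decide
    simp only [e2]
    exact K.l0 j
  u2 j := by
    have e2 : (2 : Fin 3) - 2 = 0 := by decide
    simp only [e2]
    exact K.u0 j
  stat X := by
    rw [K.stat X, sum_v, sum_v]
    have e0 : (2 : Fin 3) - 0 = 2 := by decide
    have e1 : (2 : Fin 3) - 1 = 1 := by decide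
    have e2 : (2 : Fin 3) - 2 = 0 := by decide
    have c00 : X - cc (-q) N (0, 0) = X - cc q N (2, 0) := by simp [cc]
    have c01 : X - cc (-q) N (0, 1) = X - cc q N (2, 1) := by simp [cc]
    have c10 : X - cc (-q) N (1, 0) = X - cc q N (1, 0) := by simp [cc]
    have c11 : X - cc (-q) N (1, 1) = X - cc q N (1, 1) := by simp [cc]
    have c20 : X - cc (-q) N (2, 0) = X - cc q N (0, 0) := by simp [cc]
    have c21 : X - cc (-q) N (2, 1) = X - cc q N (0, 1) := by simp [cc]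
    simp only [e0, e1, e2]
    rw [c00, c01, c10, c11, c20, c21]
    ring

end Ker

end H91RP
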