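import Pool.Agent.H91.RP.Nice
import Pool.Agent.H54.RP.Double
import Pool.Agent.H54.RP.Hit

/-!
Team RP (MP_a57ff3_nt), helper91, window `3 ≤ |k|/4^t < 4`. Landing and hitting probabilities.
-/

set_option autoImplicit false

namespace H91RP

open Finset H54RP

variable {q N Q a b : ℤ} {K : Ker q N}

theorem land_sign (hK : Nice K Q a b) {A B : ℤ} (hA : 3 * A ≤ 1 - Q) (hB : 4 * N + Q - 2 ≤ 3 * B)
    {X : ℤ} (h1 : a ≤ blk X) (h2 : blk X < b + Q) (s : Fin 3) :
    3 / 16 * K.gate s ((X + 1) % 4) (blk X) ≤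
      K.W X (s, 0) * ind A B (T (cc q N) (s, 0) X) + K.W X (s, 1) * ind A B (T (cc q N) (s, 1) X) := by
  have hg := K.gate_nonneg s ((X + 1) % 4) (blk X)
  have i0 := ind_nonneg A B (T (cc q N) (s, 0) X)
  have i1 := ind_nonneg A B (T (cc q N) (s, 1) X)
  have w0 := mul_nonneg (K.W_nonneg X (s, 0)) i0
  have w1 := mul_nonneg (K.W_nonneg X (s, 1)) i1
  by_cases hs : s = 1
  · subst hs
    have l0 := hK.land1 (blk X) h1 h2 0
    have l1 := hK.land1 (blk X) h1 h2 1
    have e0 : ind A B (T (cc q N) (1, 0) X) = 1 := by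
      unfold ind T
      rw [if_pos (by rw [mem_Icc]; omega)]
    have e1 : ind A B (T (cc q N) (1, 1) X) = 1 := by
      unfold ind T
      rw [if_pos (by rw [mem_Icc]; omega)]
    have hd := K.sum_d X 1
    rw [e0, e1, mul_one, mul_one, hd]
    linarith
  · obtain ⟨d, hd, l1, l2⟩ := hK.land (blk X) h1 h2 s hs
    have e : ind A B (T (cc q N) (s, d) X) = 1 := by
      unfold ind T
      rw [if_pos (by rw [mem_Icc]; omega)]
    have hW : 3 / 16 * K.gate s ((X + 1) % 4) (blk X) ≤ K.W X (s, d) := by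
      unfold Ker.W
      simp only
      rcases (K.M_nonneg s (blk X)).lt_or_eq with hpos | hzero
      · rw [mul_comm]
        refine mul_le_mul_of_nonneg_left ?_ hg
        rw [le_div_iff₀ hpos]
        exact hd
      · rw [K.gate_zero hzero.symm]
        simp
    have hd2 : d = 0 ∨ d = 1 := by
      fin_cases d
      · left; rfl
      · right; rfl
    rcases hd2 with rfl | rfl
    · rw [e, mul_one]; linarith
    · rw [e, mul_one]; linarith

theorem land_point (hK : Nice K Q a b) {A B : ℤ} (hA : 3 * A ≤ 1 - Q)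
    (hB : 4 * N + Q - 2 ≤ 3 * B) {X : ℤ} (hX : K.flow.w X ≠ 0) :
    3 / 16 ≤ ∑ v, K.flow.K X v * ind A B (T (cc q N) v X) := by
  rw [K.flow_w] at hX
  have hin : a ≤ blk X ∧ blk X < b + Q := by
    by_contra hc
    exact hX (hK.w0 _ hc)
  have hw := hK.w1 _ hin.1 hin.2
  have key : 3 / 16 * K.w (blk X) ≤ ∑ v, K.W X v * ind A B (T (cc q N) v X) := by
    rw [Ker.sum_v]
    have g := K.sum_gate_sign ((X + 1) % 4) (blk X) (Int.emod_nonneg _ (by norm_num))
      (Int.emod_lt_of_pos _ (by norm_num))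
    have s0 := land_sign hK hA hB hin.1 hin.2 0
    have s1 := land_sign hK hA hB hin.1 hin.2 1
    have s2 := land_sign hK hA hB hin.1 hin.2 2
    rw [← g]
    linarith
  have hwp : 0 < K.w (blk X) := by linarith
  have e : ∑ v, K.flow.K X v * ind A B (T (cc q N) v X) =
      (∑ v, K.W X v * ind A B (T (cc q N) v X)) / K.w (blk X) := by
    rw [sum_div]
    refine sum_congr rfl fun v _ => ?_
    unfold Flow.K
    rw [K.flow_w]
    change K.W X v / K.w (blk X) * _ = _
    ring
  rw [e, le_div_iff₀ hwp]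
  exact key

/-- landing after `n + 1` moves -/
theorem Fl_ge {ι : Type*} [Fintype ι] {c : ι → ℤ} (F : Flow c) (Om : ℤ → ℝ) (p : ℝ)
    (h : ∀ X, F.w X ≠ 0 → p ≤ ∑ v, F.K X v * Om (T c v X)) (n : ℕ) :
    ∀ X, F.w X ≠ 0 → p ≤ Fl F (fun _ _ => 1) Om (n + 1) X := by
  induction n with
  | zero =>
    intro X hX
    simp only [Fl, one_mul]
    exact h X hX
  | succ n ih =>
    intro X hX
    have e : Fl F (fun _ _ => 1) Om (n + 1 + 1) X =
        ∑ v, F.K X v * Fl F (fun _ _ => 1) Om (n + 1) (T c v X) := by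
      conv_lhs => rw [Fl]
      rw [one_mul]
    rw [e]
    calc p = ∑ v, F.K X v * p := by rw [← sum_mul, F.sum_K X hX, one_mul]
      _ ≤ _ := by
        refine sum_le_sum fun v _ => ?_
        by_cases hK : F.K X v = 0
        · rw [hK]; simp
        · refine mul_le_mul_of_nonneg_left ?_ (F.K_nonneg X v)
          refine ih _ fun h0 => hK ?_
          have h1 := F.W_le_w_T X v
          rw [h0] at h1
          have h2 : F.W X v = 0 := le_antisymm h1 (F.nonneg X v)
          unfold Flow.K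
          rw [h2, zero_div]

/-- hitting in at most one move -/
theorem eta_ge (hK : Nice K Q a b) {A B : ℤ} (hA : 3 * A ≤ 1 - Q) (hB : 4 * N + Q - 2 ≤ 3 * B)
    {X : ℤ} (hX : K.flow.w X ≠ 0) : 3 / 16 ≤ eta K.flow (fun Y => Y ∈ Icc A B) 1 X := by
  classical
  have h := land_point hK hA hB hX
  by_cases hC : X ∈ Icc A B
  · rw [eta_of_mem K.flow (C := fun Y => Y ∈ Icc A B) hC]
    norm_num
  · have e : eta K.flow (fun Y => Y ∈ Icc A B) 1 X =
        ∑ v, K.flow.K X v * ind A B (T (cc q N) v X) := by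
      unfold eta
      rw [if_neg hC]
      refine sum_congr rfl fun v _ => ?_
      unfold eta ind
      congr 1
      split_ifs <;> rfl
    rw [e]
    exact h

end H91RP
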