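import Pool.Agent.H54.RP.Assemble

/-!
Team RP (MP_a57ff3_nt), helper6. The one-stage form of `reach_core`.
-/

set_option autoImplicit false

namespace H54RP

open Finset

variable {ι : Type*} [Fintype ι] {c : ι → ℤ} {γ : Type*}

/-- everything is reached, one stage -/
theorem reach_core1 (D : LFam c γ) (Gall : Finset γ) (hGG : D.G ⊆ Gall) (hG : 0 < D.G.card)
    (g0 : γ) (hg0 : g0 ∈ Gall) (A B cc : ℤ) (p wM : ℝ) (hp : 0 < p) (hp1 : 2 * p ≤ 1)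
    (hwM : 1 ≤ wM) (r : ℕ) (hr : 2 ≤ r)
    (hw1 : ∀ g ∈ D.G, ∀ X ∈ Icc A B, 1 ≤ (D.F g).w X)
    (hw2 : ∀ g ∈ Gall, ∀ X, (D.F g).w X ≤ wM)
    (hL : D.Land (ind (A + cc) (B - cc)) r (2 * p)) (κ : ℕ) (hκ : 8 * wM ≤ p * (4 / 3 : ℝ) ^ κ)
    (L : ℕ) (hN : 8 * D.kB * 4 ^ L ≤ p * D.G.card) (hc : 2 * 4 ^ L ≤ cc)
    (hAB : A + 5 * 4 ^ L ≤ B) (R : ℝ) (hR : 1 ≤ R) (hlen : ((B : ℝ) - A) ≤ R * 4 ^ L)
    (Cb : ℝ) (hCb : 0 ≤ Cb)
    (base : ∀ f : ℤ → ℝ, (∀ X, f X = 0 ∨ f X = 1) → ∀ E : ℝ, (∀ g ∈ Gall, (D.F g).E1 f ≤ E) →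
      vr f A B 1 ≤ Cb * E)
    (CC : Finset ℤ) (Cl : ℝ) (hCl : 0 ≤ Cl)
    (link : ∀ f : ℤ → ℝ, (∀ X, f X = 0 ∨ f X = 1) → ∀ e : ℝ, (e = 0 ∨ e = 1) → ∀ E : ℝ,
      (∀ g ∈ Gall, (D.F g).E1 f ≤ E) →
      ∑ X ∈ CC, |f X - e| ≤
        Cl * (∑ X ∈ Icc (A + 2 * 4 ^ L) (B - 3 * 4 ^ L), |f X - e| + E))
    (S0 : Finset ℤ) (hS0 : S0 ⊆ (D.F g0).supp) (hS0w : ∀ X ∈ S0, 1 ≤ (D.F g0).w X)
    (m : ℕ) (q : ℝ) (hq0 : 0 < q) (hq : ∀ X ∈ S0, q ≤ eta (D.F g0) (fun Y => Y ∈ CC) m X)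
    (U : ℕ → Set ℤ) (hUU : Monotone U)
    (hstep : ∀ n, ∀ X ∈ U n, ∀ g ∈ Gall, ∀ v, (D.F g).W X v ≠ 0 → T c v X ∈ U (n + 1))
    (hcl : ∀ n, ∀ g ∈ Gall, ∀ X ∈ (D.F g).supp, X ∈ U n → X ∈ S0)
    (h0 : ∃ X ∈ S0, X ∈ U 0)
    (K : ℕ) (hK : (m + (m + 1) * (wM * (Cl * (16 * R * (4 ^ (2 * r) * (L + 1) ^ κ * (Cb + 1)) + 1)))) *
      (2 * wM) ≤ q * K) :
    ∀ X ∈ S0, X ∈ U (2 * K * (Nat.log 2 S0.card + 1)) := by
  classical
  have hwM0 : 0 ≤ wM := by linarith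
  have hmain := reach_all S0 (fun n => S0.filter fun X => X ∈ U n) K
    (by obtain ⟨X, hX, hU⟩ := h0; exact ⟨X, mem_filter.2 ⟨hX, hU⟩⟩)
    (fun n => filter_subset _ _)
    (fun i j hij X hX => by
      rw [mem_filter] at hX ⊢
      exact ⟨hX.1, hUU hij hX.2⟩)
    (fun n => by
      have e1 : S0 \ S0.filter (fun X => X ∈ U n) = S0.filter (fun X => X ∉ U n) := by
        ext X; simp only [mem_sdiff, mem_filter]; tauto
      have e2 : S0.filter (fun X => X ∈ U (n + 1)) \ S0.filter (fun X => X ∈ U n) =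
          S0.filter (fun Y => Y ∈ U (n + 1) ∧ Y ∉ U n) := by
        ext X; simp only [mem_sdiff, mem_filter]; tauto
      rw [e1, e2]
      have h2 : ((min (S0.filter (fun X => X ∈ U n)).card (S0.filter (fun X => X ∉ U n)).card : ℕ)
          : ℝ) ≤ ((K * (S0.filter (fun Y => Y ∈ U (n + 1) ∧ Y ∉ U n)).card : ℕ) : ℝ) := by
        push_cast
        refine le_of_forall_pos_le_add fun ε hε => ?_
        set Δ : ℝ := ((S0.filter (fun Y => Y ∈ U (n + 1) ∧ Y ∉ U n)).card : ℝ) with hΔ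
        have hΔ0 : 0 ≤ Δ := Nat.cast_nonneg _
        have hK0 : (0 : ℝ) ≤ K := Nat.cast_nonneg K
        set q2 : ℝ := (wM * K * (Δ + 1) + 1) / ε with hq2
        have hq20 : 0 < q2 := by
          rw [hq2]
          exact div_pos (by positivity) hε
        have h1 := growth_step D Gall hGG hG g0 hg0 A B cc p wM hp hp1 hwM r hr hw1 hw2 hL κ hκ L hN
          hc hAB R hR hlen Cb hCb base CC Cl hCl link S0 ∅ hS0 hS0w m q hq0 hq g0 hg0
          (empty_subset _) (fun X hX => absurd hX (notMem_empty X)) 0 q2 hq20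
          (fun X hX => absurd hX (notMem_empty X)) (U n) (U (n + 1)) (hUU (Nat.le_succ n))
          (hstep n) (fun g hg X hX hXU => by
            rw [union_empty]; exact hcl (n + 1) g hg X hX hXU)
          K hK (wM * K / q2) (by
            rw [mul_div_cancel₀ _ hq20.ne']
            push_cast
            linarith)
        rw [union_empty] at h1
        have h3 : wM * K / q2 * Δ ≤ ε := by
          rw [div_mul_eq_mul_div, div_le_iff₀ hq20, hq2]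
          rw [mul_div_cancel₀ _ hε.ne']
          nlinarith [mul_nonneg hwM0 hK0]
        have h4 : (K + wM * K / q2) * Δ ≤ K * Δ + ε := by
          rw [add_mul]; linarith
        refine le_trans ?_ h4
        convert h1
      exact_mod_cast h2)
  intro X hX
  have : X ∈ S0.filter (fun X => X ∈ U (2 * K * (Nat.log 2 S0.card + 1))) := by
    have h3 : S0.filter (fun X => X ∈ U (2 * K * (Nat.log 2 S0.card + 1))) = S0 := hmain
    rw [h3]; exact hX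
  exact (mem_filter.1 this).2

end H54RP
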