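import Pool.Agent.H91.RP.Fam
import Pool.Agent.H54.RP.Assemble
import Pool.Agent.H91.RP.One
import Pool.Agent.H6.LvdP2.Graph

/-!
Team RP (MP_a57ff3_nt), helper91, window `3 ≤ |k|/4^t < 4`. Every state of the support is reached.
-/

set_option autoImplicit false

namespace H91RP

open Finset H54RP Pool.Agent.H6.LvdP2

/-- a legal letter is a move of the window graph -/
theorem move_of_leg {k q : ℤ} (hk : k = 4 * q + 1) (t : ℕ) {X : ℤ} {v : Lt}
    (h : legR ((X + 1) % 4) v) : Move k (t + 1) X (T (cc q (4 ^ t)) v X) := by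
  obtain ⟨s, d⟩ := v
  have hd : ((d : ℕ) : ℤ) = 0 ∨ ((d : ℕ) : ℤ) = 1 := by
    fin_cases d <;> simp
  have hp : (4 : ℤ) ^ (t + 1) = 4 * 4 ^ t := by ring
  have hX : 4 * blk X = X - ((X + 1) % 4 - 1) := by unfold blk; omega
  have key : ∀ a e : ℤ, (((s : ℕ) : ℤ) - 1 = a) → (a = -1 ∨ a = 0 ∨ a = 1) → (e = 0 ∨ e = 1) →
      (X + 1) % 4 - 1 + a = e → Move k (t + 1) X (T (cc q (4 ^ t)) (s, d) X) := by
    intro a e hs ha he hr
    refine ⟨a, ((d : ℕ) : ℤ), e, ha, hd, he, ?_⟩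
    unfold T cc
    simp only
    rw [hs, hp, hk, mul_add, hX, ← hr]
    ring
  unfold legR at h
  simp only at h
  rcases h with ⟨h1, h2⟩ | ⟨h1, h2 | h2⟩ | ⟨h1, h2 | h2⟩ | ⟨h1, h2⟩
  · subst h2
    exact key 1 0 (by norm_num) (by norm_num) (by norm_num) (by rw [h1]; norm_num)
  · subst h2
    exact key 1 1 (by norm_num) (by norm_num) (by norm_num) (by rw [h1]; norm_num)
  · subst h2
    exact key 0 0 (by norm_num) (by norm_num) (by norm_num) (by rw [h1]; norm_num)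
  · subst h2
    exact key 0 1 (by norm_num) (by norm_num) (by norm_num) (by rw [h1]; norm_num)
  · subst h2
    exact key (-1) 0 (by norm_num) (by norm_num) (by norm_num) (by rw [h1]; norm_num)
  · subst h2
    exact key (-1) 1 (by norm_num) (by norm_num) (by norm_num) (by rw [h1]; norm_num)

/-- everything in the support of the label `0` is reached -/
theorem reach_supp {k q Q a0 b0 : ℤ} {t n L : ℕ} (hk : k = 4 * q + 1)
    (Kf : Fin (n + 1) → Ker q (4 ^ t))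
    (hKf : ∀ g : Fin (n + 1), Nice (Kf g) Q (a0 + (g : ℕ)) (b0 - (g : ℕ)))
    (hn3 : 3 ≤ n) (h34 : 3 * 4 ^ t ≤ 4 * Q) (hab : 20 ≤ b0 - a0) (ha : 1 ≤ 3 * a0 + Q)
    (ha' : 3 * a0 + Q ≤ 3) (hb : 4 ^ t - 1 ≤ 3 * b0 + 2 * Q) (hb' : 3 * b0 + 2 * Q ≤ 4 ^ t + 1)
    (hQN : Q ≤ 4 ^ t) (hL : 9 * (4 : ℤ) ^ L + 30 ≤ 4 ^ t) (hnL : 1195 * (4 : ℝ) ^ L ≤ n + 1)
    (hq1 : -Q ≤ q) (hq2 : q ≤ Q) (ell : ℕ) (hell : (4 : ℤ) ^ t ≤ 4 ^ ell * 4 ^ L)
    (K : ℕ) (hK : (1 + 2 * (2 * (1 * (16 * 4 ^ (ell + 1) * (4 ^ (2 * 2) * ((L : ℝ) + 1) ^ 18 *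
      (((1 + 5 * ((t + 1 : ℕ) : ℝ)) * 288) + 1)) + 1)))) * (2 * 2) ≤ 3 / 16 * K) :
    ∀ X, 4 * a0 - 1 ≤ X → X < 4 * (b0 + Q) - 1 →
      ∃ m ≤ 2 * K * (Nat.log 2 (4 * (b0 + Q) - 1 - (4 * a0 - 1)).toNat + 1), Reach k (t + 1) m X := by
  set D := fam Kf hKf with hD
  have hDF : ∀ g, D.F g = (Kf g).flow := fun g => rfl
  have hDG : D.G = univ := rfl
  have hcard : D.G.card = n + 1 := by rw [hDG, card_univ, Fintype.card_fin]
  have hDk : D.kB = 14 := rfl
  have p4 : (0 : ℤ) < 4 ^ L := by positivity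
  have pN : (0 : ℤ) < 4 ^ t := by positivity
  have hK0 : Nice (Kf 0) Q a0 b0 := by
    have := hKf 0
    simpa using this
  have h3lt : 3 < n + 1 := by omega
  have hK3 : Nice (Kf ⟨3, h3lt⟩) Q (a0 + 3) (b0 - 3) := by
    have := hKf ⟨3, h3lt⟩
    simpa using this
  have hsupp : ∀ g : Fin (n + 1), (D.F g).supp =
      Ico (4 * (a0 + (g : ℕ)) - 1) (4 * (b0 - (g : ℕ) + Q) - 1) := by
    intro g
    rw [hDF]
    change Ico (4 * (Kf g).lo - 1) (4 * (Kf g).hi - 1) = _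
    rw [(hKf g).lo_eq, (hKf g).hi_eq]
  have hsupp0 : (D.F 0).supp = Ico (4 * a0 - 1) (4 * (b0 + Q) - 1) := by
    rw [hsupp 0]; simp
  have hwF : ∀ g X, (D.F g).w X = (Kf g).w (blk X) := fun g X => by rw [hDF, Ker.flow_w]
  have hcore := reach_core1 D univ (by rw [hDG]) (by rw [hcard]; omega) 0 (mem_univ _)
    (4 * b0 - 1) (4 * (a0 + Q) - 2) (2 * 4 ^ L) (3 / 32) 2 (by norm_num) (by norm_num)
    (by norm_num) 2 le_rfl
    (by
      intro g _ X hX
      rw [mem_Icc] at hX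
      rw [hwF]
      have g0 : (0 : ℤ) ≤ (g : ℕ) := by positivity
      have := (hKf g).wi (blk X) (by unfold blk; omega) (by unfold blk; omega)
      rw [this]; norm_num)
    (by
      intro g _ X
      rw [hwF]
      exact (hKf g).w2 _)
    (by
      intro g _ x hx
      have h1 : ∀ i ∈ range (4 ^ 2), 2 * (3 / 32 : ℝ) ≤ Fl (D.F g) (fun _ _ => 1)
          (ind (4 * b0 - 1 + 2 * 4 ^ L) (4 * (a0 + Q) - 2 - 2 * 4 ^ L)) 2 (x + (i : ℕ)) := by
        intro i hi
        rw [mem_range] at hi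
        have h2 := Fl_ge (D.F g) (ind (4 * b0 - 1 + 2 * 4 ^ L) (4 * (a0 + Q) - 2 - 2 * 4 ^ L))
          (3 / 16) (fun X hX => land_point (hKf g) (by omega) (by omega) hX) 1 (x + (i : ℕ))
          (hx i hi)
        norm_num at h2 ⊢
        linarith
      have h2 := sum_le_sum h1
      rw [sum_const, card_range, nsmul_eq_mul] at h2
      push_cast at h2
      linarith)
    18 (by norm_num) L
    (by
      rw [hcard, hDk]
      push_cast
      linarith)
    le_rfl (by omega) (4 ^ (ell + 1)) (one_le_pow₀ (by norm_num))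
    (by
      have h1 : (4 * (a0 + Q) - 2) - (4 * b0 - 1) ≤ 4 * 4 ^ t := by omega
      have h2 : (4 * (a0 + Q) - 2) - (4 * b0 - 1) ≤ 4 ^ (ell + 1) * 4 ^ L := by
        rw [pow_succ]
        nlinarith
      exact_mod_cast h2)
    ((1 + 5 * ((t + 1 : ℕ) : ℝ)) * 288) (by positivity)
    (by
      intro f _ E hE
      have e0 := hE 0 (mem_univ _)
      have e3 := hE ⟨3, h3lt⟩ (mem_univ _)
      have := base hK0 hK3 h34 (by omega) ha ha' hb hb' f e0 e3 (t + 1)
        (le_of_eq (by rw [pow_succ]; ring))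
      refine this.trans (le_of_eq ?_)
      ring)
    (Icc (4 * b0 - 1 + 2 * 4 ^ L) (4 * (a0 + Q) - 2 - 3 * 4 ^ L)) 1 (by norm_num)
    (by
      intro f _ e _ E hE
      have e0 := ((D.F 0).E1_nonneg f).trans (hE 0 (mem_univ _))
      rw [one_mul]
      linarith)
    (D.F 0).supp (Subset.refl _)
    (by
      intro X hX
      rw [hsupp0, mem_Ico] at hX
      rw [hwF]
      exact hK0.w1 _ (by unfold blk; omega) (by unfold blk; omega))
    1 (3 / 16) (by norm_num)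
    (by
      intro X hX
      rw [hsupp0, mem_Ico] at hX
      refine eta_ge hK0 (by omega) (by omega) ?_
      rw [Ker.flow_w]
      have := hK0.w1 (blk X) (by unfold blk; omega) (by unfold blk; omega)
      intro h0
      rw [h0] at this
      norm_num at this)
    (fun n => {X | ∃ m ≤ n, Reach k (t + 1) m X})
    (by
      intro i j hij X hX
      obtain ⟨m, hm, hR⟩ := hX
      exact ⟨m, hm.trans hij, hR⟩)
    (by
      rintro i X ⟨m, hm, hR⟩ g _ v hv
      refine ⟨m + 1, by omega, X, hR, ?_⟩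
      exact move_of_leg hk t (leg_of_W (Kf g) hv))
    (by
      intro i g _ X hX _
      rw [hsupp, mem_Ico] at hX
      rw [hsupp0, mem_Ico]
      have g0 : (0 : ℤ) ≤ (g : ℕ) := by positivity
      omega)
    (by
      refine ⟨q, ?_, 0, le_rfl, ?_⟩
      · rw [hsupp0, mem_Ico]
        omega
      · change 4 * q = k - 1
        omega)
    K
    (by
      have := hK
      have h2 : (1 : ℝ) + 1 = 2 := by norm_num
      push_cast at this ⊢
      rw [h2]
      exact this)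
  intro X h1 h2
  have := hcore X (by rw [hsupp0, mem_Ico]; exact ⟨h1, h2⟩)
  obtain ⟨m, hm, hR⟩ := this
  refine ⟨m, ?_, hR⟩
  rw [hsupp0, Int.card_Ico] at hm
  exact hm

end H91RP
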