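import Pool.Agent.H91.RP.Zone
import Pool.Agent.H91.RP.Assemble2
import Pool.Agent.H91.RP.Main

/-!
Team RP (MP_a57ff3_nt), helper91, window `3 ≤ |k|/4^t < 4`. Every state of the support is reached,
for all `N - Q ≥ 1000`.
-/

set_option autoImplicit false

namespace H91RP

open Finset H54RP Pool.Agent.H6.LvdP2

/-- everything in the support of the label `0` is reached -/
theorem reach_supp2 {k q Q a0 b0 : ℤ} {t n L : ℕ} (hk : k = 4 * q + 1)
    (Kf : Fin (n + 1) → Ker q (4 ^ t))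
    (hKf : ∀ g : Fin (n + 1), Nice (Kf g) Q (a0 + (g : ℕ)) (b0 - (g : ℕ))) (mo : Lt → ℝ)
    (hM : ∀ g : Fin (n + 1), Mid (Kf g) mo (b0 + 4 ^ t - Q) (a0 + 2 * Q - 4 ^ t))
    (hn3 : 3 ≤ n) (h34 : 3 * 4 ^ t ≤ 4 * Q) (hab : 20 ≤ b0 - a0) (ha : 1 ≤ 3 * a0 + Q)
    (ha' : 3 * a0 + Q ≤ 3) (hb : 4 ^ t - 1 ≤ 3 * b0 + 2 * Q) (hb' : 3 * b0 + 2 * Q ≤ 4 ^ t + 1)
    (hQN : Q ≤ 4 ^ t) (hL : 4000000 * (4 : ℤ) ^ L + 30 ≤ 4 ^ t) (hn : 4 ^ t - Q ≤ 16 * ((n : ℤ) + 1))
    (hnab : (n : ℤ) ≤ b0 - a0)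
    (hq1 : -Q ≤ q) (hq2 : q ≤ Q) (ell : ℕ) (hell : (4 : ℤ) ^ t ≤ 4 ^ ell * 4 ^ L)
    (K : ℕ) (hK : (1 + 2 * (2 * (1 * (16 * 4 ^ (ell + 1) * (4 ^ (2 * 2) * ((L : ℝ) + 1) ^ 18 *
      (((1 + 5 * ((t + 1 : ℕ) : ℝ)) * 288) + 1)) + 1)))) * (2 * 2) ≤ 3 / 16 * K) :
    ∀ X, 4 * a0 - 1 ≤ X → X < 4 * (b0 + Q) - 1 →
      ∃ m ≤ 2 * K * (Nat.log 2 (4 * (b0 + Q) - 1 - (4 * a0 - 1)).toNat + 1), Reach k (t + 1) m X := by
  set D := fam Kf hKf with hD
  have hDF : ∀ g, D.F g = (Kf g).flow := fun g => rfl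
  have hDG : D.G = univ := rfl
  have hcard : D.G.card = n + 1 := by rw [hDG, card_univ, Fintype.card_fin]
  have p4 : (0 : ℤ) < 4 ^ L := by positivity
  have pN : (0 : ℤ) < 4 ^ t := by positivity
  have hK0 : Nice (Kf 0) Q a0 b0 := by
    have := hKf 0
    simpa using this
  have h3lt : 3 < n + 1 := by omega
  have hK3 : Nice (Kf ⟨3, h3lt⟩) Q (a0 + 3) (b0 - 3) := by
    have := hKf ⟨3, h3lt⟩
    simpa using this
  have hsupp : ∀ g : Fin (n + 1), (D.F g).supp =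
      Ico (4 * (a0 + (g : ℕ)) - 1) (4 * (b0 - (g : ℕ) + Q) - 1) := by
    intro g
    rw [hDF]
    change Ico (4 * (Kf g).lo - 1) (4 * (Kf g).hi - 1) = _
    rw [(hKf g).lo_eq, (hKf g).hi_eq]
  have hsupp0 : (D.F 0).supp = Ico (4 * a0 - 1) (4 * (b0 + Q) - 1) := by
    rw [hsupp 0]; simp
  have hwF : ∀ g X, (D.F g).w X = (Kf g).w (blk X) := fun g X => by rw [hDF, Ker.flow_w]
  have hcore := reach_core2 D univ (by rw [hDG]) (by rw [hcard]; omega) 0 (mem_univ _)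
    (4 * b0 - 1) (4 * (a0 + Q) - 2) 262145 (by norm_num) (3 / 32) 2 (by norm_num) (by norm_num)
    (by norm_num) 2 le_rfl
    (by
      intro g _ X hX
      rw [mem_Icc] at hX
      rw [hwF]
      have g0 : (0 : ℤ) ≤ (g : ℕ) := by positivity
      have := (hKf g).wi (blk X) (by unfold blk; omega) (by unfold blk; omega)
      rw [this]; norm_num)
    (by
      intro g _ X
      rw [hwF]
      exact (hKf g).w2 _)
    18 (by norm_num) L
    (by
      intro L1 M hL1 hLM x hx1 hx2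
      obtain ⟨m, rfl⟩ : ∃ m, L1 = m + 1 := ⟨L1 - 1, by omega⟩
      have e1 : (4 : ℤ) ^ (m + 1 + M) = 4 ^ M * 4 ^ (m + 1) := by rw [← pow_add]; congr 1; omega
      have e2 : (4 : ℤ) ^ (m + 1) ≤ 4 ^ (m + 1 + M) := pow_le_pow_right₀ (by norm_num) (by omega)
      have e3 : (4 : ℤ) ^ (m + 1 + M) ≤ 4 ^ L := pow_le_pow_right₀ (by norm_num) hLM
      have e4 : (0 : ℤ) < 4 ^ (m + 1) := by positivity
      have := safe_zone Kf hKf mo hM hq1 hq2 (by omega) ha ha' hb hb' hn hnab (4 ^ M)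
        (one_le_pow₀ (by norm_num)) m x (4 * b0 - 1 + 262145 * 4 ^ (m + 1 + M))
        (4 * (a0 + Q) - 2 - 262145 * 4 ^ (m + 1 + M))
        (by rw [← e1]; omega) (by rw [← e1]; omega) (by omega) (by omega) (by omega) (by omega)
      rw [hcard, hDG]
      push_cast
      exact this)
    (by omega) (4 ^ (ell + 1)) (one_le_pow₀ (by norm_num))
    (by
      have h1 : (4 * (a0 + Q) - 2) - (4 * b0 - 1) ≤ 4 * 4 ^ t := by omega
      have h2 : (4 * (a0 + Q) - 2) - (4 * b0 - 1) ≤ 4 ^ (ell + 1) * 4 ^ L := by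
        rw [pow_succ]
        nlinarith
      exact_mod_cast h2)
    ((1 + 5 * ((t + 1 : ℕ) : ℝ)) * 288) (by positivity)
    (by
      intro f _ E hE
      have e0 := hE 0 (mem_univ _)
      have e3 := hE ⟨3, h3lt⟩ (mem_univ _)
      have := base hK0 hK3 h34 (by omega) ha ha' hb hb' f e0 e3 (t + 1)
        (le_of_eq (by rw [pow_succ]; ring))
      refine this.trans (le_of_eq ?_)
      ring)
    (Icc (4 * b0 - 1 + 262145 * 4 ^ L) (4 * (a0 + Q) - 2 - (262145 + 1) * 4 ^ L)) 1 (by norm_num)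
    (by
      intro f _ e _ E hE
      have e0 := ((D.F 0).E1_nonneg f).trans (hE 0 (mem_univ _))
      rw [one_mul]
      linarith)
    (D.F 0).supp (Subset.refl _)
    (by
      intro X hX
      rw [hsupp0, mem_Ico] at hX
      rw [hwF]
      exact hK0.w1 _ (by unfold blk; omega) (by unfold blk; omega))
    1 (3 / 16) (by norm_num)
    (by
      intro X hX
      rw [hsupp0, mem_Ico] at hX
      refine eta_ge hK0 (by omega) (by omega) ?_
      rw [Ker.flow_w]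
      have := hK0.w1 (blk X) (by unfold blk; omega) (by unfold blk; omega)
      intro h0
      rw [h0] at this
      norm_num at this)
    (fun n => {X | ∃ m ≤ n, Reach k (t + 1) m X})
    (by
      intro i j hij X hX
      obtain ⟨m, hm, hR⟩ := hX
      exact ⟨m, hm.trans hij, hR⟩)
    (by
      rintro i X ⟨m, hm, hR⟩ g _ v hv
      refine ⟨m + 1, by omega, X, hR, ?_⟩
      exact move_of_leg hk t (leg_of_W (Kf g) hv))
    (by
      intro i g _ X hX _
      rw [hsupp, mem_Ico] at hX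
      rw [hsupp0, mem_Ico]
      have g0 : (0 : ℤ) ≤ (g : ℕ) := by positivity
      omega)
    (by
      refine ⟨q, ?_, 0, le_rfl, ?_⟩
      · rw [hsupp0, mem_Ico]
        omega
      · change 4 * q = k - 1
        omega)
    K
    (by
      have := hK
      have h2 : (1 : ℝ) + 1 = 2 := by norm_num
      push_cast at this ⊢
      rw [h2]
      exact this)
  intro X h1 h2
  have := hcore X (by rw [hsupp0, mem_Ico]; exact ⟨h1, h2⟩)
  obtain ⟨m, hm, hR⟩ := this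
  refine ⟨m, ?_, hR⟩
  rw [hsupp0, Int.card_Ico] at hm
  exact hm

end H91RP
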