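import Pool.Agent.H91.RP.Pair

/-!
Team RP (MP_a57ff3_nt), helper91, window `3 ≤ |k|/4^t < 4`. The properties of the pair kernel which
are used later; they are invariant under the exchange of the signs.
-/

set_option autoImplicit false

namespace H91RP

open Finset H54RP

/-- the thresholds of the pair `a, b` -/
def th (N Q a b : ℤ) : Fin 14 → ℤ :=
  ![a, 4 * a + Q - 1, a + N - Q, 4 * a + N - 1, a + 2 * Q - N, 4 * a + 3 * Q - N - 1, a + Q,
    b, 4 * b + Q - 1, b + N - Q, b + 2 * Q - N, 4 * b + 3 * Q - N - 1, b + Q,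
    4 * b + 4 * Q - 2 * N - 1]

/-- properties of a kernel with components `a, b` -/
structure Nice {q N : ℤ} (K : Ker q N) (Q a b : ℤ) : Prop where
  lo_eq : K.lo = a
  hi_eq : K.hi = b + Q
  w2 : ∀ j, K.w j ≤ 2
  w1 : ∀ j, a ≤ j → j < b + Q → 1 ≤ K.w j
  w0 : ∀ j, ¬ (a ≤ j ∧ j < b + Q) → K.w j = 0
  wi : ∀ j, b ≤ j → j < a + Q → K.w j = 2
  land : ∀ j, a ≤ j → j < b + Q → ∀ s : Fin 3, s ≠ 1 → ∃ d : Fin 2,
    3 / 16 * K.M s j ≤ K.m (s, d) j ∧ 1 - Q ≤ 3 * (j + cc q N (s, d)) ∧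
      3 * (j + cc q N (s, d)) ≤ 4 * N + Q - 2
  land1 : ∀ j, a ≤ j → j < b + Q → ∀ d : Fin 2, 1 - Q ≤ 3 * (j + cc q N (1, d)) ∧
      3 * (j + cc q N (1, d)) ≤ 4 * N + Q - 2
  base1 : ∀ s : Fin 3, s ≠ 1 → ∃ d : Fin 2, ∀ j, b ≤ j → j < a + Q →
    1 ≤ K.m (s, d) j ∧ 5 / 2 ≤ K.M s j
  base2 : ∀ j, b ≤ j → j < a + Q → 1 / 4 ≤ K.m (1, 0) j
  base3 : ∀ j, b ≤ j → j < a + Q → ¬ (a + N - Q ≤ j ∧ j < 4 * a + N - 1) →
    ¬ (4 * b + 4 * Q - 2 * N - 1 ≤ j ∧ j < b + 2 * Q - N) → ∀ s : Fin 3, s ≠ 1 → K.M s j ≤ 15 / 4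
  unif : ∀ j j', (∀ i, th N Q a b i ≤ j ↔ th N Q a b i ≤ j') →
    (∀ v, K.m v j = K.m v j') ∧ K.w j = K.w j'

variable {N Q a b : ℤ}

theorem pw_values (h : PC N Q a b) (j : ℤ) : pw Q a b j ≤ 2 ∧
    (a ≤ j → j < b + Q → 1 ≤ pw Q a b j) ∧ (¬ (a ≤ j ∧ j < b + Q) → pw Q a b j = 0) ∧
    (b ≤ j → j < a + Q → pw Q a b j = 2) := by
  obtain ⟨h1, h2, h3, h4, h5, h6, h7⟩ := h
  unfold pw Hv
  refine ⟨?_, ?_, ?_, ?_⟩
  · split_ifs <;> first | (exfalso; omega) | norm_num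
  · intro _ _
    split_ifs <;> first | (exfalso; omega) | norm_num
  · intro _
    split_ifs <;> first | (exfalso; omega) | norm_num
  · intro _ _
    split_ifs <;> first | (exfalso; omega) | norm_num

theorem pm_land (h : PC N Q a b) {j : ℤ} (hj1 : a ≤ j) (hj2 : j < b + Q) :
    (3 / 4 ≤ pm N Q a b (2, 0) j ∨ (pm N Q a b (2, 0) j = 0 ∧ j < b)) ∧
    (3 / 4 ≤ pm N Q a b (0, 1) j ∨ (pm N Q a b (0, 1) j = 0 ∧ a + Q ≤ j)) := by
  have hA := h.condA
  have hB := h.condB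
  obtain ⟨h1, h2, h3, h4, h5, h6, h7⟩ := h
  have u1 := hA.u0 j
  have u3 := hA.u0 (j + N - Q)
  have v1 := hB.u0 j
  have v3 := hB.u0 (j + N - Q)
  have n1 := cm_nonneg hA (2, 0) j
  have n2 := cm_nonneg hA (0, 1) j
  have n3 := cm_nonneg hB (2, 0) j
  have n4 := cm_nonneg hB (0, 1) j
  unfold pm
  by_cases ja : a ≤ j ∧ j < a + Q
  · by_cases jb : b ≤ j ∧ j < b + Q
    · constructor
      · left
        rcases cm_in hA ja with ⟨r1, V⟩ | ⟨r1, r2, V⟩ | ⟨r1, r2, V⟩ | ⟨r1, r2, V⟩ | ⟨r1, V⟩ <;>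
          rcases cm_in hB jb with ⟨s1, U⟩ | ⟨s1, s2, U⟩ | ⟨s1, s2, U⟩ | ⟨s1, s2, U⟩ | ⟨s1, U⟩ <;>
          first
          | (exfalso; omega)
          | (rw [V.e20, U.e20]; linarith)
      · left
        rcases cm_in hA ja with ⟨r1, V⟩ | ⟨r1, r2, V⟩ | ⟨r1, r2, V⟩ | ⟨r1, r2, V⟩ | ⟨r1, V⟩ <;>
          rcases cm_in hB jb with ⟨s1, U⟩ | ⟨s1, s2, U⟩ | ⟨s1, s2, U⟩ | ⟨s1, s2, U⟩ | ⟨s1, U⟩ <;>
          first
          | (exfalso; omega)
          | (rw [V.e01, U.e01]; linarith)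
    · rw [cm_out hB jb, cm_out hB jb]
      constructor
      · rcases cm_in hA ja with ⟨r1, V⟩ | ⟨r1, r2, V⟩ | ⟨r1, r2, V⟩ | ⟨r1, r2, V⟩ | ⟨r1, V⟩ <;>
          first
          | (exfalso; omega)
          | (rw [V.e20]; left; linarith)
          | (rw [V.e20]; right; constructor
             · norm_num
             · omega)
      · rcases cm_in hA ja with ⟨r1, V⟩ | ⟨r1, r2, V⟩ | ⟨r1, r2, V⟩ | ⟨r1, r2, V⟩ | ⟨r1, V⟩ <;>
          first
          | (exfalso; omega)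
          | (rw [V.e01]; left; linarith)
  · rw [cm_out hA ja, cm_out hA ja]
    have jb : b ≤ j ∧ j < b + Q := by omega
    constructor
    · rcases cm_in hB jb with ⟨s1, U⟩ | ⟨s1, s2, U⟩ | ⟨s1, s2, U⟩ | ⟨s1, s2, U⟩ | ⟨s1, U⟩ <;>
        first
        | (exfalso; omega)
        | (rw [U.e20]; left; linarith)
    · rcases cm_in hB jb with ⟨s1, U⟩ | ⟨s1, s2, U⟩ | ⟨s1, s2, U⟩ | ⟨s1, s2, U⟩ | ⟨s1, U⟩ <;>
        first
        | (exfalso; omega)
        | (rw [U.e01]; left; linarith)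
        | (rw [U.e01]; right; constructor
           · norm_num
           · omega)

theorem pm_base (h : PC N Q a b) {j : ℤ} (hj1 : b ≤ j) (hj2 : j < a + Q) :
    1 ≤ pm N Q a b (2, 1) j ∧ 5 / 2 ≤ pm N Q a b (2, 0) j + pm N Q a b (2, 1) j ∧
    1 ≤ pm N Q a b (0, 0) j ∧ 5 / 2 ≤ pm N Q a b (0, 0) j + pm N Q a b (0, 1) j ∧
    1 / 4 ≤ pm N Q a b (1, 0) j ∧
    (¬ (a + N - Q ≤ j ∧ j < 4 * a + N - 1) →
      pm N Q a b (2, 0) j + pm N Q a b (2, 1) j ≤ 15 / 4) ∧
    (¬ (4 * b + 4 * Q - 2 * N - 1 ≤ j ∧ j < b + 2 * Q - N) →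
      pm N Q a b (0, 0) j + pm N Q a b (0, 1) j ≤ 15 / 4) := by
  have hA := h.condA
  have hB := h.condB
  obtain ⟨h1, h2, h3, h4, h5, h6, h7⟩ := h
  have u1 := hA.u0 j
  have u2 := hA.u1 j
  have u3 := hA.u0 (j + N - Q)
  have u4 := hA.u1 (j + N - Q)
  have v1 := hB.u0 j
  have v2 := hB.u1 j
  have v3 := hB.u0 (j + N - Q)
  have v4 := hB.u1 (j + N - Q)
  have k1 : 4 * a + N - 1 ≤ j → ua N a j = 3 / 4 := fun hh => by
    unfold ua; rw [if_neg (by omega)]
  have k2 : j < 4 * b + 3 * Q - N - 1 → ub N Q b j = 3 / 4 := fun hh => by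
    unfold ub; rw [if_neg (by omega)]
  have k3 : j < 4 * b + 4 * Q - 2 * N - 1 → ub N Q b (j + N - Q) = 3 / 4 := fun hh => by
    unfold ub; rw [if_neg (by omega)]
  have ja : a ≤ j ∧ j < a + Q := by omega
  have jb : b ≤ j ∧ j < b + Q := by omega
  have k2' := k2 (by omega)
  unfold pm
  rcases cm_in hA ja with ⟨r1, V⟩ | ⟨r1, r2, V⟩ | ⟨r1, r2, V⟩ | ⟨r1, r2, V⟩ | ⟨r1, V⟩ <;>
    rcases cm_in hB jb with ⟨s1, U⟩ | ⟨s1, s2, U⟩ | ⟨s1, s2, U⟩ | ⟨s1, s2, U⟩ | ⟨s1, U⟩ <;>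
    first
    | (exfalso; omega)
    | (rw [V.e00, V.e01, V.e10, V.e20, V.e21, U.e00, U.e01, U.e10, U.e20, U.e21]
       refine ⟨?_, ?_, ?_, ?_, ?_, ?_, ?_⟩
       · linarith
       · linarith
       · linarith
       · linarith
       · linarith
       · intro hs
         first
         | linarith
         | (have := k1 (by omega); linarith)
       · intro hs
         first
         | linarith
         | (have := k3 (by omega); linarith))

theorem Hv_congr {θ j j' : ℤ} (h : θ ≤ j ↔ θ ≤ j') : Hv (j - θ) = Hv (j' - θ) := by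
  unfold Hv
  by_cases hh : θ ≤ j
  · rw [if_pos (by omega), if_pos (by have := h.1 hh; omega)]
  · rw [if_neg (by omega), if_neg (by have := mt h.2 hh; omega)]

theorem ua_congr {θ j j' : ℤ} (h : θ ≤ j ↔ θ ≤ j') (c : ℤ) (hc : θ = 4 * a + N - 1 - c) :
    ua N a (j + c) = ua N a (j' + c) := by
  unfold ua
  by_cases hh : θ ≤ j
  · rw [if_neg (by omega), if_neg (by have := h.1 hh; omega)]
  · rw [if_pos (by omega), if_pos (by have := mt h.2 hh; omega)]

theorem ub_congr {θ j j' : ℤ} (h : θ ≤ j ↔ θ ≤ j') (c : ℤ)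
    (hc : θ = 4 * b + 3 * Q - N - 1 - c) : ub N Q b (j + c) = ub N Q b (j' + c) := by
  unfold ub
  by_cases hh : θ ≤ j
  · rw [if_pos (by omega), if_pos (by have := h.1 hh; omega)]
  · rw [if_neg (by omega), if_neg (by have := mt h.2 hh; omega)]

theorem pm_unif (N Q a b j j' : ℤ) (h : ∀ i, th N Q a b i ≤ j ↔ th N Q a b i ≤ j') :
    (∀ v, pm N Q a b v j = pm N Q a b v j') ∧ pw Q a b j = pw Q a b j' := by
  have e0 : Hv (j - a) = Hv (j' - a) := Hv_congr (h 0)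
  have e1 : Hv (j - (4 * a + Q - 1)) = Hv (j' - (4 * a + Q - 1)) := Hv_congr (h 1)
  have e2 : Hv (j - (a + N - Q)) = Hv (j' - (a + N - Q)) := Hv_congr (h 2)
  have e4 : Hv (j - (a + 2 * Q - N)) = Hv (j' - (a + 2 * Q - N)) := Hv_congr (h 4)
  have e5 : Hv (j - (4 * a + 3 * Q - N - 1)) = Hv (j' - (4 * a + 3 * Q - N - 1)) := Hv_congr (h 5)
  have e6 : Hv (j - (a + Q)) = Hv (j' - (a + Q)) := Hv_congr (h 6)
  have e7 : Hv (j - b) = Hv (j' - b) := Hv_congr (h 7)
  have e8 : Hv (j - (4 * b + Q - 1)) = Hv (j' - (4 * b + Q - 1)) := Hv_congr (h 8)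
  have e9 : Hv (j - (b + N - Q)) = Hv (j' - (b + N - Q)) := Hv_congr (h 9)
  have e10 : Hv (j - (b + 2 * Q - N)) = Hv (j' - (b + 2 * Q - N)) := Hv_congr (h 10)
  have e11 : Hv (j - (4 * b + 3 * Q - N - 1)) = Hv (j' - (4 * b + 3 * Q - N - 1)) :=
    Hv_congr (h 11)
  have e12 : Hv (j - (b + Q)) = Hv (j' - (b + Q)) := Hv_congr (h 12)
  have a1 : ua N a j = ua N a j' := by
    have := ua_congr (N := N) (a := a) (h 3) 0 (by change 4 * a + N - 1 = _; ring)
    simpa using this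
  have a2 : ua N a (j + N - Q) = ua N a (j' + N - Q) := by
    have := ua_congr (N := N) (a := a) (h 1) (N - Q) (by change 4 * a + Q - 1 = _; ring)
    rw [add_sub_assoc, add_sub_assoc]
    exact this
  have b1 : ub N Q b j = ub N Q b j' := by
    have := ub_congr (N := N) (Q := Q) (b := b) (h 11) 0
      (by change 4 * b + 3 * Q - N - 1 = _; ring)
    simpa using this
  have b2 : ub N Q b (j + N - Q) = ub N Q b (j' + N - Q) := by
    have := ub_congr (N := N) (Q := Q) (b := b) (h 13) (N - Q)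
      (by change 4 * b + 4 * Q - 2 * N - 1 = _; ring)
    rw [add_sub_assoc, add_sub_assoc]
    exact this
  clear h
  constructor
  · rintro ⟨s, d⟩
    unfold pm
    fin_cases s <;> fin_cases d <;>
      simp only [cm, e0, e1, e2, e4, e5, e6, e7, e8, e9, e10, e11, e12, a1, a2, b1, b2]
  · unfold pw
    rw [e0, e6, e7, e12]

/-- the pair kernel is nice -/
theorem nice_pair (h : PC N Q a b) : Nice (pair h) Q a b where
  lo_eq := rfl
  hi_eq := rfl
  w2 j := (pw_values h j).1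
  w1 j := (pw_values h j).2.1
  w0 j := (pw_values h j).2.2.1
  wi j := (pw_values h j).2.2.2
  land := by
    intro j hj1 hj2 s hs
    have hl := pm_land h hj1 hj2
    have hM := (pair h).M_le s j
    have hw := (pw_values h j).1
    have hM4 : (pair h).M s j ≤ 4 := by
      have : (pair h).w j = pw Q a b j := rfl
      linarith
    have h1 := h.h34
    have h2 := h.hQN
    have h3 := h.hN
    have h4 := h.ha0
    have h5 := h.hb1
    have h6 := h.hab
    have h7 := h.hba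
    have hs' : s = 0 ∨ s = 2 := by
      fin_cases s
      · left; rfl
      · exact absurd rfl hs
      · right; rfl
    rcases hs' with rfl | rfl
    · rcases hl.2 with hh | ⟨hh, hj⟩
      · refine ⟨1, ?_, ?_, ?_⟩
        · change _ ≤ pm N Q a b (0, 1) j
          linarith
        · simp [cc]; omega
        · simp [cc]; omega
      · refine ⟨0, ?_, ?_, ?_⟩
        · have e : (pair h).M 0 j = pm N Q a b (0, 0) j + pm N Q a b (0, 1) j := rfl
          have h0 : 0 ≤ pm N Q a b (0, 0) j := (pair h).m_nonneg (0, 0) j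
          change _ ≤ pm N Q a b (0, 0) j
          rw [e, hh]
          linarith
        · simp [cc]; omega
        · simp [cc]; omega
    · rcases hl.1 with hh | ⟨hh, hj⟩
      · refine ⟨0, ?_, ?_, ?_⟩
        · change _ ≤ pm N Q a b (2, 0) j
          linarith
        · simp [cc]; omega
        · simp [cc]; omega
      · refine ⟨1, ?_, ?_, ?_⟩
        · have e : (pair h).M 2 j = pm N Q a b (2, 0) j + pm N Q a b (2, 1) j := rfl
          have h0 : 0 ≤ pm N Q a b (2, 1) j := (pair h).m_nonneg (2, 1) j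
          change _ ≤ pm N Q a b (2, 1) j
          rw [e, hh]
          linarith
        · simp [cc]; omega
        · simp [cc]; omega
  land1 := by
    intro j hj1 hj2 d
    obtain ⟨h1, h2, h3, h4, h5, h6, h7⟩ := h
    fin_cases d
    · simp [cc]; omega
    · simp [cc]; omega
  base1 := by
    intro s hs
    have hs' : s = 0 ∨ s = 2 := by
      fin_cases s
      · left; rfl
      · exact absurd rfl hs
      · right; rfl
    rcases hs' with rfl | rfl
    · refine ⟨0, fun j hj1 hj2 => ?_⟩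
      have hb := pm_base h hj1 hj2
      exact ⟨hb.2.2.1, hb.2.2.2.1⟩
    · refine ⟨1, fun j hj1 hj2 => ?_⟩
      have hb := pm_base h hj1 hj2
      exact ⟨hb.1, hb.2.1⟩
  base2 j hj1 hj2 := (pm_base h hj1 hj2).2.2.2.2.1
  base3 := by
    intro j hj1 hj2 hs1 hs2 s hs
    have hb := pm_base h hj1 hj2
    have hs' : s = 0 ∨ s = 2 := by
      fin_cases s
      · left; rfl
      · exact absurd rfl hs
      · right; rfl
    rcases hs' with rfl | rfl
    · exact hb.2.2.2.2.2.2 hs2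
    · exact hb.2.2.2.2.2.1 hs1
  unif j j' hh := pm_unif N Q a b j j' hh

/-- exchange of the signs -/
theorem Nice.rev {q : ℤ} {K : Ker q N} (h : Nice K Q a b) : Nice K.rev Q a b := by
  have e0 : (2 : Fin 3) - 0 = 2 := by decide
  have e1 : (2 : Fin 3) - 1 = 1 := by decide
  have e2 : (2 : Fin 3) - 2 = 0 := by decide
  have hcc : ∀ (s : Fin 3) (d : Fin 2), cc (-q) N (s, d) = cc q N (2 - s, d) := by
    intro s d
    unfold cc
    fin_cases s
    · simp only [Fin.zero_eta, e0]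
      norm_num
    · simp only [Fin.mk_one, e1]
      norm_num
    · simp only [Fin.reduceFinMk, e2]
      norm_num
  have hM : ∀ (s : Fin 3) (j : ℤ), K.rev.M s j = K.M (2 - s) j := fun s j => rfl
  have hne : ∀ s : Fin 3, s ≠ 1 → (2 : Fin 3) - s ≠ 1 := by decide
  exact
  { lo_eq := h.lo_eq
    hi_eq := h.hi_eq
    w2 := h.w2
    w1 := h.w1
    w0 := h.w0
    wi := h.wi
    land := by
      intro j hj1 hj2 s hs
      obtain ⟨d, hd⟩ := h.land j hj1 hj2 (2 - s) (hne s hs)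
      refine ⟨d, ?_⟩
      rw [hcc, hM]
      exact hd
    land1 := by
      intro j hj1 hj2 d
      rw [hcc, e1]
      exact h.land1 j hj1 hj2 d
    base1 := by
      intro s hs
      obtain ⟨d, hd⟩ := h.base1 (2 - s) (hne s hs)
      exact ⟨d, hd⟩
    base2 := by
      intro j hj1 hj2
      have := h.base2 j hj1 hj2
      change 1 / 4 ≤ K.m (2 - 1, 0) j
      rw [e1]
      exact this
    base3 := by
      intro j hj1 hj2 hs1 hs2 s hs
      rw [hM]
      exact h.base3 j hj1 hj2 hs1 hs2 _ (hne s hs)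
    unif := by
      intro j j' hh
      obtain ⟨g1, g2⟩ := h.unif j j' hh
      exact ⟨fun v => g1 _, g2⟩ }

end H91RP
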