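import Pool.Agent.H91.RP.Comp

/-!
Team RP (MP_a57ff3_nt), helper91, window `3 ≤ |k|/4^t < 4`. The kernel with two components `a < b`.
-/

set_option autoImplicit false

namespace H91RP

open Finset H54RP

/-- free function of the first component -/
noncomputable def ua (N a : ℤ) (T : ℤ) : ℝ := if T < 4 * a + N - 1 then 1 else 3 / 4

/-- free function of the second component -/
noncomputable def ub (N Q b : ℤ) (T : ℤ) : ℝ := if 4 * b + 3 * Q - N - 1 ≤ T then 1 else 3 / 4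

/-- standing assumptions on a pair -/
structure PC (N Q a b : ℤ) : Prop where
  h34 : 3 * N ≤ 4 * Q
  hQN : Q ≤ N
  hN : 1 ≤ N
  ha0 : 1 ≤ 3 * a + Q
  hb1 : 3 * b + 2 * Q ≤ N + 1
  hab : 3 * a + Q - 1 ≤ b - a
  hba : N - Q - (3 * b + Q - 1) ≤ b - a

variable {N Q a b : ℤ}

theorem PC.condA (h : PC N Q a b) : Cond N Q a (ua N a) where
  h34 := h.h34
  hQN := h.hQN
  hN := h.hN
  d0 := by have := h.ha0; omega
  d1 := by
    have h1 := h.ha0
    have h2 := h.hb1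
    have h3 := h.hab
    omega
  u0 T := by unfold ua; split_ifs <;> norm_num
  u1 T := by unfold ua; split_ifs <;> norm_num

theorem PC.condB (h : PC N Q a b) : Cond N Q b (ub N Q b) where
  h34 := h.h34
  hQN := h.hQN
  hN := h.hN
  d0 := by
    have h1 := h.ha0
    have h2 := h.hb1
    have h3 := h.hab
    omega
  d1 := by have := h.hb1; omega
  u0 T := by unfold ub; split_ifs <;> norm_num
  u1 T := by unfold ub; split_ifs <;> norm_num

/-- block masses of the pair -/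
noncomputable def pm (N Q a b : ℤ) (v : Lt) (j : ℤ) : ℝ :=
  cm N Q a (ua N a) v j + cm N Q b (ub N Q b) v j

/-- weight of the pair -/
noncomputable def pw (Q a b : ℤ) (j : ℤ) : ℝ :=
  (Hv (j - a) - Hv (j - (a + Q))) + (Hv (j - b) - Hv (j - (b + Q)))

theorem Hv_blk (X c : ℤ) : Hv (blk X - c) = Hv (X - (4 * c - 1)) := by
  unfold Hv blk
  by_cases h : 0 ≤ X - (4 * c - 1)
  · rw [if_pos h, if_pos (by omega)]
  · rw [if_neg h, if_neg (by omega)]

theorem pm_stat (N Q a b : ℤ) (X : ℤ) : pw Q a b (blk X) = ∑ v, pm N Q a b v (X - cc Q N v) := by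
  unfold pm pw
  rw [sum_add_distrib, cm_stat, cm_stat, Hv_blk, Hv_blk, Hv_blk, Hv_blk]
  congr 3 <;> congr 1 <;> ring

/-- the masses of the signs `±1` -/
theorem pm_signs (h : PC N Q a b) (j : ℤ) :
    (pw Q a b j ≤ pm N Q a b (0, 0) j + pm N Q a b (0, 1) j ∧
      pm N Q a b (0, 0) j + pm N Q a b (0, 1) j ≤ 2 * pw Q a b j) ∧
    (pw Q a b j ≤ pm N Q a b (2, 0) j + pm N Q a b (2, 1) j ∧
      pm N Q a b (2, 0) j + pm N Q a b (2, 1) j ≤ 2 * pw Q a b j) := by
  have hA := h.condA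
  have hB := h.condB
  obtain ⟨h1, h2, h3, h4, h5, h6, h7⟩ := h
  have u1 := hA.u0 j
  have u2 := hA.u1 j
  have u3 := hA.u0 (j + N - Q)
  have u4 := hA.u1 (j + N - Q)
  have v1 := hB.u0 j
  have v2 := hB.u1 j
  have v3 := hB.u0 (j + N - Q)
  have v4 := hB.u1 (j + N - Q)
  have k1 : j < 4 * a + Q - 1 → ua N a (j + N - Q) = 1 := fun hh => by
    unfold ua; rw [if_pos (by omega)]
  have k2 : 4 * b + 3 * Q - N - 1 ≤ j → ub N Q b j = 1 := fun hh => by
    unfold ub; rw [if_pos hh]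
  unfold pm pw
  by_cases ja : a ≤ j ∧ j < a + Q
  · have w1 : Hv (j - a) = 1 := Hv_pos (by omega)
    have w2 : Hv (j - (a + Q)) = 0 := Hv_neg (by omega)
    rw [w1, w2]
    by_cases jb : b ≤ j ∧ j < b + Q
    · have w3 : Hv (j - b) = 1 := Hv_pos (by omega)
      have w4 : Hv (j - (b + Q)) = 0 := Hv_neg (by omega)
      rw [w3, w4]
      rcases cm_in hA ja with ⟨r1, V⟩ | ⟨r1, r2, V⟩ | ⟨r1, r2, V⟩ | ⟨r1, r2, V⟩ | ⟨r1, V⟩ <;>
        rcases cm_in hB jb with ⟨s1, U⟩ | ⟨s1, s2, U⟩ | ⟨s1, s2, U⟩ | ⟨s1, s2, U⟩ | ⟨s1, U⟩ <;>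
        first
        | (exfalso; omega)
        | (rw [V.e00, V.e01, V.e20, V.e21, U.e00, U.e01, U.e20, U.e21]
           refine ⟨⟨?_, ?_⟩, ⟨?_, ?_⟩⟩ <;> linarith)
    · have w3 : Hv (j - b) = 0 := Hv_neg (by omega)
      have w4 : Hv (j - (b + Q)) = 0 := Hv_neg (by omega)
      rw [w3, w4, cm_out hB jb, cm_out hB jb, cm_out hB jb, cm_out hB jb]
      rcases cm_in hA ja with ⟨r1, V⟩ | ⟨r1, r2, V⟩ | ⟨r1, r2, V⟩ | ⟨r1, r2, V⟩ | ⟨r1, V⟩ <;>
        first
        | (exfalso; omega)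
        | (rw [V.e00, V.e01, V.e20, V.e21, k1 r1]
           refine ⟨⟨?_, ?_⟩, ⟨?_, ?_⟩⟩ <;> linarith)
        | (rw [V.e00, V.e01, V.e20, V.e21]
           refine ⟨⟨?_, ?_⟩, ⟨?_, ?_⟩⟩ <;> linarith)
  · rw [cm_out hA ja, cm_out hA ja, cm_out hA ja, cm_out hA ja]
    have w12 : Hv (j - a) - Hv (j - (a + Q)) = 0 := by
      by_cases hlt : j < a
      · rw [Hv_neg (by omega), Hv_neg (by omega)]; ring
      · rw [Hv_pos (by omega), Hv_pos (by omega)]; ring
    rw [w12]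
    by_cases jb : b ≤ j ∧ j < b + Q
    · have w3 : Hv (j - b) = 1 := Hv_pos (by omega)
      have w4 : Hv (j - (b + Q)) = 0 := Hv_neg (by omega)
      rw [w3, w4]
      rcases cm_in hB jb with ⟨s1, U⟩ | ⟨s1, s2, U⟩ | ⟨s1, s2, U⟩ | ⟨s1, s2, U⟩ | ⟨s1, U⟩ <;>
        first
        | (exfalso; omega)
        | (rw [U.e00, U.e01, U.e20, U.e21, k2 s1]
           refine ⟨⟨?_, ?_⟩, ⟨?_, ?_⟩⟩ <;> linarith)
        | (rw [U.e00, U.e01, U.e20, U.e21]
           refine ⟨⟨?_, ?_⟩, ⟨?_, ?_⟩⟩ <;> linarith)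
    · rw [cm_out hB jb, cm_out hB jb, cm_out hB jb, cm_out hB jb]
      have w34 : Hv (j - b) - Hv (j - (b + Q)) = 0 := by
        by_cases hlt : j < b
        · rw [Hv_neg (by omega), Hv_neg (by omega)]; ring
        · rw [Hv_pos (by omega), Hv_pos (by omega)]; ring
      rw [w34]
      norm_num

/-- the kernel of a pair -/
noncomputable def pair (h : PC N Q a b) : Ker Q N where
  m := pm N Q a b
  w := pw Q a b
  lo := a
  hi := b + Q
  m_nonneg v j := add_nonneg (cm_nonneg h.condA v j) (cm_nonneg h.condB v j)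
  off j hj v := by
    have h1 := h.hab
    have h2 := h.ha0
    unfold pm
    rw [cm_out h.condA (by omega), cm_out h.condB (by omega), add_zero]
  tot j := by
    have h1 := cm_tot N Q a (ua N a) j
    have h2 := cm_tot N Q b (ub N Q b) j
    unfold pm pw
    linarith
  l0 j := (pm_signs h j).1.1
  u0 j := (pm_signs h j).1.2
  l2 j := (pm_signs h j).2.1
  u2 j := (pm_signs h j).2.2
  stat := pm_stat N Q a b

end H91RP
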