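import Pool.Agent.H91.RP.Fam
import Pool.Agent.H54.RP.Double

/-!
Team RP (MP_a57ff3_nt), helper91, window `3 ≤ |k|/4^t < 4`. Probability of an unsafe path: label
count for the small levels, distance from the ends for the large levels (abstract part).
-/

set_option autoImplicit false

namespace H91RP

open Finset H54RP

variable {ι : Type*} [Fintype ι] {c : ι → ℤ} {γ : Type*}

/-- bound for the probability of an unsafe path with the true weights -/
noncomputable def Hw (F : Flow c) (S : ℤ) : ℕ → ℤ → ℝ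
  | 0, _ => 0
  | m + 1, X => (1 - chi F S (m + 1) X) + ∑ v, F.K X v * Hw F S m (T c v X)

theorem Hw_succ (F : Flow c) (S : ℤ) (m : ℕ) (X : ℤ) : Hw F S (m + 1) X =
    (1 - chi F S (m + 1) X) + ∑ v, F.K X v * Hw F S m (T c v X) := rfl

theorem Hw_nonneg (F : Flow c) (S : ℤ) (m : ℕ) (X : ℤ) : 0 ≤ Hw F S m X := by
  induction m generalizing X with
  | zero => simp [Hw]
  | succ m ih =>
    rw [Hw_succ]
    have := chi_le_one F S (m + 1) X
    have h2 : 0 ≤ ∑ v, F.K X v * Hw F S m (T c v X) :=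
      sum_nonneg fun v _ => mul_nonneg (F.K_nonneg X v) (ih _)
    linarith

theorem Fl_sub_Hw (F : Flow c) (S : ℤ) {Om : ℤ → ℝ} (hO : ∀ X, 0 ≤ Om X) (hO1 : ∀ X, Om X ≤ 1)
    (m : ℕ) (X : ℤ) : Fl F (fun _ _ => 1) Om m X - Hw F S m X ≤ Fl F (chi F S) Om m X := by
  induction m generalizing X with
  | zero => simp [Fl, Hw]
  | succ m ih =>
    have hPr1 := Fl_le_one F (χ := fun _ _ => 1) (fun _ _ => zero_le_one) (fun _ _ => le_rfl) hO hO1
    have hFl0 := Fl_nonneg F (chi_nonneg F S) hO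
    by_cases hc : chi F S (m + 1) X = 0
    · have h1 := hPr1 (m + 1) X
      have h2 : 1 ≤ Hw F S (m + 1) X := by
        rw [Hw_succ, hc]
        have : 0 ≤ ∑ v, F.K X v * Hw F S m (T c v X) :=
          sum_nonneg fun v _ => mul_nonneg (F.K_nonneg X v) (Hw_nonneg F S m _)
        linarith
      have h3 := hFl0 (m + 1) X
      linarith
    · have hc1 : chi F S (m + 1) X = 1 := by
        unfold chi at hc ⊢
        split_ifs with h
        · rfl
        · rw [if_neg h] at hc; exact absurd rfl hc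
      have e1 : Fl F (chi F S) Om (m + 1) X = ∑ v, F.K X v * Fl F (chi F S) Om m (T c v X) := by
        simp only [Fl]; rw [hc1, one_mul]
      have e2 : Fl F (fun _ _ => 1) Om (m + 1) X =
          ∑ v, F.K X v * Fl F (fun _ _ => 1) Om m (T c v X) := by
        simp only [Fl]; rw [one_mul]
      rw [e1, e2, Hw_succ, hc1, sub_self, zero_add, ← sum_sub_distrib]
      refine sum_le_sum fun v _ => ?_
      rw [← mul_sub]
      exact mul_le_mul_of_nonneg_left (ih _) (F.K_nonneg X v)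

theorem Hw_le_H (D : LFam c γ) {g : γ} (hg : g ∈ D.G) (S : ℤ) (m : ℕ) (X : ℤ) :
    Hw (D.F g) S m X ≤ D.H S g m X := by
  induction m generalizing X with
  | zero => simp [Hw, LFam.H]
  | succ m ih =>
    rw [Hw_succ, D.H_succ, D.sum_K_legs hg]
    have h : ∑ v ∈ D.legs X, (D.F g).K X v * Hw (D.F g) S m (T c v X) ≤
        ∑ v ∈ D.legs X, D.H S g m (T c v X) := by
      refine sum_le_sum fun v _ => ?_
      have hK : (D.F g).K X v ≤ 1 := by
        refine le_trans ?_ ((D.F g).sum_K_le X)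
        exact single_le_sum (f := fun v => (D.F g).K X v) (fun v _ => (D.F g).K_nonneg X v)
          (mem_univ v)
      have h1 := ih (T c v X)
      have h2 := Hw_nonneg (D.F g) S m (T c v X)
      have h3 := (D.F g).K_nonneg X v
      nlinarith
    linarith

/-- small levels -/
theorem Hw_small (D : LFam c γ) {S : ℤ} (hS : 1 ≤ S) (m : ℕ) (x : ℤ) {ε : ℝ}
    (h : 4 * D.kB * S * 4 ^ m ≤ ε) :
    ∑ g ∈ D.G, ∑ i ∈ range (4 ^ m), Hw (D.F g) S m (x + (i : ℕ)) ≤ ε * 4 ^ m := by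
  have h1 : ∑ g ∈ D.G, ∑ i ∈ range (4 ^ m), Hw (D.F g) S m (x + (i : ℕ)) ≤
      ∑ g ∈ D.G, ∑ i ∈ range (4 ^ m), D.H S g m (x + (i : ℕ)) :=
    sum_le_sum fun g hg => sum_le_sum fun i _ => Hw_le_H D hg S m _
  have h2 := D.sum_H_le hS m x
  have h3 : 4 * D.kB * S * 4 ^ m * 4 ^ m ≤ ε * 4 ^ m :=
    mul_le_mul_of_nonneg_right h (by positivity)
  linarith

/-- large levels: the kernel is uniform and does not depend on the label -/
theorem Hw_large (G : Finset γ) (F : γ → Flow c) (S : ℤ) (m : ℕ) (x : ℤ) {g0 : γ}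
    (hchi : ∀ g ∈ G, ∀ i : ℕ, i < 4 ^ (m + 1) → chi (F g) S (m + 1) (x + (i : ℕ)) = 1)
    (hK : ∀ g ∈ G, ∀ r : ℕ, r < 4 → ∀ i : ℕ, i < 4 ^ m → ∀ v,
      (F g).K (x + (r : ℕ) + 4 * (i : ℕ)) v = (F g0).K (x + (r : ℕ)) v) {ε : ℝ} (hε : 0 ≤ ε)
    (hB : ∀ r : ℕ, r < 4 → ∀ v, (F g0).K (x + (r : ℕ)) v ≠ 0 →
      ∑ g ∈ G, ∑ i ∈ range (4 ^ m), Hw (F g) S m (T c v (x + (r : ℕ)) + (i : ℕ)) ≤ ε * 4 ^ m) :
    ∑ g ∈ G, ∑ i ∈ range (4 ^ (m + 1)), Hw (F g) S (m + 1) (x + (i : ℕ)) ≤ ε * 4 ^ (m + 1) := by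
  have h1 : ∀ g ∈ G, ∑ i ∈ range (4 ^ (m + 1)), Hw (F g) S (m + 1) (x + (i : ℕ)) =
      ∑ r ∈ range 4, ∑ v, (F g0).K (x + (r : ℕ)) v *
        ∑ i ∈ range (4 ^ m), Hw (F g) S m (T c v (x + (r : ℕ)) + (i : ℕ)) := by
    intro g hg
    rw [sum_range_four]
    refine sum_congr rfl fun r hr => ?_
    rw [mem_range] at hr
    have : ∀ i ∈ range (4 ^ m), Hw (F g) S (m + 1) (x + ((r + 4 * i : ℕ) : ℤ)) =
        ∑ v, (F g0).K (x + (r : ℕ)) v * Hw (F g) S m (T c v (x + (r : ℕ)) + (i : ℕ)) := by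
      intro i hi
      rw [mem_range] at hi
      have hlt : r + 4 * i < 4 ^ (m + 1) := by rw [pow_succ]; omega
      have e : (x + ((r + 4 * i : ℕ) : ℤ)) = (x + (r : ℕ)) + 4 * (i : ℕ) := by push_cast; ring
      rw [Hw_succ, hchi g hg _ hlt, sub_self, zero_add, e]
      refine sum_congr rfl fun v _ => ?_
      rw [hK g hg r hr i hi v, T_add]
    rw [sum_congr rfl this, sum_comm]
    refine sum_congr rfl fun v _ => ?_
    rw [mul_sum]
  rw [sum_congr rfl h1, sum_comm]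
  have h2 : ∀ r ∈ range 4, ∑ g ∈ G, ∑ v, (F g0).K (x + (r : ℕ)) v *
        ∑ i ∈ range (4 ^ m), Hw (F g) S m (T c v (x + (r : ℕ)) + (i : ℕ)) ≤ ε * 4 ^ m := by
    intro r hr
    rw [mem_range] at hr
    rw [sum_comm]
    calc ∑ v, ∑ g ∈ G, (F g0).K (x + (r : ℕ)) v *
          ∑ i ∈ range (4 ^ m), Hw (F g) S m (T c v (x + (r : ℕ)) + (i : ℕ))
        ≤ ∑ v, (F g0).K (x + (r : ℕ)) v * (ε * 4 ^ m) := by
          refine sum_le_sum fun v _ => ?_
          rw [← mul_sum]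
          by_cases h0 : (F g0).K (x + (r : ℕ)) v = 0
          · rw [h0]; simp
          · exact mul_le_mul_of_nonneg_left (hB r hr v h0) ((F g0).K_nonneg _ v)
      _ = (∑ v, (F g0).K (x + (r : ℕ)) v) * (ε * 4 ^ m) := (sum_mul _ _ _).symm
      _ ≤ 1 * (ε * 4 ^ m) := mul_le_mul_of_nonneg_right ((F g0).sum_K_le _) (by positivity)
      _ = ε * 4 ^ m := one_mul _
  calc ∑ r ∈ range 4, ∑ g ∈ G, ∑ v, (F g0).K (x + (r : ℕ)) v *
        ∑ i ∈ range (4 ^ m), Hw (F g) S m (T c v (x + (r : ℕ)) + (i : ℕ))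
      ≤ ∑ r ∈ range 4, ε * 4 ^ m := sum_le_sum h2
    _ = ε * 4 ^ (m + 1) := by
      rw [sum_const, card_range, nsmul_eq_mul, pow_succ]; push_cast; ring

end H91RP
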