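import Pool.Agent.H91.RP.Land

/-!
Team RP (MP_a57ff3_nt), helper91, window `3 ≤ |k|/4^t < 4`. The variation at distance `1` is bounded
by the energy.
-/

set_option autoImplicit false

namespace H91RP

open Finset H54RP

/-- variation inside the block `j` -/
noncomputable def bv (f : ℤ → ℝ) (j : ℤ) : ℝ :=
  |f (4 * j) - f (4 * j - 1)| + |f (4 * j + 1) - f (4 * j)| + |f (4 * j + 2) - f (4 * j + 1)|

/-- crossing from the block `j` to the block `j + 1` -/
noncomputable def cr (f : ℤ → ℝ) (j : ℤ) : ℝ := |f (4 * j + 3) - f (4 * j + 2)|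

theorem bv_nonneg (f : ℤ → ℝ) (j : ℤ) : 0 ≤ bv f j := by
  unfold bv; positivity

theorem cr_nonneg (f : ℤ → ℝ) (j : ℤ) : 0 ≤ cr f j := abs_nonneg _

/-- steps inside of blocks -/
theorem block_sum (f : ℤ → ℝ) (S I : Finset ℤ) (h : ∀ j ∈ S, (j + 1) / 4 ∈ I)
    (hS : ∀ j ∈ S, j % 4 ≠ 2) : ∑ j ∈ S, |f (j + 1) - f j| ≤ ∑ i ∈ I, bv f i := by
  rw [← sum_fiberwise_of_maps_to h]
  refine sum_le_sum fun i _ => ?_
  have hsub : S.filter (fun j => (j + 1) / 4 = i) ⊆ {4 * i - 1, 4 * i, 4 * i + 1} := by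
    intro j hj
    rw [mem_filter] at hj
    have h2 := hS j hj.1
    simp only [mem_insert, mem_singleton]
    omega
  refine (sum_le_sum_of_subset_of_nonneg hsub fun _ _ _ => abs_nonneg _).trans (le_of_eq ?_)
  rw [sum_insert (by simp; omega), sum_insert (by simp), sum_singleton]
  unfold bv
  have e1 : (4 * i - 1 + 1 : ℤ) = 4 * i := by ring
  have e2 : (4 * i + 1 + 1 : ℤ) = 4 * i + 2 := by ring
  rw [e1, e2]
  ring

/-- crossings -/
theorem cross_sum (f : ℤ → ℝ) (S I : Finset ℤ) (h : ∀ j ∈ S, j % 4 = 2 ∧ (j - 2) / 4 ∈ I) :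
    ∑ j ∈ S, |f (j + 1) - f j| ≤ ∑ i ∈ I, cr f i := by
  have h1 : ∑ j ∈ S, |f (j + 1) - f j| = ∑ j ∈ S, cr f ((j - 2) / 4) := by
    refine sum_congr rfl fun j hj => ?_
    have := (h j hj).1
    unfold cr
    have e1 : 4 * ((j - 2) / 4) + 3 = j + 1 := by omega
    have e2 : 4 * ((j - 2) / 4) + 2 = j := by omega
    rw [e1, e2]
  rw [h1, ← sum_image (f := fun i => cr f i) (g := fun j : ℤ => (j - 2) / 4)]
  · refine sum_le_sum_of_subset_of_nonneg ?_ fun _ _ _ => cr_nonneg _ _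
    intro i hi
    rw [mem_image] at hi
    obtain ⟨j, hj, rfl⟩ := hi
    exact (h j hj).2
  · intro x hx y hy e
    have a1 := (h x (mem_coe.1 hx)).1
    have a2 := (h y (mem_coe.1 hy)).1
    simp only at e
    omega

/-- a crossing is carried by the letter `(0, 0)` -/
theorem cr_le (f : ℤ → ℝ) (j : ℤ) : cr f j ≤ bv f j + |f j - f (4 * j)| + |f (j + 1) - f j| +
    |f (j + 1) - f (4 * (j + 1))| + bv f (j + 1) := by
  unfold cr bv
  have e : (4 * (j + 1) - 1 : ℤ) = 4 * j + 3 := by ring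
  rw [e]
  have n1 := abs_nonneg (f (4 * j) - f (4 * j - 1))
  have n2 := abs_nonneg (f (4 * (j + 1) + 1) - f (4 * (j + 1)))
  have n3 := abs_nonneg (f (4 * (j + 1) + 2) - f (4 * (j + 1) + 1))
  have a1 := abs_le.1 (le_refl |f (4 * j + 1) - f (4 * j)|)
  have a2 := abs_le.1 (le_refl |f (4 * j + 2) - f (4 * j + 1)|)
  have a3 := abs_le.1 (le_refl |f j - f (4 * j)|)
  have a4 := abs_le.1 (le_refl |f (j + 1) - f j|)
  have a5 := abs_le.1 (le_refl |f (j + 1) - f (4 * (j + 1))|)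
  have a6 := abs_le.1 (le_refl |f (4 * (j + 1)) - f (4 * j + 3)|)
  rw [abs_le]
  constructor <;> linarith [a1.1, a1.2, a2.1, a2.2, a3.1, a3.2, a4.1, a4.2, a5.1, a5.2, a6.1, a6.2]

/-- the crossings in terms of the variation inside of the blocks and of the letter `(0, 0)` -/
theorem crossings (f : ℤ → ℝ) (l h : ℤ) (hl : l ≤ -1) (hh : 1 ≤ h) (B : ℝ)
    (h1 : ∑ j ∈ Ico l h, bv f j ≤ B) (h2 : ∑ j ∈ Ico l h, |f j - f (4 * j)| ≤ B) (n : ℕ) :
    ∑ j ∈ (Ico l (h - 1)).filter (fun j => |3 * j + 2| < 4 ^ n), cr f j ≤ n * (5 * B) := by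
  have hmono : ∀ (g : ℤ → ℝ), (∀ j, 0 ≤ g j) → ∀ S : Finset ℤ, S ⊆ Ico l h →
      ∑ j ∈ S, g j ≤ ∑ j ∈ Ico l h, g j := fun g hg S hS =>
    sum_le_sum_of_subset_of_nonneg hS fun _ _ _ => hg _
  have hshift : ∀ (g : ℤ → ℝ), (∀ j, 0 ≤ g j) → ∀ S : Finset ℤ, S ⊆ Ico l (h - 1) →
      ∑ j ∈ S, g (j + 1) ≤ ∑ j ∈ Ico l h, g j := by
    intro g hg S hS
    rw [← sum_image (f := g) (g := fun j : ℤ => j + 1) (by intro x _ y _ e; simpa using e)]
    refine hmono g hg _ ?_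
    intro i hi
    rw [mem_image] at hi
    obtain ⟨j, hj, rfl⟩ := hi
    have := hS hj
    rw [mem_Ico] at this ⊢
    omega
  induction n with
  | zero =>
    rw [sum_eq_zero]
    · simp
    · intro j hj
      rw [mem_filter, pow_zero] at hj
      exfalso
      have := Int.one_le_abs (show 3 * j + 2 ≠ 0 by omega)
      omega
  | succ n ih =>
    set S := (Ico l (h - 1)).filter (fun j => |3 * j + 2| < 4 ^ (n + 1)) with hS
    have hS1 : S ⊆ Ico l (h - 1) := filter_subset _ _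
    have hS2 : S ⊆ Ico l h := hS1.trans (Ico_subset_Ico le_rfl (by omega))
    have hle : ∑ j ∈ S, cr f j ≤ ∑ j ∈ S, (bv f j + |f j - f (4 * j)| + |f (j + 1) - f j| +
        |f (j + 1) - f (4 * (j + 1))| + bv f (j + 1)) := sum_le_sum fun j _ => cr_le f j
    rw [sum_add_distrib, sum_add_distrib, sum_add_distrib, sum_add_distrib] at hle
    have b1 := hmono (bv f) (bv_nonneg f) S hS2
    have b2 := hmono (fun j => |f j - f (4 * j)|) (fun _ => abs_nonneg _) S hS2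
    have b3 := hshift (fun j => |f j - f (4 * j)|) (fun _ => abs_nonneg _) S hS1
    have b4 := hshift (bv f) (bv_nonneg f) S hS1
    have b5 : ∑ j ∈ S, |f (j + 1) - f j| ≤ B + n * (5 * B) := by
      rw [← sum_filter_add_sum_filter_not S (fun j => j % 4 = 2)]
      have c1 : ∑ j ∈ S.filter (fun j => j % 4 = 2), |f (j + 1) - f j| ≤
          ∑ j ∈ (Ico l (h - 1)).filter (fun j => |3 * j + 2| < 4 ^ n), cr f j := by
        refine cross_sum f _ _ fun j hj => ?_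
        rw [mem_filter, hS, mem_filter, mem_Ico] at hj
        obtain ⟨⟨⟨j1, j2⟩, j3⟩, j4⟩ := hj
        refine ⟨j4, ?_⟩
        rw [mem_filter, mem_Ico]
        refine ⟨⟨by omega, by omega⟩, ?_⟩
        have e : 3 * j + 2 = 4 * (3 * ((j - 2) / 4) + 2) := by omega
        rw [e, abs_mul, abs_of_pos (by norm_num : (0 : ℤ) < 4), pow_succ] at j3
        linarith
      have c2 : ∑ j ∈ S.filter (fun j => ¬ j % 4 = 2), |f (j + 1) - f j| ≤
          ∑ i ∈ Ico l h, bv f i := by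
        refine block_sum f _ _ (fun j hj => ?_) (fun j hj => (mem_filter.1 hj).2)
        have := hS1 (mem_filter.1 hj).1
        rw [mem_Ico] at this ⊢
        omega
      linarith
    push_cast
    linarith

/-- the variation at distance `1` -/
theorem vr_le (f : ℤ → ℝ) (l h : ℤ) (hl : l ≤ -1) (hh : 1 ≤ h) (B : ℝ)
    (h1 : ∑ j ∈ Ico l h, bv f j ≤ B) (h2 : ∑ j ∈ Ico l h, |f j - f (4 * j)| ≤ B) (n : ℕ)
    (hn1 : -(4 : ℤ) ^ n < 3 * l + 2) (hn2 : 3 * h < 4 ^ n) :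
    vr f (4 * l - 1) (4 * h - 2) 1 ≤ B + n * (5 * B) := by
  unfold vr
  have e0 : ((1 : ℕ) : ℤ) = 1 := rfl
  rw [e0, ← sum_filter_add_sum_filter_not _ (fun j : ℤ => j % 4 = 2)]
  have c1 : ∑ j ∈ (Icc (4 * l - 1) (4 * h - 2 - 1)).filter (fun j => j % 4 = 2),
      |f (j + 1) - f j| ≤
      ∑ j ∈ (Ico l (h - 1)).filter (fun j => |3 * j + 2| < 4 ^ n), cr f j := by
    refine cross_sum f _ _ fun j hj => ?_
    rw [mem_filter, mem_Icc] at hj
    obtain ⟨⟨j1, j2⟩, j4⟩ := hj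
    refine ⟨j4, ?_⟩
    rw [mem_filter, mem_Ico]
    refine ⟨⟨by omega, by omega⟩, ?_⟩
    rw [abs_lt]
    constructor <;> omega
  have c2 : ∑ j ∈ (Icc (4 * l - 1) (4 * h - 2 - 1)).filter (fun j => ¬ j % 4 = 2),
      |f (j + 1) - f j| ≤ ∑ i ∈ Ico l h, bv f i := by
    refine block_sum f _ _ (fun j hj => ?_) (fun j hj => (mem_filter.1 hj).2)
    have := (mem_filter.1 hj).1
    rw [mem_Icc] at this
    rw [mem_Ico]
    omega
  have c3 := crossings f l h hl hh B h1 h2 n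
  linarith

/-- energy of the arcs with one letter from one residue -/
theorem arc_sum {ι : Type*} [Fintype ι] {c : ι → ℤ} (F : Flow c) (f : ℤ → ℝ) {E : ℝ}
    (hE : F.E1 f ≤ E) (I : Finset ℤ) (r : ℕ) (hr : r < 4) (v : ι) {ω : ℝ} (hω : 0 < ω)
    (hW : ∀ j ∈ I, ω ≤ F.W (4 * j - 1 + (r : ℕ)) v) :
    ω * ∑ j ∈ I, |f (j + c v) - f (4 * j - 1 + (r : ℕ))| ≤ E := by
  refine le_trans ?_ hE
  unfold Flow.E1
  have h1 : ω * ∑ j ∈ I, |f (j + c v) - f (4 * j - 1 + (r : ℕ))| ≤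
      ∑ j ∈ I, F.W (4 * j - 1 + (r : ℕ)) v *
        |f (T c v (4 * j - 1 + (r : ℕ))) - f (4 * j - 1 + (r : ℕ))| := by
    rw [mul_sum]
    refine sum_le_sum fun j hj => ?_
    have e : T c v (4 * j - 1 + (r : ℕ)) = j + c v := by
      unfold T
      rw [blk_eq j r hr]
    rw [e]
    exact mul_le_mul_of_nonneg_right (hW j hj) (abs_nonneg _)
  refine h1.trans ?_
  have h2 : ∑ j ∈ I, F.W (4 * j - 1 + (r : ℕ)) v *
        |f (T c v (4 * j - 1 + (r : ℕ))) - f (4 * j - 1 + (r : ℕ))| =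
      ∑ X ∈ I.image (fun j : ℤ => 4 * j - 1 + (r : ℕ)), F.W X v * |f (T c v X) - f X| := by
    rw [sum_image]
    intro x _ y _ e
    simp only at e
    omega
  rw [h2]
  have h3 : ∀ X, 0 ≤ ∑ v, F.W X v * |f (T c v X) - f X| := fun X =>
    sum_nonneg fun v _ => mul_nonneg (F.nonneg X v) (abs_nonneg _)
  refine le_trans ?_ (sum_le_sum_of_subset_of_nonneg (s := I.image
    (fun j : ℤ => 4 * j - 1 + (r : ℕ))) ?_ fun X _ _ => h3 X)
  · refine sum_le_sum fun X _ => ?_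
    exact single_le_sum (f := fun v => F.W X v * |f (T c v X) - f X|)
      (fun v _ => mul_nonneg (F.nonneg X v) (abs_nonneg _)) (mem_univ v)
  · intro X hX
    rw [mem_image] at hX
    obtain ⟨j, hj, rfl⟩ := hX
    by_contra hc
    have := F.off _ hc v
    have h4 := hW j hj
    rw [this] at h4
    linarith

end H91RP
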