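import Pool.Agent.H91.RP.Safe
import Pool.Agent.H91.RP.Land

/-!
Team RP (MP_a57ff3_nt), helper91, window `3 ≤ |k|/4^t < 4`. The kernel is constant in the middle and
does not depend on the label there; windows far from the ends are safe on average over the labels.
-/

set_option autoImplicit false
set_option linter.unusedSimpArgs false
set_option linter.unusedVariables false

namespace H91RP

open Finset H54RP

variable {q N Q a b : ℤ}

/-- the kernel is constant on `[l, h)` -/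
def Mid {q N : ℤ} (K : Ker q N) (mo : Lt → ℝ) (l h : ℤ) : Prop :=
  ∀ j, l ≤ j → j < h → (∀ v, K.m v j = mo v) ∧ K.w j = 2

theorem Mid.mono {K : Ker q N} {mo : Lt → ℝ} {l h l' h' : ℤ} (H : Mid K mo l h) (h1 : l ≤ l')
    (h2 : h' ≤ h) : Mid K mo l' h' := fun j j1 j2 => H j (by omega) (by omega)

/-- middle masses of the pair -/
noncomputable def moP : Lt → ℝ
  | (0, 0) => 2
  | (0, 1) => 3 / 2
  | (1, 0) => 1 / 2
  | (1, 1) => 1 / 2
  | (2, 0) => 3 / 2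
  | (2, 1) => 2

theorem mid_pair (h : PC N Q a b) : Mid (pair h) moP (b + N - Q) (a + 2 * Q - N) := by
  intro j hj1 hj2
  have hA := h.condA
  have hB := h.condB
  have hw := (pw_values h j).2.2.2
  obtain ⟨h1, h2, h3, h4, h5, h6, h7⟩ := h
  have k1 : ua N a j = 3 / 4 := by
    unfold ua; rw [if_neg (by omega)]
  have k2 : ua N a (j + N - Q) = 3 / 4 := by
    unfold ua; rw [if_neg (by omega)]
  have k3 : ub N Q b j = 3 / 4 := by
    unfold ub; rw [if_neg (by omega)]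
  have k4 : ub N Q b (j + N - Q) = 3 / 4 := by
    unfold ub; rw [if_neg (by omega)]
  have ja : a ≤ j ∧ j < a + Q := by omega
  have jb : b ≤ j ∧ j < b + Q := by omega
  refine ⟨?_, hw (by omega) (by omega)⟩
  have key : ∀ v, pm N Q a b v j = moP v := by
    rcases cm_in hA ja with ⟨r1, V⟩ | ⟨r1, r2, V⟩ | ⟨r1, r2, V⟩ | ⟨r1, r2, V⟩ | ⟨r1, V⟩ <;>
      rcases cm_in hB jb with ⟨s1, U⟩ | ⟨s1, s2, U⟩ | ⟨s1, s2, U⟩ | ⟨s1, s2, U⟩ | ⟨s1, U⟩ <;>
      first
      | (exfalso; omega)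
      | (rintro ⟨s, d⟩
         unfold pm
         fin_cases s <;> fin_cases d
         · change _ = (2 : ℝ)
           have e1 := V.e00
           have e2 := U.e00
           simp only [Fin.zero_eta, Fin.mk_one, Fin.reduceFinMk]
           rw [e1, e2]; norm_num
         · change _ = (3 / 2 : ℝ)
           have e1 := V.e01
           have e2 := U.e01
           simp only [Fin.zero_eta, Fin.mk_one, Fin.reduceFinMk]
           rw [e1, e2, k2, k4]; norm_num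
         · change _ = (1 / 2 : ℝ)
           have e1 := V.e10
           have e2 := U.e10
           simp only [Fin.zero_eta, Fin.mk_one, Fin.reduceFinMk]
           rw [e1, e2, k1, k3]; norm_num
         · change _ = (1 / 2 : ℝ)
           have e1 := V.e11
           have e2 := U.e11
           simp only [Fin.zero_eta, Fin.mk_one, Fin.reduceFinMk]
           rw [e1, e2, k2, k4]; norm_num
         · change _ = (3 / 2 : ℝ)
           have e1 := V.e20
           have e2 := U.e20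
           simp only [Fin.zero_eta, Fin.mk_one, Fin.reduceFinMk]
           rw [e1, e2, k1, k3]; norm_num
         · change _ = (2 : ℝ)
           have e1 := V.e21
           have e2 := U.e21
           simp only [Fin.zero_eta, Fin.mk_one, Fin.reduceFinMk]
           rw [e1, e2]; norm_num)
  exact key

theorem Mid.rev {K : Ker q N} {mo : Lt → ℝ} {l h : ℤ} (H : Mid K mo l h) :
    Mid K.rev (fun v => mo (2 - v.1, v.2)) l h := fun j h1 h2 =>
  ⟨fun v => (H j h1 h2).1 _, (H j h1 h2).2⟩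

/-- two kernels with the same middle -/
theorem Mid.W_eq {K K' : Ker q N} {mo : Lt → ℝ} {l h : ℤ} (H : Mid K mo l h) (H' : Mid K' mo l h)
    {X Y : ℤ} (hX : l ≤ blk X ∧ blk X < h) (hY : l ≤ blk Y ∧ blk Y < h) (hd : (4 : ℤ) ∣ Y - X)
    (v : Lt) : K.flow.W X v = K'.flow.W Y v := by
  obtain ⟨m1, w1⟩ := H (blk X) hX.1 hX.2
  obtain ⟨m2, w2⟩ := H' (blk Y) hY.1 hY.2
  have er : (X + 1) % 4 = (Y + 1) % 4 := by omega
  have eM : ∀ s, K.M s (blk X) = K'.M s (blk Y) := by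
    intro s
    unfold Ker.M
    rw [m1, m1, m2, m2]
  change K.gate v.1 ((X + 1) % 4) (blk X) * (K.m v (blk X) / K.M v.1 (blk X)) =
    K'.gate v.1 ((Y + 1) % 4) (blk Y) * (K'.m v (blk Y) / K'.M v.1 (blk Y))
  have eg : K.gate v.1 ((X + 1) % 4) (blk X) = K'.gate v.1 ((Y + 1) % 4) (blk Y) := by
    unfold Ker.gate
    rw [er, w1, w2, eM 2, eM 0]
  rw [eg, m1, m2, eM]

theorem Mid.K_eq {K K' : Ker q N} {mo : Lt → ℝ} {l h : ℤ} (H : Mid K mo l h) (H' : Mid K' mo l h)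
    {X Y : ℤ} (hX : l ≤ blk X ∧ blk X < h) (hY : l ≤ blk Y ∧ blk Y < h) (hd : (4 : ℤ) ∣ Y - X)
    (v : Lt) : K.flow.K X v = K'.flow.K Y v := by
  unfold Flow.K
  rw [H.W_eq H' hX hY hd, K.flow_w, K'.flow_w, (H _ hX.1 hX.2).2, (H' _ hY.1 hY.2).2]

theorem Mid.chi_eq {K : Ker q N} {mo : Lt → ℝ} {l h : ℤ} (H : Mid K mo l h) (S : ℤ) (m : ℕ) {X : ℤ}
    (hX : l ≤ blk X) (hY : blk (X + S * 4 ^ m) < h) : chi K.flow S m X = 1 := by
  unfold chi
  rw [if_pos]
  intro Y Z hY1 hY2 hZ1 hZ2 hd v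
  refine H.W_eq H ?_ ?_ hd v
  · constructor
    · unfold blk at *; omega
    · unfold blk at *; omega
  · constructor
    · unfold blk at *; omega
    · unfold blk at *; omega

/-- displacement bounds -/
theorem cc_bounds {q N Q : ℤ} (hq1 : -Q ≤ q) (hq2 : q ≤ Q) (hN : 0 ≤ N) (v : Lt) :
    -Q ≤ cc q N v ∧ cc q N v ≤ Q + N := by
  obtain ⟨s, d⟩ := v
  have hs : ((s : ℕ) : ℤ) = 0 ∨ ((s : ℕ) : ℤ) = 1 ∨ ((s : ℕ) : ℤ) = 2 := by
    fin_cases s <;> simp
  have hd : ((d : ℕ) : ℤ) = 0 ∨ ((d : ℕ) : ℤ) = 1 := by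
    fin_cases d <;> simp
  unfold cc
  simp only
  rcases hs with h | h | h <;> rcases hd with h' | h' <;> rw [h, h'] <;> constructor <;> linarith

/-- the average probability of an unsafe path is small, all levels -/
theorem Hw_zone {n : ℕ} {a0 b0 : ℤ} (Kf : Fin (n + 1) → Ker q N)
    (hKf : ∀ g : Fin (n + 1), Nice (Kf g) Q (a0 + (g : ℕ)) (b0 - (g : ℕ))) (mo : Lt → ℝ)
    (hM : ∀ g : Fin (n + 1), Mid (Kf g) mo (b0 + N - Q) (a0 + 2 * Q - N))
    (hq1 : -Q ≤ q) (hq2 : q ≤ Q) (hN : 0 ≤ N) (ha : 1 ≤ 3 * a0 + Q)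
    (ha' : 3 * a0 + Q ≤ 3) (hb : N - 1 ≤ 3 * b0 + 2 * Q) (hb' : 3 * b0 + 2 * Q ≤ N + 1)
    (hn : N - Q ≤ 16 * (n + 1)) (S : ℤ) (hS : 1 ≤ S) (m : ℕ) :
    ∀ x : ℤ, 4 * a0 - 1 + 262144 * (S * 4 ^ m) - 4 ≤ x →
      x + 4 ^ m - 1 ≤ 4 * (b0 + Q) - 2 - 262144 * (S * 4 ^ m) + 4 →
      ∑ g : Fin (n + 1), ∑ i ∈ range (4 ^ m), Hw ((Kf g).flow) S m (x + (i : ℕ)) ≤
        (3 / 64 * (n + 1)) * 4 ^ m := by
  have hε : (0 : ℝ) ≤ 3 / 64 * (n + 1) := by positivity
  induction m with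
  | zero =>
    intro x _ _
    simp only [Hw, sum_const_zero]
    positivity
  | succ m ih =>
    intro x hx1 hx2
    have p4 : (1 : ℤ) ≤ 4 ^ m := one_le_pow₀ (by norm_num)
    obtain ⟨Z, hZ⟩ : ∃ Z : ℤ, Z = S * 4 ^ m := ⟨_, rfl⟩
    have hZ4 : (4 : ℤ) ^ m ≤ Z := by rw [hZ]; nlinarith
    have e4 : S * 4 ^ (m + 1) = 4 * Z := by rw [hZ, pow_succ]; ring
    have e4' : (4 : ℤ) ^ (m + 1) = 4 * 4 ^ m := by rw [pow_succ]; ring
    by_cases hsm : 4 * 14 * (S : ℝ) * 4 ^ (m + 1) ≤ 3 / 64 * (n + 1)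
    · exact Hw_small (fam Kf hKf) hS (m + 1) x hsm
    · push Not at hsm
      -- `N - Q` is small
      have hD : N - Q ≤ 76460 * Z := by
        have h1 : (S : ℝ) * 4 ^ (m + 1) = 4 * Z := by exact_mod_cast e4
        have h2 : ((N - Q : ℤ) : ℝ) ≤ 16 * (n + 1) := by exact_mod_cast hn
        have h3 : ((N - Q : ℤ) : ℝ) ≤ ((76460 * Z : ℤ) : ℝ) := by
          have h4 : (4 * 14 * (S : ℝ) * 4 ^ (m + 1)) = 56 * (4 * Z) := by rw [← h1]; ring
          rw [h4] at hsm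
          push_cast at h2 ⊢
          linarith
        exact_mod_cast h3
      rw [e4] at hx1 hx2
      rw [e4'] at hx2
      have hab : 3 * (b0 - a0) ≤ N - Q := by omega
      have hin : ∀ X : ℤ, x ≤ X → X ≤ x + 4 * 4 ^ m - 1 →
          b0 + N - Q ≤ blk X ∧ blk (X + 4 * Z) < a0 + 2 * Q - N := by
        intro X h1 h2
        constructor
        · unfold blk; omega
        · unfold blk; omega
      have hin2 : ∀ X : ℤ, x ≤ X → X ≤ x + 4 * 4 ^ m - 1 →
          b0 + N - Q ≤ blk X ∧ blk X < a0 + 2 * Q - N := by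
        intro X h1 h2
        have h3 := hin X h1 h2
        refine ⟨h3.1, ?_⟩
        have h4 := h3.2
        unfold blk at h4 ⊢
        omega
      refine Hw_large univ (fun g => (Kf g).flow) S m x (g0 := 0) ?_ ?_ hε ?_
      · intro g _ i hi
        have hi' : (i : ℤ) < 4 ^ (m + 1) := by exact_mod_cast hi
        rw [e4'] at hi'
        have h1 := hin (x + i) (by omega) (by omega)
        refine (hM g).chi_eq S (m + 1) h1.1 ?_
        rw [e4]
        exact h1.2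
      · intro g _ r hr i hi v
        have hi' : (i : ℤ) < 4 ^ m := by exact_mod_cast hi
        exact (hM g).K_eq (hM 0) (hin2 _ (by omega) (by omega)) (hin2 _ (by omega) (by omega))
          ⟨-i, by ring⟩ v
      · intro r hr v _
        have hc := cc_bounds hq1 hq2 hN v
        refine ih (T (cc q N) v (x + (r : ℕ))) ?_ ?_
        · rw [← hZ]
          unfold T blk
          omega
        · rw [← hZ]
          unfold T blk
          omega

/-- safe landing -/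
theorem safe_zone {n : ℕ} {a0 b0 : ℤ} (Kf : Fin (n + 1) → Ker q N)
    (hKf : ∀ g : Fin (n + 1), Nice (Kf g) Q (a0 + (g : ℕ)) (b0 - (g : ℕ))) (mo : Lt → ℝ)
    (hM : ∀ g : Fin (n + 1), Mid (Kf g) mo (b0 + N - Q) (a0 + 2 * Q - N))
    (hq1 : -Q ≤ q) (hq2 : q ≤ Q) (hN : 0 ≤ N) (ha : 1 ≤ 3 * a0 + Q)
    (ha' : 3 * a0 + Q ≤ 3) (hb : N - 1 ≤ 3 * b0 + 2 * Q) (hb' : 3 * b0 + 2 * Q ≤ N + 1)
    (hn : N - Q ≤ 16 * (n + 1)) (hnab : (n : ℤ) ≤ b0 - a0) (S : ℤ) (hS : 1 ≤ S) (m : ℕ)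
    (x A B : ℤ)
    (hx1 : 4 * a0 - 1 + 262144 * (S * 4 ^ (m + 1)) - 4 ≤ x)
    (hx2 : x + 4 ^ (m + 1) - 1 ≤ 4 * (b0 + Q) - 2 - 262144 * (S * 4 ^ (m + 1)) + 4)
    (hx3 : 4 * b0 - 1 ≤ x) (hx4 : x + 4 ^ (m + 1) ≤ 4 * (a0 + Q) - 1)
    (hA : 3 * A ≤ 1 - Q) (hB : 4 * N + Q - 2 ≤ 3 * B) :
    3 / 32 * ((n : ℝ) + 1) * 4 ^ (m + 1) ≤
      ∑ g : Fin (n + 1), ∑ i ∈ range (4 ^ (m + 1)),
        Fl ((Kf g).flow) (chi ((Kf g).flow) S) (ind A B) (m + 1) (x + (i : ℕ)) := by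
  have h1 := Hw_zone Kf hKf mo hM hq1 hq2 hN ha ha' hb hb' hn S hS (m + 1) x hx1 hx2
  have h2 : ∀ g : Fin (n + 1), ∀ i ∈ range (4 ^ (m + 1)),
      3 / 16 - Hw ((Kf g).flow) S (m + 1) (x + (i : ℕ)) ≤
        Fl ((Kf g).flow) (chi ((Kf g).flow) S) (ind A B) (m + 1) (x + (i : ℕ)) := by
    intro g i hi
    rw [mem_range] at hi
    have hi' : (i : ℤ) < 4 ^ (m + 1) := by exact_mod_cast hi
    have g0 : (0 : ℤ) ≤ (g : ℕ) := by positivity
    have g1 : ((g : ℕ) : ℤ) ≤ n := by exact_mod_cast Nat.lt_succ_iff.1 g.2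
    have hw : (Kf g).flow.w (x + (i : ℕ)) ≠ 0 := by
      rw [Ker.flow_w]
      have := (hKf g).w1 (blk (x + (i : ℕ))) (by unfold blk; omega) (by unfold blk; omega)
      intro h0
      rw [h0] at this
      norm_num at this
    have h3 := Fl_ge (Kf g).flow (ind A B) (3 / 16)
      (fun X hX => land_point (hKf g) hA hB hX) m (x + (i : ℕ)) hw
    have h4 := Fl_sub_Hw (Kf g).flow S (ind_nonneg A B) (ind_le_one A B) (m + 1) (x + (i : ℕ))
    linarith
  have h3 : ∑ g : Fin (n + 1), ∑ i ∈ range (4 ^ (m + 1)),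
      (3 / 16 - Hw ((Kf g).flow) S (m + 1) (x + (i : ℕ))) ≤
      ∑ g : Fin (n + 1), ∑ i ∈ range (4 ^ (m + 1)),
        Fl ((Kf g).flow) (chi ((Kf g).flow) S) (ind A B) (m + 1) (x + (i : ℕ)) :=
    sum_le_sum fun g _ => sum_le_sum (h2 g)
  simp only [sum_sub_distrib, sum_const, card_range, card_univ, Fintype.card_fin,
    nsmul_eq_mul] at h3
  push_cast at h3
  have h4 : (0 : ℝ) ≤ ((n : ℝ) + 1) * 4 ^ (m + 1) := by positivity
  linarith

end H91RP
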